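import Pool.Agent.Lib_helper78.TT.PN

/-!
# The greedy cover in polynomial time (MP_5d94c0_lc)
-/

set_option autoImplicit false
set_option linter.unusedSectionVars false

namespace Pool.Agent.TT

open Pool.Agent.CK Pool.Agent.CKP Pool.Agent.PSL Pool.Agent.PCL

variable {P : Lang} {γ α : Type} [ToD γ] [ToD α]

theorem ptime_cnt {V : γ → List (List Bool)} {j : γ → List Unit} (hV : PTime P V)
    (hj : PTime P j) : PN P (fun x => cnt (V x) (j x).length) := by
  have h1 : PTime P (fun p : γ × List Bool => p.2) := PTime.id.snd
  have h2 : PTime P (fun p : γ × List Bool => j p.1) := hj.comp PTime.id.fst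
  exact PN.len (PTime.filter (l := V) (f := fun x v => v.getD (j x).length false) hV
    (PTime.getD h2 h1 (PTime.const false)))

/-- `best` in unary -/
def bestU (K : List Unit) (V : List (List Bool)) : List Unit :=
  (rangeU K).foldl
    (fun b j => if decide (cnt V b.length < cnt V j.length) = true then j else b) []

theorem bestU_eq (K : List Unit) (V : List (List Bool)) :
    bestU K V = List.replicate (best K.length V) () := by
  unfold bestU best
  rw [← unary_eq K, rangeU_replicate, List.length_replicate, List.foldl_map]
  have h : ∀ (l : List ℕ) (b : ℕ), l.foldl (fun (b : List Unit) (j : ℕ) =>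
      if decide (cnt V b.length < cnt V (List.replicate j ()).length) = true then
        List.replicate j () else b) (List.replicate b ()) =
      List.replicate (l.foldl (fun b j => if cnt V b < cnt V j then j else b) b) () := by
    intro l
    induction l with
    | nil => intro b; rfl
    | cons a t ih =>
      intro b
      rw [List.foldl_cons, List.foldl_cons, List.length_replicate, List.length_replicate]
      by_cases hc : cnt V b < cnt V a
      · rw [if_pos (decide_eq_true hc), if_pos hc, ih]
      · rw [if_neg (by simpa using hc), if_neg hc, ih]
  exact h _ 0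

theorem sz_bestU (K : List Unit) (V : List (List Bool)) :
    sz (bestU K V) ≤ sz (rangeU K) + 1 := by
  unfold bestU
  have h : ∀ (l : List (List Unit)) (b : List Unit), sz (l.foldl
      (fun (b : List Unit) j => if decide (cnt V b.length < cnt V j.length) = true then j else b)
      b) ≤ sz l + sz b := by
    intro l
    induction l with
    | nil => intro b; simp
    | cons a t ih =>
      intro b
      rw [List.foldl_cons, sz_cons]
      split_ifs
      · have := ih a
        omega
      · have := ih b
        omega
  have := h (rangeU K) []
  rw [sz_nil] at this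
  omega

theorem ptime_bestU {K : γ → List Unit} {V : γ → List (List Bool)} (hK : PTime P K)
    (hV : PTime P V) : PTime P (fun x => bestU (K x) (V x)) := by
  obtain ⟨Pl, hPl⟩ := (PTime.rangeU hK).size_le
  have h1 : PTime P (fun p : γ × List Unit × List Unit => V p.1) := hV.comp PTime.id.fst
  have h2 : PTime P (fun p : γ × List Unit × List Unit => p.2.1) := PTime.id.snd.fst
  have h3 : PTime P (fun p : γ × List Unit × List Unit => p.2.2) := PTime.id.snd.snd
  refine PTime.foldl_add (l := fun x => rangeU (K x)) (i := fun _ => ([] : List Unit))
    (s := fun x b j => if decide (cnt (V x) b.length < cnt (V x) j.length) = true then j else b)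
    (PTime.rangeU hK) (PTime.const _)
    (PTime.ite ((ptime_cnt h1 h2).lt (ptime_cnt h1 h3)) h3 h2) Pl ?_
  intro x b a ha
  have h4 := (sz_le_of_mem ha).trans (hPl x)
  split_ifs <;> omega

/-- one step of the greedy cover -/
def coverS (K : List Unit) (q : List (List Unit) × List (List Bool)) :
    List (List Unit) × List (List Bool) :=
  (q.1 ++ [bestU K q.2], q.2.filter fun v => !v.getD (bestU K q.2).length false)

theorem coverS_fold (K : List Unit) : ∀ (n : ℕ) (acc : List (List Unit))
    (V : List (List Bool)), ((List.replicate n ()).foldl (fun q _ => coverS K q) (acc, V)).1 =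
      acc ++ (cover K.length n V).map fun j => List.replicate j () := by
  intro n
  induction n with
  | zero => intro acc V; simp [cover]
  | succ n ih =>
    intro acc V
    rw [List.replicate_succ, List.foldl_cons]
    show ((List.replicate n ()).foldl (fun q _ => coverS K q)
      (acc ++ [bestU K V], V.filter fun v => !v.getD (bestU K V).length false)).1 = _
    rw [ih, bestU_eq, List.length_replicate, cover, List.map_cons, List.append_assoc]
    rfl

theorem sz_filter_le (f : List Bool → Bool) (V : List (List Bool)) :
    sz (V.filter f) ≤ sz V := by
  induction V with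
  | nil => simp
  | cons a t ih =>
    rw [List.filter_cons, sz_cons]
    split_ifs
    · rw [sz_cons]; omega
    · omega

theorem ptime_cover {K h : γ → ℕ} {V : γ → List (List Bool)} (hK : PN P K) (hh : PN P h)
    (hV : PTime P V) :
    PTime P (fun a => (cover (K a) (h a) (V a)).map fun j => List.replicate j ()) := by
  obtain ⟨Pl, hPl⟩ := (PTime.rangeU hK).size_le
  have h1 : PTime P (fun p : γ × (List (List Unit) × List (List Bool)) × Unit =>
      bestU (List.replicate (K p.1) ()) p.2.1.2) :=
    ptime_bestU (PTime.comp hK PTime.id.fst) PTime.id.snd.fst.snd
  have hs : PTime P (fun p : γ × (List (List Unit) × List (List Bool)) × Unit =>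
      coverS (List.replicate (K p.1) ()) p.2.1) := by
    refine PTime.pair (PTime.append PTime.id.snd.fst.fst (PTime.cons h1 (PTime.const _))) ?_
    have h2 : PTime P (fun p : (γ × (List (List Unit) × List (List Bool)) × Unit) × List Bool =>
        bestU (List.replicate (K p.1.1) ()) p.1.2.1.2) := h1.comp PTime.id.fst
    exact PTime.filter
      (l := fun p : γ × (List (List Unit) × List (List Bool)) × Unit => p.2.1.2)
      (f := fun p v => !v.getD (bestU (List.replicate (K p.1) ()) p.2.1.2).length false)
      PTime.id.snd.fst.snd (PTime.getD h2 PTime.id.snd (PTime.const false)).not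
  have h := PTime.foldl_add (l := fun a => List.replicate (h a) ())
    (i := fun a => (([] : List (List Unit)), V a))
    (s := fun a q (_ : Unit) => coverS (List.replicate (K a) ()) q) hh
    ((PTime.const _).pair hV) hs (Pl + 2) (by
      intro x q _ _
      have h3 : sz (q.1 ++ [bestU (List.replicate (K x) ()) q.2]) ≤
          sz q.1 + sz (bestU (List.replicate (K x) ()) q.2) + 1 := by
        generalize bestU (List.replicate (K x) ()) q.2 = w
        induction q.1 with
        | nil => rw [List.nil_append, sz_cons, sz_nil]; omega
        | cons a t ih => rw [List.cons_append, sz_cons, sz_cons]; omega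
      have h4 := sz_filter_le
        (fun v => !v.getD (bestU (List.replicate (K x) ()) q.2).length false) q.2
      have h5 := sz_bestU (List.replicate (K x) ()) q.2
      have h6 := hPl x
      have h7 : sz q = sz q.1 + sz q.2 + 1 := by rw [← sz_pair]
      have h8 : (Pl + 2 : Polynomial ℕ).eval (sz x) = Pl.eval (sz x) + 2 := by
        rw [Polynomial.eval_add, Polynomial.eval_ofNat]
      unfold coverS
      rw [sz_pair, h7, h8]
      omega)
  refine h.fst.of_eq fun a => ?_
  rw [coverS_fold, List.length_replicate, List.nil_append]

end Pool.Agent.TT
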