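import Pool.Agent.Lib_helper78.TT.Complete
import Pool.Agent.Lib_helper78.TT.W2

/-!
# The search in polynomial time (MP_5d94c0_lc)
-/

set_option autoImplicit false
set_option linter.unusedSectionVars false

namespace Pool.Agent.TT

open Pool.Agent.CK Pool.Agent.CKP Pool.Agent.PSL Pool.Agent.PCL

variable {O P : Lang} {γ α β : Type} [ToD γ] [ToD α] [ToD β]

theorem pn_XX {f : γ → ℕ} (hf : PN P f) : PN P (fun a => XX (f a)) :=
  (PN.const 512).mul ((hf.add (PN.const 2)).pow 5)

theorem pn_YY {f : γ → ℕ} (hf : PN P f) : PN P (fun a => YY (f a)) :=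
  (PN.const 2).mul ((((pn_XX hf).pow 4).mul (hf.add (PN.const 1))).add (PN.const 1))

theorem pn_DD {f : γ → ℕ} (hf : PN P f) : PN P (fun a => DD (f a)) :=
  (PN.const 128).mul ((hf.add (PN.const 2)).pow 2)

theorem pn_count {v : γ → List Bool} (hv : PTime P v) : PN P (fun a => (v a).count true) := by
  have h := PN.len (PTime.filter (f := fun (_ : γ) (b : Bool) => b) hv PTime.id.snd)
  refine h.of_eq fun a => ?_
  rw [List.count_eq_countP, List.countP_eq_length_filter]
  congr 2
  funext b
  cases b <;> rfl

theorem ptime_triples {u : γ → List Unit} (hu : PTime P u) : PTime P (fun a => triples (u a)) := by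
  unfold triples
  refine PTime.flatMap (f := fun a b => (rangeU (u a)).flatMap fun c => (rangeU (u a)).map
    fun e => (b, c, e)) hu.rangeU ?_
  refine PTime.flatMap (l := fun p : γ × List Unit => rangeU (u p.1))
    (f := fun p c => (rangeU (u p.1)).map fun e => (p.2, c, e))
    (hu.comp PTime.id.fst).rangeU ?_
  exact PTime.map (l := fun p : (γ × List Unit) × List Unit => rangeU (u p.1.1))
    (f := fun p e => (p.1.2, p.2, e)) (hu.comp PTime.id.fst.fst).rangeU
    (PTime.id.fst.fst.snd.pair (PTime.id.fst.snd.pair PTime.id.snd))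

theorem ptime_seeds {u : γ → List Unit} (hu : PTime P u) : PTime P (fun a => seeds (u a)) := by
  unfold seeds
  refine PTime.flatMap (f := fun a b => (triples (u a)).map fun c =>
    ((b.1, b.2.1, b.2.2, c.1, c.2.1, c.2.2) : Sd)) (ptime_triples hu) ?_
  refine PTime.map (l := fun p : γ × (List Unit × List Unit × List Unit) => triples (u p.1))
    (f := fun p c => ((p.2.1, p.2.2.1, p.2.2.2, c.1, c.2.1, c.2.2) : Sd))
    (ptime_triples (hu.comp PTime.id.fst)) ?_
  exact PTime.id.fst.snd.fst.pair (PTime.id.fst.snd.snd.fst.pair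
    (PTime.id.fst.snd.snd.snd.pair PTime.id.snd))

theorem ptime_terms {m : γ → List Unit} {s : γ → Sd} (hm : PTime P m) (hs : PTime P s) :
    PTime P (fun a => terms (m a) (s a)) := by
  unfold terms
  exact PTime.map (f := fun a q => ((m a, s a, q) : Tm))
    (ptime_triples (PTime.cons (PTime.const ()) hm))
    ((hm.comp PTime.id.fst).pair ((hs.comp PTime.id.fst).pair PTime.id.snd))

theorem ptime_qcode {q : γ → Qu} (hq : PTime P q) : PTime P (fun a => qcode (q a)) :=
  PTime.enc hq.code

theorem ptime_lquest {x : γ → List Bool} {N m : γ → List Unit} {st : γ → List Cl} {s : γ → Sd}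
    (hx : PTime P x) (hN : PTime P N) (hm : PTime P m) (hst : PTime P st) (hs : PTime P s) :
    PTime P (fun a => lquest (x a) (N a) (m a) (st a) (s a)) := by
  unfold lquest
  refine PTime.map (f := fun a t => qcode (x a, N a, st a ++ [[t]], [])) (ptime_terms hm hs) ?_
  refine ptime_qcode ?_
  exact (hx.comp PTime.id.fst).pair ((hN.comp PTime.id.fst).pair
    (((hst.comp PTime.id.fst).append (PTime.cons (PTime.cons PTime.id.snd (PTime.const _))
      (PTime.const _))).pair (PTime.const _)))

theorem ptime_fquest {x : γ → List Bool} {N : γ → List Unit} {st : γ → List Cl} {t : γ → Tm}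
    (hx : PTime P x) (hN : PTime P N) (hst : PTime P st) (ht : PTime P t) :
    PTime P (fun a => fquest (x a) (N a) (st a) (t a)) := by
  unfold fquest
  refine PTime.map (f := fun a j => qcode (x a, N a, st a ++ [[t a]], [j])) hN.rangeU ?_
  refine ptime_qcode ?_
  exact (hx.comp PTime.id.fst).pair ((hN.comp PTime.id.fst).pair
    (((hst.comp PTime.id.fst).append (PTime.cons (PTime.cons (ht.comp PTime.id.fst)
      (PTime.const _)) (PTime.const _))).pair (PTime.cons PTime.id.snd (PTime.const _))))

theorem ptime_strip {y : γ → List Bool} (hy : PTime P y) : PTime P (fun a => strip (y a)) := by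
  have h := PTime.listRec_add (l := fun a => (y a).reverse) (n := fun _ => ([] : List Bool))
    (c := fun _ (b : Bool) (t r : List Bool) => if b = true then t else r) hy.reverse
    (PTime.const _) (PTime.ite PTime.id.snd.fst PTime.id.snd.snd.fst PTime.id.snd.snd.snd)
  obtain ⟨Q, hQ⟩ := hy.reverse.size_le
  have h1 := h Q (by
    intro x b a t hat
    have h2 := sz_le_of_suffix hat
    have h3 := hQ x
    rw [sz_cons] at h2
    split_ifs <;> omega)
  refine h1.reverse.of_eq fun a => ?_
  unfold strip
  congr 1
  induction (y a).reverse with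
  | nil => rfl
  | cons b t ih =>
    rw [List.dropWhile_cons]
    cases b with
    | true => rfl
    | false => exact ih

theorem ptime_R (hO : PTime P O) (d : Cmd) (k : ℕ) {x y : γ → List Bool} (hx : PTime P x)
    (hy : PTime P y) : PTime P (fun a => R O d k (x a) (y a)) :=
  ptime_wit hO d k hx (ptime_strip hy)

section

variable {G : γ → List (List Bool) → List (List Bool)}

theorem ptime_lcand (hG : PTime P (fun p : γ × List (List Bool) => G p.1 p.2))
    {x : γ → List Bool} {N m : γ → List Unit} {st : γ → List Cl} {s : γ → Sd}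
    (hx : PTime P x) (hN : PTime P N) (hm : PTime P m) (hst : PTime P st) (hs : PTime P s) :
    PTime P (fun a => lcand (G a) (x a) (N a) (m a) (st a) (s a)) := by
  unfold lcand
  refine PTime.filter (f := fun a v => decide (v.length = ((m a).length + 1) ^ 3) &&
    decide (((m a).length + 1) ^ 3 ≤ DD (N a).length * v.count true))
    (hG.comp (PTime.id.pair (ptime_lquest hx hN hm hst hs))) ?_
  have hp : PN P (fun p : γ × List Bool => ((m p.1).length + 1) ^ 3) :=
    (((PN.len hm).add (PN.const 1)).pow 3).comp PTime.id.fst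
  have hD : PN P (fun p : γ × List Bool => DD (N p.1).length) :=
    (pn_DD (PN.len hN)).comp PTime.id.fst
  exact ((PN.len PTime.id.snd).eq hp).and (hp.le (hD.mul (pn_count PTime.id.snd)))

theorem ptime_lcl (hG : PTime P (fun p : γ × List (List Bool) => G p.1 p.2))
    {x : γ → List Bool} {N m : γ → List Unit} {st : γ → List Cl} {s : γ → Sd}
    (hx : PTime P x) (hN : PTime P N) (hm : PTime P m) (hst : PTime P st) (hs : PTime P s) :
    PTime P (fun a => lcl (G a) (x a) (N a) (m a) (st a) (s a)) := by
  have h := PTime.map (l := fun a => (cover (((m a).length + 1) ^ 3)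
    (DD (N a).length * (N a).length) (lcand (G a) (x a) (N a) (m a) (st a) (s a))).map
      fun j => List.replicate j ())
    (f := fun a u => (terms (m a) (s a)).getD u.length ((m a, s a, [], [], []) : Tm))
    (ptime_cover (((PN.len hm).add (PN.const 1)).pow 3) ((pn_DD (PN.len hN)).mul (PN.len hN))
      (ptime_lcand hG hx hN hm hst hs))
    (PTime.getD PTime.id.snd (ptime_terms (hm.comp PTime.id.fst) (hs.comp PTime.id.fst))
      ((hm.comp PTime.id.fst).pair ((hs.comp PTime.id.fst).pair (PTime.const _))))
  refine h.of_eq fun a => ?_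
  unfold lcl
  rw [List.map_map]
  apply List.map_congr_left
  intro j _
  simp

theorem sz_lcl {g : List (List Bool) → List (List Bool)} {x : List Bool} {N m : List Unit}
    {st : List Cl} {s : Sd} (hs : s ∈ seeds (() :: m)) :
    sz (lcl g x N m st s) ≤ DD N.length * N.length * (20 * (m.length + 1) + 19 + 1) + 1 := by
  have h2 : ∀ t ∈ lcl g x N m st s, sz t ≤ 20 * (m.length + 1) + 19 := by
    intro t ht
    obtain ⟨h1, h2, h3, h4, h5⟩ := mem_terms.1 (mem_lcl ht)
    have h6 := mem_seeds.1 hs
    rw [List.length_cons] at h6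
    obtain ⟨g1, g2, g3, g4, g5, g6⟩ := h6
    rw [← h2] at g1 g2 g3 g4 g5 g6
    have h7 : t.1.length = m.length := by rw [h1]
    refine (sz_tm (B := m.length + 1) ?_ ?_ ?_ ?_ ?_ ?_ ?_ ?_ ?_ ?_) <;> omega
  refine (num_list_bound _ _ h2).trans ?_
  rw [length_lcl]

theorem ptime_full (hG : PTime P (fun p : γ × List (List Bool) => G p.1 p.2))
    {x : γ → List Bool} {N m : γ → List Unit}
    (hx : PTime P x) (hN : PTime P N) (hm : PTime P m) :
    PTime P (fun a => full (G a) (x a) (N a) (m a)) := by
  have hF : PN P (fun a => DD (N a).length * (N a).length *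
      (20 * ((m a).length + 1) + 19 + 1) + 3) :=
    (((pn_DD (PN.len hN)).mul (PN.len hN)).mul (((((PN.const 20).mul ((PN.len hm).add
      (PN.const 1))).add (PN.const 19))).add (PN.const 1))).add (PN.const 3)
  obtain ⟨Q, hQ⟩ := hF.bound
  unfold full
  refine PTime.foldl_add (l := fun a => seeds (() :: m a)) (i := fun _ => ([] : List Cl))
    (s := fun a st s => st ++ [lcl (G a) (x a) (N a) (m a) st s])
    (ptime_seeds (PTime.cons (PTime.const ()) hm)) (PTime.const _) ?_ Q ?_
  · refine PTime.id.snd.fst.append (PTime.cons ?_ (PTime.const _))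
    exact ptime_lcl (G := fun p : γ × List Cl × Sd => G p.1)
      (hG.comp (PTime.id.fst.fst.pair PTime.id.snd)) (hx.comp PTime.id.fst)
      (hN.comp PTime.id.fst) (hm.comp PTime.id.fst) PTime.id.snd.fst PTime.id.snd.snd
  · intro a st s hs
    have h1 := sz_append_le st [lcl (G a) (x a) (N a) (m a) st s]
    have h2 := sz_lcl (g := G a) (x := x a) (N := N a) (st := st) hs
    have h3 := hQ a
    rw [sz_cons, sz_nil] at h1
    omega

theorem ptime_ffind (hO : PTime P O) (d : Cmd) (k : ℕ)
    (hG : PTime P (fun p : γ × List (List Bool) => G p.1 p.2))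
    {x : γ → List Bool} {N : γ → List Unit} {st : γ → List Cl} {t : γ → Tm}
    (hx : PTime P x) (hN : PTime P N) (hst : PTime P st) (ht : PTime P t) :
    PTime P (fun a => ffind (G a) O d k (x a) (N a) (st a) (t a)) := by
  unfold ffind
  refine PTime.map (f := fun _ v => strip v) (PTime.filter (f := fun a v => R O d k (x a) v)
    (hG.comp (PTime.id.pair (ptime_fquest hx hN hst ht)))
    (ptime_R hO d k (hx.comp PTime.id.fst) PTime.id.snd)) (ptime_strip PTime.id.snd)

theorem ptime_takeU {u : γ → List Unit} {L : γ → List α} (hu : PTime P u)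
    (hL : PTime P L) : PTime P (fun a => (L a).take (u a).length) := by
  have h := ((hu.udrop hL).udrop hL.reverse).reverse
  refine h.of_eq fun a => ?_
  rw [udrop_eq, udrop_eq, List.length_drop]
  generalize L a = l
  generalize (u a).length = k
  by_cases hk : k ≤ l.length
  · rw [← List.reverse_take (i := k)]
    simp
  · rw [show l.length - k = 0 by omega, List.drop_zero, List.reverse_reverse,
      List.take_of_length_le (by omega)]

theorem ptime_fterms {X : γ → List Unit} (hX : PTime P X) : PTime P (fun a => fterms (X a)) := by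
  unfold fterms
  refine PTime.map (f := fun _ q => fterm q.1 q.2.1 q.2.2) (ptime_triples hX) ?_
  unfold fterm
  exact PTime.id.snd.fst.pair ((PTime.id.snd.snd.fst.pair (PTime.const _)).pair
    ((PTime.const _).pair (PTime.id.snd.snd.snd.pair (PTime.const _))))

theorem ptime_rangeX {N : γ → List Unit} (hN : PTime P N) :
    PTime P (fun a => rangeU (List.replicate (XX (N a).length) ())) :=
  PTime.rangeU (l := fun a => List.replicate (XX (N a).length) ()) (pn_XX (PN.len hN))

theorem ptime_ftermsY {N : γ → List Unit} (hN : PTime P N) :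
    PTime P (fun a => fterms (List.replicate (YY (N a).length) ())) :=
  ptime_fterms (X := fun a => List.replicate (YY (N a).length) ()) (pn_YY (PN.len hN))

theorem ptime_range6 {m : γ → List Unit} (hm : PTime P m) :
    PTime P (fun a => rangeU (() :: (List.replicate (((m a).length + 1) ^ 6) ()))) :=
  PTime.rangeU (PTime.cons (PTime.const ())
    (f := fun _ => ()) (l := fun a => List.replicate (((m a).length + 1) ^ 6) ())
    (((PN.len hm).add (PN.const 1)).pow 6))

/-- MAIN LEMMA, time: polynomial in the sizes of `x`, `N` and `a`, if `G` is. -/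
theorem ptime_search (hO : PTime P O) (d : Cmd) (k : ℕ)
    (hG : PTime P (fun p : γ × List (List Bool) => G p.1 p.2)) {x : γ → List Bool}
    {N : γ → List Unit} (hx : PTime P x) (hN : PTime P N) :
    PTime P (fun a => search (G a) O d k (x a) (N a)) := by
  have h3 : PTime P (fun p : ((γ × List Unit) × List Unit) × Tm =>
      ffind (G p.1.1.1) O d k (x p.1.1.1) (N p.1.1.1)
        ((full (G p.1.1.1) (x p.1.1.1) (N p.1.1.1) p.1.1.2).take p.1.2.length) p.2) := by
    refine ptime_ffind (G := fun p : ((γ × List Unit) × List Unit) × Tm => G p.1.1.1) hO d k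
      (hG.comp (PTime.id.fst.fst.fst.fst.pair PTime.id.snd)) (hx.comp PTime.id.fst.fst.fst)
      (hN.comp PTime.id.fst.fst.fst) ?_ PTime.id.snd
    refine ptime_takeU PTime.id.fst.snd ?_
    exact ptime_full (G := fun p : ((γ × List Unit) × List Unit) × Tm => G p.1.1.1)
      (hG.comp (PTime.id.fst.fst.fst.fst.pair PTime.id.snd)) (hx.comp PTime.id.fst.fst.fst)
      (hN.comp PTime.id.fst.fst.fst) PTime.id.fst.fst.snd
  have h2 : PTime P (fun p : (γ × List Unit) × List Unit =>
      (fterms (List.replicate (YY (N p.1.1).length) ())).flatMap fun t =>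
        ffind (G p.1.1) O d k (x p.1.1) (N p.1.1)
          ((full (G p.1.1) (x p.1.1) (N p.1.1) p.1.2).take p.2.length) t) :=
    PTime.flatMap (ptime_ftermsY (hN.comp PTime.id.fst.fst)) h3
  have h1 : PTime P (fun p : γ × List Unit =>
      (rangeU (() :: (List.replicate ((p.2.length + 1) ^ 6) ()))).flatMap fun i =>
        (fterms (List.replicate (YY (N p.1).length) ())).flatMap fun t =>
          ffind (G p.1) O d k (x p.1) (N p.1)
            ((full (G p.1) (x p.1) (N p.1) p.2).take i.length) t) :=
    PTime.flatMap (ptime_range6 PTime.id.snd) h2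
  exact PTime.flatMap (ptime_rangeX hN) h1

end

end Pool.Agent.TT
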