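import Pool.Agent.Lib_helper78.TT.Search

/-!
# The language of the questions is in `NP` (MP_5d94c0_lc, block W1, helper76)
-/

set_option autoImplicit false
set_option linter.unusedSectionVars false

namespace Pool.Agent.TT

open Pool.Agent.CK Pool.Agent.CKP Pool.Agent.PSL Pool.Agent.PCL

variable {O P : Lang} {γ α β : Type} [ToD γ] [ToD α] [ToD β]

/-! ### decoding -/

instance : OfD Unit := ⟨fun _ => (), fun _ => rfl, fun _ => PTime.const ()⟩

instance : OfD Bool := ⟨fun d => CKP.toBool d, toBool_toD, fun _ => PTime.toBool PTime.id⟩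

instance [OfD α] : OfD (List α) :=
  ⟨fun d => (CKP.toList d).map ofD, fun l => by
    rw [toList_toD, List.map_map]
    conv_rhs => rw [← List.map_id l]
    refine List.map_congr_left fun a _ => ?_
    exact OfD.ofD_toD a, fun P =>
    PTime.map (f := fun _ d => ofD d) (PTime.toList PTime.id) ((OfD.pt P).comp PTime.id.snd)⟩

instance [OfD α] [OfD β] : OfD (α × β) :=
  ⟨fun d => (ofD d.car, ofD d.cdr), fun q => by
    show (ofD (toD q.1), ofD (toD q.2)) = q
    rw [OfD.ofD_toD, OfD.ofD_toD], fun P =>
    ((OfD.pt P).comp PTime.id.car).pair ((OfD.pt P).comp PTime.id.cdr)⟩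

/-! ### the verifier -/

namespace W1

theorem ptime_dropF {y : γ → List Bool} (hy : PTime P y) :
    PTime P (fun a => (y a).dropWhile fun b => !b) := by
  obtain ⟨Q, hQ⟩ := hy.size_le
  have h := PTime.listRec_add (l := y) (n := fun _ => ([] : List Bool))
    (c := fun _ b t r => if b = true then b :: t else r) hy (PTime.const _)
    (PTime.ite PTime.id.snd.fst (PTime.cons PTime.id.snd.fst PTime.id.snd.snd.fst)
      PTime.id.snd.snd.snd) Q (by
      intro x r b t hbt
      have h1 := (sz_le_of_suffix hbt).trans (hQ x)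
      split_ifs
      · omega
      · omega)
  refine h.of_eq fun x => ?_
  induction y x with
  | nil => rfl
  | cons b t ih =>
    cases b
    · simpa using ih
    · rfl

theorem ptime_strip {y : γ → List Bool} (hy : PTime P y) : PTime P (fun a => strip (y a)) :=
  (ptime_dropF hy.reverse).tail.reverse

theorem ptime_R (hO : PTime P O) (d : Cmd) (k : ℕ) {x y : γ → List Bool} (hx : PTime P x)
    (hy : PTime P y) : PTime P (fun a => R O d k (x a) (y a)) :=
  ptime_wit hO d k hx (ptime_strip hy)

theorem ptime_hits {c : γ → Cl} {y : γ → List Bool} (hc : PTime P c) (hy : PTime P y) :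
    PTime P (fun a => hits (c a) (y a)) :=
  PTime.any (f := fun a t => holds t (y a)) hc (ptime_holds PTime.id.snd (hy.comp PTime.id.fst))

end W1

theorem ptime_good (hO : PTime P O) (d : Cmd) (k : ℕ) {q : γ → Qu} {y : γ → List Bool}
    (hq : PTime P q) (hy : PTime P y) : PTime P (fun a => good O d k (q a) (y a)) := by
  refine PTime.and ((PTime.length hy).nat_eq (PTime.length hq.snd.fst)) (PTime.and
    (W1.ptime_R hO d k hq.fst hy) (PTime.and ?_ ?_))
  · exact PTime.all (f := fun a c => hits c (y a)) hq.snd.snd.fst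
      (W1.ptime_hits PTime.id.snd (hy.comp PTime.id.fst))
  · exact PTime.all (f := fun a j => (y a).getD j.length false) hq.snd.snd.snd
      (PTime.getD PTime.id.snd (hy.comp PTime.id.fst) (PTime.const false))

/-! ### the language -/

theorem QL_qcode (d : Cmd) (k : ℕ) (q : Qu) : QL O d k (qcode q) = Qs O d k q := by
  unfold QL qcode
  rw [dec_enc, OfD.ofD_toD]

theorem QL_inNP (d : Cmd) (k : ℕ) : InNP O (QL O d k) := by
  classical
  have hO : PTime O O := PTime.ask (O := O) PTime.id
  have hq : PTime O (fun w : List Bool => (ofD (dec w) : Qu)) :=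
    (OfD.pt O).comp (PTime.dec PTime.id)
  obtain ⟨Q, hQ⟩ := hq.size_le
  obtain ⟨e, he⟩ := exists_pow (Q.comp (4 * Polynomial.X + 1))
  have hV : PTime O (fun p : List Bool × List Bool => good O d k (ofD (dec p.1)) p.2) :=
    ptime_good hO d k (hq.comp PTime.id.fst) PTime.id.snd
  refine inNP_of hV (B := fun n => (n + 2) ^ e) ((UPoly.id.add (UPoly.const 2)).pow e) ?_ ?_
  · intro w hw
    unfold QL Qs at hw
    rw [decide_eq_true_eq] at hw
    obtain ⟨y, hy⟩ := hw
    refine ⟨y, ?_, hy⟩
    have h1 : y.length = (ofD (dec w) : Qu).2.1.length := by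
      unfold good at hy
      rw [Bool.and_eq_true, decide_eq_true_eq] at hy
      exact hy.1
    have h2 : (ofD (dec w) : Qu).2.1.length ≤ sz (ofD (dec w) : Qu) := by
      have h3 := length_le_sz (ofD (dec w) : Qu).2.1
      have h4 : sz (ofD (dec w) : Qu) = sz (ofD (dec w) : Qu).1 + (sz (ofD (dec w) : Qu).2.1 +
          sz (ofD (dec w) : Qu).2.2 + 1) + 1 := rfl
      omega
    have h5 := hQ w
    have h6 : Q.eval (sz w) ≤ Q.eval (4 * w.length + 1) := poly_mono Q (size_bits w)
    have h7 := he w.length
    simp only [Polynomial.eval_comp, Polynomial.eval_add, Polynomial.eval_mul,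
      Polynomial.eval_ofNat, Polynomial.eval_X, Polynomial.eval_one] at h7
    omega
  · intro w y hy
    unfold QL Qs
    rw [decide_eq_true_eq]
    exact ⟨y, hy⟩

/-! ### witnesses of fixed length -/

namespace W1

theorem dropF_rep (n : ℕ) (l : List Bool) :
    (List.replicate n false ++ true :: l).dropWhile (fun b => !b) = true :: l := by
  induction n with
  | zero => rfl
  | succ n ih => rw [List.replicate_succ, List.cons_append, List.dropWhile_cons]; simp [ih]

theorem strip_pad (n : ℕ) (y : List Bool) : strip (pad n y) = y := by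
  unfold strip pad
  rw [List.reverse_append, List.reverse_cons, List.reverse_replicate, List.append_assoc,
    List.singleton_append, dropF_rep, List.tail_cons, List.reverse_reverse]

theorem pad_length {n : ℕ} {y : List Bool} (h : y.length < n) : (pad n y).length = n := by
  unfold pad
  rw [List.length_append, List.length_cons, List.length_replicate]
  omega

end W1

theorem wit_iff_R {d : Cmd} {k : ℕ} {x : List Bool} {n : ℕ} (hn : (x.length + 2) ^ k < n) :
    (∃ y, wit O d k x y = true) ↔ ∃ y : List Bool, y.length = n ∧ R O d k x y = true := by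
  constructor
  · rintro ⟨y, hy⟩
    refine ⟨pad n y, W1.pad_length (lt_of_le_of_lt (wit_iff.1 hy).1 hn), ?_⟩
    unfold R
    rw [W1.strip_pad]
    exact hy
  · rintro ⟨y, _, hy⟩
    exact ⟨strip y, hy⟩

end Pool.Agent.TT
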