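import Mathlib

/-!
# Expansion of the graph of `(P, P')` (block A, helper76)

A nonzero `Q(X, Y, Z)` of degree `< k` in `Y` and in `Z` has at most `k (p^3 + 1)` solutions `P` of
degree `< p` of the differential equation `Q(X, P, P') = 0` over `ZMod p`.
-/

set_option autoImplicit false

namespace Pool.Agent.TT
open Polynomial Finset

namespace A76

/-- interpolation: fewer conditions than monomials -/
theorem interp {K : Type} [Field K] (m k : ℕ) (S : Finset (K × K × K))
    (hS : S.card < m * k ^ 2) :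
    ∃ c : Fin m × Fin k × Fin k → K, c ≠ 0 ∧
      ∀ q ∈ S, ∑ x : Fin m × Fin k × Fin k,
        c x * (q.1 ^ (x.1 : ℕ) * q.2.1 ^ (x.2.1 : ℕ) * q.2.2 ^ (x.2.2 : ℕ)) = 0 := by
  classical
  let f : (Fin m × Fin k × Fin k → K) →ₗ[K] (S → K) :=
    { toFun := fun c q => ∑ x : Fin m × Fin k × Fin k,
        c x * (q.1.1 ^ (x.1 : ℕ) * q.1.2.1 ^ (x.2.1 : ℕ) * q.1.2.2 ^ (x.2.2 : ℕ))
      map_add' := by
        intro c c'
        funext q
        simp [add_mul, Finset.sum_add_distrib]
      map_smul' := by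
        intro r c
        funext q
        simp [mul_assoc, Finset.mul_sum] }
  have hlt : Module.finrank K (S → K) < Module.finrank K (Fin m × Fin k × Fin k → K) := by
    rw [Module.finrank_fintype_fun_eq_card, Module.finrank_fintype_fun_eq_card]
    simp only [Fintype.card_prod, Fintype.card_fin, Fintype.card_coe]
    calc S.card < m * k ^ 2 := hS
      _ = m * (k * k) := by ring
  obtain ⟨c, hc, hc0⟩ := Submodule.exists_mem_ne_zero_of_ne_bot
    (LinearMap.ker_ne_bot_of_finrank_lt (f := f) hlt)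
  refine ⟨c, hc0, fun q hq => ?_⟩
  have := congrFun (LinearMap.mem_ker.1 hc) ⟨q, hq⟩
  exact this

theorem ndlt {R : Type} [Semiring R] {k : ℕ} (hk : 1 ≤ k) {Q : R[X]}
    (h : ∀ j, k ≤ j → Q.coeff j = 0) : Q.natDegree < k := by
  by_contra hlt
  have h1 := h Q.natDegree (by omega)
  have h2 : Q = 0 := Polynomial.leadingCoeff_eq_zero.1 h1
  rw [h2] at hlt
  simp at hlt
  omega

variable {K : Type} [Field K]

/-- the class of polynomials of degree `< k` in `Y` and in `Z` and `< m` in `X` -/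
def Bd (m k : ℕ) (Q : K[X][X][X]) : Prop :=
  ∀ l j, ((Q.coeff l).coeff j).degree < m ∧ (k ≤ l → Q.coeff l = 0) ∧
    (k ≤ j → (Q.coeff l).coeff j = 0)

theorem Bd.derivative {m k : ℕ} {Q : K[X][X][X]} (h : Bd m k Q) :
    Bd m k (Polynomial.derivative Q) := by
  intro l j
  have e : (Polynomial.derivative Q).coeff l = Q.coeff (l + 1) * ((l : K[X][X]) + 1) :=
    Polynomial.coeff_derivative Q l
  have e1 : (Polynomial.derivative Q).coeff l = (l + 1) • Q.coeff (l + 1) := by
    rw [e, nsmul_eq_mul]; push_cast; ring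
  refine ⟨?_, ?_, ?_⟩
  · rw [e1, Polynomial.coeff_smul]
    exact lt_of_le_of_lt (Polynomial.degree_smul_le _ _) (h (l + 1) j).1
  · intro hl
    rw [e1, (h (l + 1) j).2.1 (by omega), smul_zero]
  · intro hj
    rw [e1, Polynomial.coeff_smul, (h (l + 1) j).2.2 hj, smul_zero]

theorem Bd.iterate {m k : ℕ} {Q : K[X][X][X]} (h : Bd m k Q) (n : ℕ) :
    Bd m k (Polynomial.derivative^[n] Q) := by
  induction n with
  | zero => exact h
  | succ n ih => rw [Function.iterate_succ_apply']; exact ih.derivative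

/-- the value of `Q` at `(P, R)` -/
noncomputable def ev (Q : K[X][X][X]) (P R : K[X]) : K[X] :=
  (Q.map (Polynomial.evalRingHom P)).eval R

theorem ev_eq_sum {m k : ℕ} (hk : 1 ≤ k) {Q : K[X][X][X]} (h : Bd m k Q) (P R : K[X]) :
    ev Q P R = ∑ l ∈ range k, (∑ j ∈ range k, (Q.coeff l).coeff j * P ^ j) * R ^ l := by
  unfold ev
  rw [Polynomial.eval_map, Polynomial.eval₂_eq_sum_range' (n := k)]
  · refine Finset.sum_congr rfl fun l _ => ?_
    congr 1
    rw [Polynomial.coe_evalRingHom]
    exact Polynomial.eval_eq_sum_range' (ndlt hk fun j hj => (h l j).2.2 hj) _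
  · exact ndlt hk fun l hl => (h l 0).2.1 hl

/-- the degree of the value -/
theorem ev_degree {m k d : ℕ} (hm : 1 ≤ m) (hk : 1 ≤ k) {Q : K[X][X][X]} (h : Bd m k Q)
    {P R : K[X]} (hP : P.natDegree < d) (hR : R.natDegree < d) :
    (ev Q P R).natDegree < m + 2 * d * k := by
  rw [ev_eq_sum hk h]
  have h1 : ∀ l ∈ range k, ((∑ j ∈ range k, (Q.coeff l).coeff j * P ^ j) * R ^ l).natDegree ≤
      (m - 1) + 2 * d * k := by
    intro l hl
    have hl' := Finset.mem_range.1 hl
    have h2 : (∑ j ∈ range k, (Q.coeff l).coeff j * P ^ j).natDegree ≤ (m - 1) + d * k := by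
      refine Polynomial.natDegree_sum_le_of_forall_le _ _ fun j hj => ?_
      have hj' := Finset.mem_range.1 hj
      refine le_trans Polynomial.natDegree_mul_le ?_
      have h3 : ((Q.coeff l).coeff j).natDegree ≤ m - 1 := by
        have h4 : ((Q.coeff l).coeff j).natDegree < m :=
          ndlt hm fun i hi => (Polynomial.degree_lt_iff_coeff_zero _ _).1 (h l j).1 i
            (by exact_mod_cast hi)
        omega
      have h5 : (P ^ j).natDegree ≤ d * k := by
        refine le_trans Polynomial.natDegree_pow_le ?_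
        calc j * P.natDegree ≤ k * d := Nat.mul_le_mul (by omega) (by omega)
          _ = d * k := Nat.mul_comm _ _
      omega
    refine le_trans Polynomial.natDegree_mul_le ?_
    have h5 : (R ^ l).natDegree ≤ d * k := by
      refine le_trans Polynomial.natDegree_pow_le ?_
      calc l * R.natDegree ≤ k * d := Nat.mul_le_mul (by omega) (by omega)
        _ = d * k := Nat.mul_comm _ _
    have : 2 * d * k = d * k + d * k := by ring
    omega
  have h6 := Polynomial.natDegree_sum_le_of_forall_le (s := range k) _ h1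
  omega

/-- values of the value -/
theorem eval_ev {m k : ℕ} (hk : 1 ≤ k) {Q : K[X][X][X]} (h : Bd m k Q) (P R : K[X]) (a : K) :
    (ev Q P R).eval a =
      ∑ l ∈ range k, (∑ j ∈ range k, ((Q.coeff l).coeff j).eval a * (P.eval a) ^ j) *
        (R.eval a) ^ l := by
  rw [ev_eq_sum hk h]
  simp [Polynomial.eval_finsetSum]

/-- Taylor -/
theorem ev_taylor (Q : K[X][X][X]) (P R H : K[X]) :
    ∃ T : K[X], ev Q P (R + H) = ev Q P R + ev (Polynomial.derivative Q) P R * H + T * H ^ 2 := by
  obtain ⟨T, hT⟩ := Polynomial.binomExpansion (Q.map (Polynomial.evalRingHom P)) R H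
  refine ⟨T, ?_⟩
  unfold ev
  rw [hT, Polynomial.derivative_map]

/-- change of `P` -/
theorem ev_sub_dvd (Q : K[X][X][X]) (P P2 R : K[X]) : P2 - P ∣ ev Q P2 R - ev Q P R := by
  unfold ev
  rw [Polynomial.eval_map, Polynomial.eval_map, Polynomial.eval₂_eq_sum, Polynomial.eval₂_eq_sum,
    Polynomial.sum, Polynomial.sum, ← Finset.sum_sub_distrib]
  refine Finset.dvd_sum fun l _ => ?_
  rw [← sub_mul]
  refine Dvd.dvd.mul_right ?_ _
  exact Polynomial.sub_dvd_eval_sub _ _ _

/-- the top derivative -/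
theorem iterate_top (Q : K[X][X][X]) :
    Polynomial.derivative^[Q.natDegree] Q =
      Polynomial.C ((Q.natDegree.factorial : K[X][X]) * Q.leadingCoeff) := by
  ext1 n
  rw [Polynomial.coeff_iterate_derivative, Polynomial.coeff_C]
  split_ifs with h
  · subst h
    rw [zero_add, Nat.descFactorial_self, nsmul_eq_mul]
    rfl
  · rw [Polynomial.coeff_eq_zero_of_natDegree_lt (by omega), smul_zero]

theorem ev_top (Q : K[X][X][X]) (P R : K[X]) :
    ev (Polynomial.derivative^[Q.natDegree] Q) P R =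
      (Q.natDegree.factorial : K[X]) * Q.leadingCoeff.eval P := by
  rw [iterate_top]
  unfold ev
  simp

variable {p : ℕ} [Fact p.Prime]

theorem cast_ne {n : ℕ} (h0 : n ≠ 0) (h : n < p) : ((n : ℕ) : ZMod p) ≠ 0 := by
  intro h1
  rw [ZMod.natCast_eq_zero_iff] at h1
  exact absurd (Nat.le_of_dvd (Nat.pos_of_ne_zero h0) h1) (by omega)

/-- the order of `E'` is one less than the order of `E` -/
theorem order {E : (ZMod p)[X]} (hE : E ≠ 0) (hdeg : E.natDegree < p) {a : ZMod p}
    (h0 : E.eval a = 0) (h1 : (Polynomial.derivative E).eval a = 0) :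
    ∃ (m : ℕ) (H : (ZMod p)[X]), 1 ≤ m ∧ (X - C a) ^ (m + 1) ∣ E ∧
      Polynomial.derivative E = (X - C a) ^ m * H ∧ H.eval a ≠ 0 := by
  obtain ⟨G, hG, hGa⟩ := Polynomial.exists_eq_pow_rootMultiplicity_mul_and_not_dvd E hE a
  have hn0 : E.rootMultiplicity a ≠ 0 := by
    intro h
    have := (Polynomial.rootMultiplicity_pos hE).2 h0
    omega
  obtain ⟨m, hm⟩ : ∃ m, E.rootMultiplicity a = m + 1 := ⟨E.rootMultiplicity a - 1, by omega⟩
  rw [hm] at hG
  have hmp : m + 1 < p := by
    refine lt_of_le_of_lt ?_ hdeg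
    have h2 := Polynomial.natDegree_le_of_dvd (⟨G, hG⟩ : (X - C a) ^ (m + 1) ∣ E) hE
    rwa [Polynomial.natDegree_pow, Polynomial.natDegree_X_sub_C, mul_one] at h2
  have hGa' : G.eval a ≠ 0 := fun h => hGa (Polynomial.dvd_iff_isRoot.2 h)
  have hd : Polynomial.derivative E =
      (X - C a) ^ m * (((m + 1 : ℕ) : (ZMod p)[X]) * G + (X - C a) * Polynomial.derivative G) := by
    rw [hG, Polynomial.derivative_mul, Polynomial.derivative_X_sub_C_pow]
    rw [Nat.add_sub_cancel]
    rw [pow_succ]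
    simp only [map_natCast]
    ring
  have hH : (((m + 1 : ℕ) : (ZMod p)[X]) * G + (X - C a) * Polynomial.derivative G).eval a ≠ 0 := by
    simp only [Polynomial.eval_add, Polynomial.eval_mul, Polynomial.eval_sub, Polynomial.eval_X,
      Polynomial.eval_C, sub_self, zero_mul, add_zero, Polynomial.eval_natCast]
    exact mul_ne_zero (cast_ne (by omega) hmp) hGa'
  refine ⟨m, _, ?_, ⟨G, hG⟩, hd, hH⟩
  by_contra hm1
  have hm0 : m = 0 := by omega
  subst hm0
  rw [pow_zero, one_mul] at hd
  rw [hd] at h1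
  exact hH h1

/-- a solution is determined by its value and the value of its derivative at a good place -/
theorem inj {Q : (ZMod p)[X][X][X]} {P1 P2 : (ZMod p)[X]} (hd1 : P1.natDegree < p)
    (hd2 : P2.natDegree < p) (h1 : ev Q P1 (Polynomial.derivative P1) = 0)
    (h2 : ev Q P2 (Polynomial.derivative P2) = 0) {a : ZMod p}
    (hs : (ev (Polynomial.derivative Q) P1 (Polynomial.derivative P1)).eval a ≠ 0)
    (e0 : P1.eval a = P2.eval a)
    (e1 : (Polynomial.derivative P1).eval a = (Polynomial.derivative P2).eval a) : P1 = P2 := by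
  by_contra hne
  have hE : P2 - P1 ≠ 0 := sub_ne_zero.2 fun h => hne h.symm
  have hdeg : (P2 - P1).natDegree < p :=
    lt_of_le_of_lt (Polynomial.natDegree_sub_le _ _) (max_lt hd2 hd1)
  obtain ⟨m, H, hm, hdvd, hder, hH⟩ := order hE hdeg (a := a) (by simp [e0])
    (by simp [e1])
  obtain ⟨T, hT⟩ := ev_taylor Q P1 (Polynomial.derivative P1) (Polynomial.derivative (P2 - P1))
  have hR : Polynomial.derivative P1 + Polynomial.derivative (P2 - P1) =
      Polynomial.derivative P2 := by
    rw [Polynomial.derivative_sub]; ring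
  rw [hR, h1, zero_add] at hT
  have hA : (X - C a) ^ (m + 1) ∣
      ev Q P2 (Polynomial.derivative P2) - ev Q P1 (Polynomial.derivative P2) :=
    dvd_trans hdvd (ev_sub_dvd Q P1 P2 _)
  rw [h2, zero_sub, dvd_neg, hT, hder] at hA
  have hB : (X - C a) ^ (m + 1) ∣ T * ((X - C a) ^ m * H) ^ 2 := by
    refine Dvd.dvd.mul_left ?_ _
    rw [mul_pow, ← pow_mul]
    exact Dvd.dvd.mul_right (pow_dvd_pow _ (by omega)) _
  have hC := (dvd_add_left hB).1 hA
  rw [pow_succ, mul_left_comm] at hC
  have hD : (X - C a) ∣ ev (Polynomial.derivative Q) P1 (Polynomial.derivative P1) * H :=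
    (mul_dvd_mul_iff_left (pow_ne_zero _ (Polynomial.X_sub_C_ne_zero a))).1 hC
  have hD' := Polynomial.dvd_iff_isRoot.1 hD
  rw [Polynomial.IsRoot, Polynomial.eval_mul] at hD'
  exact mul_ne_zero hs hH hD'

/-- a good place -/
theorem exists_place {s : (ZMod p)[X]} (hs : s ≠ 0) (hdeg : s.natDegree < p) :
    ∃ a : ZMod p, s.eval a ≠ 0 := by
  by_contra h
  push Not at h
  refine hs (Polynomial.eq_zero_of_natDegree_lt_card_of_eval_eq_zero' s Finset.univ
    (fun a _ => h a) ?_)
  rw [Finset.card_univ, ZMod.card]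
  exact hdeg

/-- the order of a solution -/
theorem exists_order {m k d : ℕ} (hm : 1 ≤ m) (hk : 1 ≤ k) (hkp : k ≤ p)
    (hmp : m + 2 * d * k ≤ p) {Q : (ZMod p)[X][X][X]} (hQ : Bd m k Q) {P R : (ZMod p)[X]}
    (hP : P.natDegree < d) (hR : R.natDegree < d) (h0 : ev Q P R = 0)
    (hlc : Q.leadingCoeff.eval P ≠ 0) :
    ∃ x : ℕ × ZMod p, x.1 < k ∧ ev (Polynomial.derivative^[x.1] Q) P R = 0 ∧
      (ev (Polynomial.derivative (Polynomial.derivative^[x.1] Q)) P R).eval x.2 ≠ 0 := by
  classical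
  have hek : Q.natDegree < k := ndlt hk fun l hl => (hQ l 0).2.1 hl
  have htop : ev (Polynomial.derivative^[Q.natDegree] Q) P R ≠ 0 := by
    rw [ev_top]
    refine mul_ne_zero ?_ hlc
    have h1 : ((Q.natDegree.factorial : ℕ) : ZMod p) ≠ 0 := by
      intro h
      rw [ZMod.natCast_eq_zero_iff, (Fact.out : p.Prime).dvd_factorial] at h
      omega
    intro h
    apply h1
    have h2 : (Polynomial.C ((Q.natDegree.factorial : ℕ) : ZMod p)) = (0 : (ZMod p)[X]) := by
      simpa using h
    exact Polynomial.C_eq_zero.1 h2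
  have hex : ∃ n, ev (Polynomial.derivative^[n] Q) P R ≠ 0 := ⟨_, htop⟩
  have hn := Nat.find_spec hex
  have hn0 : Nat.find hex ≠ 0 := by
    intro h
    rw [h] at hn
    exact hn h0
  have hle : Nat.find hex ≤ Q.natDegree := Nat.find_min' hex htop
  obtain ⟨j, hj⟩ : ∃ j, Nat.find hex = j + 1 := ⟨Nat.find hex - 1, by omega⟩
  have hj0 : ev (Polynomial.derivative^[j] Q) P R = 0 := by
    by_contra h
    have := Nat.find_min' hex h
    omega
  rw [hj, Function.iterate_succ_apply'] at hn
  obtain ⟨a, ha⟩ := exists_place hn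
    (lt_of_lt_of_le (ev_degree hm hk ((hQ.iterate j).derivative) hP hR) hmp)
  exact ⟨(j, a), by simp only; omega, hj0, ha⟩

/-- few solutions -/
theorem few_solutions {m k d : ℕ} (hm : 1 ≤ m) (hk : 1 ≤ k) (hkp : k ≤ p)
    (hmp : m + 2 * d * k ≤ p) {Q : (ZMod p)[X][X][X]} (hQ : Bd m k Q) (hQ0 : Q ≠ 0)
    (F : Finset (ZMod p)[X]) (hF : ∀ P ∈ F, P.natDegree < d)
    (h0 : ∀ P ∈ F, ev Q P (Polynomial.derivative P) = 0) : F.card ≤ k * (p ^ 3 + 1) := by
  classical
  have hdp : d ≤ p := by nlinarith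
  have hlc0 : Q.leadingCoeff ≠ 0 := Polynomial.leadingCoeff_ne_zero.2 hQ0
  have hsplit := Finset.card_filter_add_card_filter_not (s := F)
    (fun P => Q.leadingCoeff.eval P = 0)
  have hA : (F.filter fun P => Q.leadingCoeff.eval P = 0).card ≤ k := by
    have h1 : (F.filter fun P => Q.leadingCoeff.eval P = 0) ⊆ Q.leadingCoeff.roots.toFinset := by
      intro P hP
      rw [Multiset.mem_toFinset, Polynomial.mem_roots hlc0]
      exact (Finset.mem_filter.1 hP).2
    refine le_trans (Finset.card_le_card h1) (le_trans (Multiset.toFinset_card_le _)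
      (le_trans (Polynomial.card_roots' _) ?_))
    exact (ndlt hk fun j hj => (hQ Q.natDegree j).2.2 hj).le
  have hB : (F.filter fun P => ¬ Q.leadingCoeff.eval P = 0).card ≤ k * p ^ 3 := by
    have hex : ∀ P ∈ F.filter (fun P => ¬ Q.leadingCoeff.eval P = 0),
        ∃ x : ℕ × ZMod p, x.1 < k ∧
          ev (Polynomial.derivative^[x.1] Q) P (Polynomial.derivative P) = 0 ∧
          (ev (Polynomial.derivative (Polynomial.derivative^[x.1] Q)) P
            (Polynomial.derivative P)).eval x.2 ≠ 0 := by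
      intro P hP
      obtain ⟨hPF, hPl⟩ := Finset.mem_filter.1 hP
      have hR : (Polynomial.derivative P).natDegree < d :=
        lt_of_le_of_lt (Polynomial.natDegree_derivative_le P) (by have := hF P hPF; omega)
      exact exists_order hm hk hkp hmp hQ (hF P hPF) hR (h0 P hPF) hPl
    choose! g hg1 hg2 hg3 using hex
    let T : Finset (ℕ × ZMod p × ZMod p × ZMod p) :=
      range k ×ˢ Finset.univ ×ˢ Finset.univ ×ˢ Finset.univ
    have hT : T.card = k * p ^ 3 := by
      simp only [T, Finset.card_product, Finset.card_range, Finset.card_univ, ZMod.card]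
      ring
    rw [← hT]
    refine Finset.card_le_card_of_injOn (fun P => ((g P).1, (g P).2, P.eval (g P).2,
      (Polynomial.derivative P).eval (g P).2)) ?_ ?_
    · intro P hP
      have := hg1 P hP
      simp [T, this]
    · intro P1 hP1 P2 hP2 he
      simp only [Prod.mk.injEq] at he
      obtain ⟨ha, hb, hc, hd'⟩ := he
      have hP1' := (Finset.mem_filter.1 (Finset.mem_coe.1 hP1)).1
      have hP2' := (Finset.mem_filter.1 (Finset.mem_coe.1 hP2)).1
      have hs := hg3 P1 hP1
      have h21 := hg2 P1 hP1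
      have h22 := hg2 P2 hP2
      rw [← ha] at h22
      refine inj (Q := Polynomial.derivative^[(g P1).1] Q) (a := (g P1).2) ?_ ?_ h21 h22 hs
        (by rw [hc, hb]) (by rw [hd', hb])
      · have := hF P1 hP1'; omega
      · have := hF P2 hP2'; omega
  calc F.card = _ := hsplit.symm
    _ ≤ k + k * p ^ 3 := add_le_add hA hB
    _ = k * (p ^ 3 + 1) := by ring

/-- the polynomial with the coefficients `c` -/
noncomputable def mkQ {m k : ℕ} (c : Fin m × Fin k × Fin k → K) : K[X][X][X] :=
  ∑ x : Fin m × Fin k × Fin k, Polynomial.monomial (x.2.2 : ℕ) (Polynomial.monomial (x.2.1 : ℕ)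
    (Polynomial.monomial (x.1 : ℕ) (c x)))

theorem mkQ_coeff {m k : ℕ} (c : Fin m × Fin k × Fin k → K) (l j : ℕ) :
    ((mkQ c).coeff l).coeff j = ∑ x : Fin m × Fin k × Fin k,
      if (x.2.2 : ℕ) = l ∧ (x.2.1 : ℕ) = j then Polynomial.monomial (x.1 : ℕ) (c x) else 0 := by
  unfold mkQ
  rw [Polynomial.finsetSum_coeff, Polynomial.finsetSum_coeff]
  refine Finset.sum_congr rfl fun x _ => ?_
  rw [Polynomial.coeff_monomial]
  by_cases h : (x.2.2 : ℕ) = l
  · rw [if_pos h, Polynomial.coeff_monomial]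
    by_cases h2 : (x.2.1 : ℕ) = j
    · rw [if_pos h2, if_pos ⟨h, h2⟩]
    · rw [if_neg h2, if_neg fun h3 => h2 h3.2]
  · rw [if_neg h, if_neg fun h3 => h h3.1, Polynomial.coeff_zero]

theorem mkQ_coeff3 {m k : ℕ} (c : Fin m × Fin k × Fin k → K) (x0 : Fin m × Fin k × Fin k) :
    (((mkQ c).coeff x0.2.2).coeff x0.2.1).coeff x0.1 = c x0 := by
  rw [mkQ_coeff, Polynomial.finsetSum_coeff, Finset.sum_eq_single x0]
  · rw [if_pos ⟨rfl, rfl⟩, Polynomial.coeff_monomial, if_pos rfl]
  · intro x _ hx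
    split_ifs with h
    · rw [Polynomial.coeff_monomial, if_neg]
      intro h1
      apply hx
      ext
      · exact h1
      · exact h.2
      · exact h.1
    · exact Polynomial.coeff_zero _
  · intro h
    exact absurd (Finset.mem_univ _) h

theorem mkQ_ne {m k : ℕ} {c : Fin m × Fin k × Fin k → K} (hc : c ≠ 0) : mkQ c ≠ 0 := by
  intro h
  apply hc
  funext x
  have := mkQ_coeff3 c x
  rw [h] at this
  simpa using this.symm

theorem mkQ_Bd {m k : ℕ} (c : Fin m × Fin k × Fin k → K) : Bd m k (mkQ c) := by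
  intro l j
  refine ⟨?_, ?_, ?_⟩
  · rw [mkQ_coeff, ← Polynomial.mem_degreeLT]
    refine Submodule.sum_mem _ fun x _ => ?_
    split_ifs
    · rw [Polynomial.mem_degreeLT]
      refine lt_of_le_of_lt (Polynomial.degree_monomial_le _ _) ?_
      exact_mod_cast x.1.2
    · exact Submodule.zero_mem _
  · intro hl
    ext1 j'
    rw [mkQ_coeff, Polynomial.coeff_zero]
    refine Finset.sum_eq_zero fun x _ => ?_
    rw [if_neg]
    intro h
    have := x.2.2.2
    omega
  · intro hj
    rw [mkQ_coeff]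
    refine Finset.sum_eq_zero fun x _ => ?_
    rw [if_neg]
    intro h
    have := x.2.1.2
    omega

theorem eval_mkQ {m k : ℕ} (c : Fin m × Fin k × Fin k → K) (P R : K[X]) (a : K) :
    (ev (mkQ c) P R).eval a = ∑ x : Fin m × Fin k × Fin k,
      c x * (a ^ (x.1 : ℕ) * (P.eval a) ^ (x.2.1 : ℕ) * (R.eval a) ^ (x.2.2 : ℕ)) := by
  unfold ev mkQ
  rw [Polynomial.map_sum, Polynomial.eval_finsetSum, Polynomial.eval_finsetSum]
  refine Finset.sum_congr rfl fun x _ => ?_
  simp only [Polynomial.map_monomial, Polynomial.eval_monomial, Polynomial.coe_evalRingHom,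
    Polynomial.eval_mul, Polynomial.eval_pow]
  ring

end A76

open A76 in
/-- (A) helper block A. -/
theorem expansion {p : ℕ} [Fact p.Prime] {d k : ℕ} (hd : 1 ≤ d) (hk : 1 ≤ k)
    (hdk : 4 * d * k ≤ p) (F : Finset (ZMod p)[X]) (hF : ∀ P ∈ F, P.natDegree < d)
    (hcard : k * (p ^ 3 + 1) < F.card) :
    (p - 2 * d * k) * k ^ 2 ≤
      ∑ a : ZMod p, (F.image fun P => (P.eval a, (derivative P).eval a)).card := by
  classical
  by_contra hlt
  push Not at hlt
  let S : Finset (ZMod p × ZMod p × ZMod p) := Finset.univ.biUnion fun a =>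
    (F.image fun P => (P.eval a, (derivative P).eval a)).image fun r => (a, r)
  have hS : S.card < (p - 2 * d * k) * k ^ 2 := by
    refine lt_of_le_of_lt Finset.card_biUnion_le (lt_of_le_of_lt ?_ hlt)
    exact Finset.sum_le_sum fun a _ => Finset.card_image_le
  obtain ⟨c, hc0, hc⟩ := interp (p - 2 * d * k) k S hS
  have hpos := (Fact.out : p.Prime).pos
  have hdk1 : 1 ≤ d * k := Nat.one_le_iff_ne_zero.2 (by positivity)
  have e4 : 4 * d * k = 4 * (d * k) := by ring
  have e2 : 2 * d * k = 2 * (d * k) := by ring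
  have hkp : k ≤ p := by nlinarith
  have hm : 1 ≤ p - 2 * d * k := by omega
  have hmp : p - 2 * d * k + 2 * d * k ≤ p := by omega
  have hsol : ∀ P ∈ F, ev (mkQ c) P (derivative P) = 0 := by
    intro P hP
    have hR : (derivative P).natDegree < d :=
      lt_of_le_of_lt (Polynomial.natDegree_derivative_le P) (by have := hF P hP; omega)
    refine Polynomial.eq_zero_of_natDegree_lt_card_of_eval_eq_zero' _ Finset.univ ?_ ?_
    · intro a _
      rw [eval_mkQ]
      refine hc (a, P.eval a, (derivative P).eval a) ?_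
      simp only [S, Finset.mem_biUnion, Finset.mem_univ, true_and, Finset.mem_image]
      exact ⟨a, _, ⟨P, hP, rfl⟩, rfl⟩
    · rw [Finset.card_univ, ZMod.card]
      exact lt_of_lt_of_le (ev_degree hm hk (mkQ_Bd c) (hF P hP) hR) hmp
  have := few_solutions hm hk hkp hmp (mkQ_Bd c) (mkQ_ne hc0) F hF hsol
  omega

end Pool.Agent.TT
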