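import Pool.Agent.Lib_helper78.TT.Num

set_option autoImplicit false

namespace Pool.Agent.TT
open Polynomial Finset

/-! ## Blocks `collisions` and `density` of helper29 -/

/-- the polynomial of a string over `ZMod p` -/
noncomputable def BP (p : ℕ) : List Bool → (ZMod p)[X]
  | [] => 0
  | b :: y => C (if b = true then 1 else 0) + X * BP p y

theorem bb_cast (p t : ℕ) (y : List Bool) :
    (((bb p t y).1 : ℕ) : ZMod p) = (BP p y).eval (t : ZMod p) ∧
      (((bb p t y).2 : ℕ) : ZMod p) = (derivative (BP p y)).eval (t : ZMod p) := by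
  induction y with
  | nil => simp [bb, BP]
  | cons b y ih =>
    obtain ⟨h1, h2⟩ := ih
    constructor
    · cases b <;> simp [bb, BP, ← h1]
    · cases b <;> simp [bb, BP, ← h1, ← h2]

theorem BP_natDegree (p : ℕ) (y : List Bool) (hy : 0 < y.length) :
    (BP p y).natDegree < y.length := by
  induction y with
  | nil => simp at hy
  | cons b y ih =>
    rcases Nat.eq_zero_or_pos y.length with h0 | h0
    · have : y = [] := List.length_eq_zero_iff.mp h0
      subst this
      cases b <;> simp [BP]
    · have h := ih h0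
      have h1 : (X * BP p y).natDegree ≤ y.length := by
        refine le_trans natDegree_mul_le ?_
        have := natDegree_X_le (R := ZMod p)
        omega
      have h2 : (BP p (b :: y)).natDegree ≤ y.length := by
        unfold BP
        refine le_trans (natDegree_add_le _ _) ?_
        rw [natDegree_C]
        exact max_le (Nat.zero_le _) h1
      simp only [List.length_cons]
      omega

theorem BP_coeff (p : ℕ) (y : List Bool) (j : ℕ) :
    (BP p y).coeff j = if y.getD j false = true then 1 else 0 := by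
  induction y generalizing j with
  | nil => simp [BP]
  | cons b y ih =>
    cases j with
    | zero => cases b <;> simp [BP]
    | succ j =>
      simp only [BP, coeff_add, coeff_C_succ, coeff_X_mul, zero_add, ih, List.getD_cons_succ]

theorem BP_injective {p : ℕ} (hp : 1 < p) {y y' : List Bool} (hl : y.length = y'.length)
    (h : BP p y = BP p y') : y = y' := by
  have : Fact (1 < p) := ⟨hp⟩
  apply List.ext_getElem hl
  intro j h1 h2
  have h3 := congrArg (fun P => coeff P j) h
  simp only [BP_coeff] at h3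
  have e1 : y.getD j false = y[j] := by simp [h1]
  have e2 : y'.getD j false = y'[j] := by simp [h2]
  rw [e1, e2] at h3
  cases hb : y[j] <;> cases hb' : y'[j] <;> simp_all

theorem hv_cast (p : ℕ) (s : ℕ × ℕ × ℕ × ℕ × ℕ × ℕ) (a : ℕ) (y : List Bool) :
    (((hv p s a y).1 : ℕ) : ZMod p) =
        (a : ZMod p) * a * (BP p y).eval (a : ZMod p)
          + (s.2.2.2.2.1 * (BP p y).eval (s.1 : ZMod p)
              + s.2.2.2.2.2 * (BP p y).eval (s.2.1 : ZMod p)) * a
          + (s.2.2.1 * (BP p y).eval (s.1 : ZMod p)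
              + s.2.2.2.1 * (BP p y).eval (s.2.1 : ZMod p)) ∧
      (((hv p s a y).2 : ℕ) : ZMod p) =
        2 * (a : ZMod p) * (BP p y).eval (a : ZMod p)
          + (a : ZMod p) * a * (derivative (BP p y)).eval (a : ZMod p)
          + (s.2.2.2.2.1 * (BP p y).eval (s.1 : ZMod p)
              + s.2.2.2.2.2 * (BP p y).eval (s.2.1 : ZMod p)) := by
  obtain ⟨t1, t2, c1, c2, e1, e2⟩ := s
  have h1 := (bb_cast p t1 y).1
  have h2 := (bb_cast p t2 y).1
  have h3 := bb_cast p a y
  simp only [hv, ZMod.natCast_mod, Nat.cast_add, Nat.cast_mul, Nat.cast_ofNat, h1, h2, h3.1, h3.2]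
  constructor <;> trivial

/-- in a field: two linear equations determine the two coefficients in front of a nonzero value -/
theorem lin_unique {K : Type} [Field K] {d x x' r : K} (hd : d ≠ 0) (h : x * d + r = 0)
    (h' : x' * d + r = 0) : x = x' := by
  have h1 : (x - x') * d = 0 := by linear_combination h - h'
  rcases mul_eq_zero.mp h1 with h2 | h2
  · exact sub_eq_zero.mp h2
  · exact absurd h2 hd

theorem cast_inj_of_lt {p x y : ℕ} (hx : x < p) (hy : y < p) (h : (x : ZMod p) = (y : ZMod p)) :
    x = y := by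
  rw [ZMod.natCast_eq_natCast_iff'] at h
  rwa [Nat.mod_eq_of_lt hx, Nat.mod_eq_of_lt hy] at h

/-- the two equations behind a collision -/
theorem collision_eqs {p : ℕ} (s : ℕ × ℕ × ℕ × ℕ × ℕ × ℕ) (a : ℕ) (y y' : List Bool)
    (h : hv p s a y = hv p s a y') :
    ((s.2.2.2.2.1 : ZMod p) * (BP p y - BP p y').eval (s.1 : ZMod p)
        + s.2.2.2.2.2 * (BP p y - BP p y').eval (s.2.1 : ZMod p)
        + (2 * (a : ZMod p) * (BP p y - BP p y').eval (a : ZMod p)
          + (a : ZMod p) * a * (derivative (BP p y - BP p y')).eval (a : ZMod p)) = 0) ∧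
      ((s.2.2.1 : ZMod p) * (BP p y - BP p y').eval (s.1 : ZMod p)
        + s.2.2.2.1 * (BP p y - BP p y').eval (s.2.1 : ZMod p)
        + ((a : ZMod p) * a * (BP p y - BP p y').eval (a : ZMod p)
          - (2 * (a : ZMod p) * (BP p y - BP p y').eval (a : ZMod p)
          + (a : ZMod p) * a * (derivative (BP p y - BP p y')).eval (a : ZMod p)) * a) = 0) := by
  have h1 := hv_cast p s a y
  have h2 := hv_cast p s a y'
  rw [h] at h1
  have e1 := h1.1.symm.trans h2.1
  have e2 := h1.2.symm.trans h2.2
  simp only [eval_sub, derivative_sub]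
  constructor
  · linear_combination e2
  · linear_combination e1 - (a : ZMod p) * e2

/-- (B1) -/
theorem collisions {p N : ℕ} (hp : p.Prime) {y y' : List Bool} (hy : y.length = N)
    (hy' : y'.length = N) (hne : y ≠ y') (a : ℕ) :
    ((range p ×ˢ range p ×ˢ range p ×ˢ range p ×ˢ range p ×ˢ range p).filter
      fun s => hv p s a y = hv p s a y').card ≤ p ^ 4 * (N ^ 2 + 1) := by
  classical
  have : Fact p.Prime := ⟨hp⟩
  have hN : 0 < N := by
    rcases Nat.eq_zero_or_pos N with h | h
    · exfalso
      apply hne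
      rw [h] at hy hy'
      rw [List.length_eq_zero_iff.mp hy, List.length_eq_zero_iff.mp hy']
    · exact h
  set D : (ZMod p)[X] := BP p y - BP p y' with hD
  have hD0 : D ≠ 0 := by
    intro h
    exact hne (BP_injective hp.one_lt (hy.trans hy'.symm) (sub_eq_zero.mp h))
  have hDd : D.natDegree < N := by
    have h1 := BP_natDegree p y (by omega)
    have h2 := BP_natDegree p y' (by omega)
    have h3 := natDegree_sub_le (BP p y) (BP p y')
    rw [← hD] at h3
    have := max_lt (hy ▸ h1) (hy' ▸ h2)
    omega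
  -- the zeros of D
  set Z : Finset ℕ := (range p).filter fun t => D.eval (t : ZMod p) = 0 with hZ
  have hZc : Z.card ≤ N := by
    have h1 : Z.card ≤ D.roots.toFinset.card := by
      apply Finset.card_le_card_of_injOn (fun t : ℕ => (t : ZMod p))
      · intro t ht
        have ht' := Finset.mem_filter.mp (Finset.mem_coe.mp ht)
        simp only [Finset.mem_coe, Multiset.mem_toFinset]
        rw [mem_roots hD0]
        exact ht'.2
      · intro t ht t' ht' htt
        have h1 := Finset.mem_filter.mp (Finset.mem_coe.mp ht)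
        have h2 := Finset.mem_filter.mp (Finset.mem_coe.mp ht')
        exact cast_inj_of_lt (Finset.mem_range.mp h1.1) (Finset.mem_range.mp h2.1) htt
    have h2 := Multiset.toFinset_card_le D.roots
    have h3 := card_roots' D
    omega
  set S : Finset (ℕ × ℕ × ℕ × ℕ × ℕ × ℕ) :=
    (range p ×ˢ range p ×ˢ range p ×ˢ range p ×ˢ range p ×ˢ range p).filter
      fun s => hv p s a y = hv p s a y' with hS
  have hmem : ∀ s ∈ S, s.1 < p ∧ s.2.1 < p ∧ s.2.2.1 < p ∧ s.2.2.2.1 < p ∧ s.2.2.2.2.1 < p ∧
      s.2.2.2.2.2 < p ∧ hv p s a y = hv p s a y' := by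
    intro s hs
    rw [hS, Finset.mem_filter] at hs
    simp only [Finset.mem_product, Finset.mem_range] at hs
    tauto
  -- part 1: both values zero
  have hS1 : (S.filter fun s => s.1 ∈ Z ∧ s.2.1 ∈ Z).card ≤ N ^ 2 * p ^ 4 := by
    have h1 : (S.filter fun s => s.1 ∈ Z ∧ s.2.1 ∈ Z) ⊆
        Z ×ˢ Z ×ˢ range p ×ˢ range p ×ˢ range p ×ˢ range p := by
      intro s hs
      obtain ⟨hs1, hs2⟩ := Finset.mem_filter.mp hs
      have h := hmem s hs1
      simp only [Finset.mem_product, Finset.mem_range]
      exact ⟨hs2.1, hs2.2, h.2.2.1, h.2.2.2.1, h.2.2.2.2.1, h.2.2.2.2.2.1⟩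
    refine le_trans (Finset.card_le_card h1) ?_
    simp only [Finset.card_product, Finset.card_range]
    calc Z.card * (Z.card * (p * (p * (p * p)))) = Z.card ^ 2 * p ^ 4 := by ring
      _ ≤ N ^ 2 * p ^ 4 := Nat.mul_le_mul_right _ (Nat.pow_le_pow_left hZc 2)
  -- part 2: one value nonzero
  have hS2 : (S.filter fun s => ¬ (s.1 ∈ Z ∧ s.2.1 ∈ Z)).card ≤ p ^ 4 := by
    have hT : (range p ×ˢ range p ×ˢ range p ×ˢ range p).card = p ^ 4 := by
      simp only [Finset.card_product, Finset.card_range]
      ring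
    rw [← hT]
    apply Finset.card_le_card_of_injOn
      (fun s => if s.1 ∈ Z then (s.1, s.2.1, s.2.2.1, s.2.2.2.2.1)
        else (s.1, s.2.1, s.2.2.2.1, s.2.2.2.2.2))
    · intro s hs
      obtain ⟨hs1, hs2⟩ := Finset.mem_filter.mp (Finset.mem_coe.mp hs)
      have h := hmem s hs1
      simp only [Finset.mem_coe]
      split_ifs
      · simp only [Finset.mem_product, Finset.mem_range]
        exact ⟨h.1, h.2.1, h.2.2.1, h.2.2.2.2.1⟩
      · simp only [Finset.mem_product, Finset.mem_range]
        exact ⟨h.1, h.2.1, h.2.2.2.1, h.2.2.2.2.2.1⟩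
    · intro s hs r hr hsr
      obtain ⟨hs1, hs2⟩ := Finset.mem_filter.mp (Finset.mem_coe.mp hs)
      obtain ⟨hr1, hr2⟩ := Finset.mem_filter.mp (Finset.mem_coe.mp hr)
      have h := hmem s hs1
      have h' := hmem r hr1
      have q := collision_eqs s a y y' h.2.2.2.2.2.2
      have q' := collision_eqs r a y y' h'.2.2.2.2.2.2
      obtain ⟨t1, t2, c1, c2, e1, e2⟩ := s
      obtain ⟨t1', t2', c1', c2', e1', e2'⟩ := r
      simp only at hsr h h' q q' hs2 hr2
      rw [← hD] at q q'
      by_cases hz : t1 ∈ Z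
      · have hz2 : t2 ∉ Z := fun h2 => hs2 ⟨hz, h2⟩
        by_cases hz' : t1' ∈ Z
        · simp only [hz, hz', if_true, Prod.mk.injEq] at hsr
          obtain ⟨k1, k2, k3, k4⟩ := hsr
          subst k1 k2 k3 k4
          have hd : D.eval (t2 : ZMod p) ≠ 0 := by
            intro h0
            apply hz2
            rw [hZ, Finset.mem_filter, Finset.mem_range]
            exact ⟨h.2.1, h0⟩
          have u1 : (e2 : ZMod p) = e2' := by
            apply lin_unique hd (r := (e1 : ZMod p) * D.eval (t1 : ZMod p)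
              + (2 * (a : ZMod p) * D.eval (a : ZMod p)
                + (a : ZMod p) * a * (derivative D).eval (a : ZMod p)))
            · linear_combination q.1
            · linear_combination q'.1
          have u2 : (c2 : ZMod p) = c2' := by
            apply lin_unique hd (r := (c1 : ZMod p) * D.eval (t1 : ZMod p)
              + ((a : ZMod p) * a * D.eval (a : ZMod p)
                - (2 * (a : ZMod p) * D.eval (a : ZMod p)
                  + (a : ZMod p) * a * (derivative D).eval (a : ZMod p)) * a))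
            · linear_combination q.2
            · linear_combination q'.2
          have w1 := cast_inj_of_lt h.2.2.2.2.2.1 h'.2.2.2.2.2.1 u1
          have w2 := cast_inj_of_lt h.2.2.2.1 h'.2.2.2.1 u2
          rw [w1, w2]
        · simp only [hz, hz', if_true, if_false, Prod.mk.injEq] at hsr
          exact absurd (hsr.1 ▸ hz) hz'
      · by_cases hz' : t1' ∈ Z
        · simp only [hz, hz', if_true, if_false, Prod.mk.injEq] at hsr
          exact absurd (hsr.1 ▸ hz') hz
        · simp only [hz, hz', if_false, Prod.mk.injEq] at hsr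
          obtain ⟨k1, k2, k3, k4⟩ := hsr
          subst k1 k2 k3 k4
          have hd : D.eval (t1 : ZMod p) ≠ 0 := by
            intro h0
            apply hz
            rw [hZ, Finset.mem_filter, Finset.mem_range]
            exact ⟨h.1, h0⟩
          have u1 : (e1 : ZMod p) = e1' := by
            apply lin_unique hd (r := (e2 : ZMod p) * D.eval (t2 : ZMod p)
              + (2 * (a : ZMod p) * D.eval (a : ZMod p)
                + (a : ZMod p) * a * (derivative D).eval (a : ZMod p)))
            · linear_combination q.1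
            · linear_combination q'.1
          have u2 : (c1 : ZMod p) = c1' := by
            apply lin_unique hd (r := (c2 : ZMod p) * D.eval (t2 : ZMod p)
              + ((a : ZMod p) * a * D.eval (a : ZMod p)
                - (2 * (a : ZMod p) * D.eval (a : ZMod p)
                  + (a : ZMod p) * a * (derivative D).eval (a : ZMod p)) * a))
            · linear_combination q.2
            · linear_combination q'.2
          have w1 := cast_inj_of_lt h.2.2.2.2.1 h'.2.2.2.2.1 u1
          have w2 := cast_inj_of_lt h.2.2.1 h'.2.2.1 u2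
          rw [w1, w2]
  have hsum := Finset.card_filter_add_card_filter_not (s := S) (fun s => s.1 ∈ Z ∧ s.2.1 ∈ Z)
  calc S.card = (S.filter fun s => s.1 ∈ Z ∧ s.2.1 ∈ Z).card
        + (S.filter fun s => ¬ (s.1 ∈ Z ∧ s.2.1 ∈ Z)).card := hsum.symm
    _ ≤ N ^ 2 * p ^ 4 + p ^ 4 := Nat.add_le_add hS1 hS2
    _ = p ^ 4 * (N ^ 2 + 1) := by ring

/-- the polynomial of the level `s` -/
noncomputable def PP (p : ℕ) (s : ℕ × ℕ × ℕ × ℕ × ℕ × ℕ) (y : List Bool) : (ZMod p)[X] :=
  BP p y * X ^ 2
    + (C (s.2.2.2.2.1 * (BP p y).eval (s.1 : ZMod p)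
        + s.2.2.2.2.2 * (BP p y).eval (s.2.1 : ZMod p)) * X
      + C (s.2.2.1 * (BP p y).eval (s.1 : ZMod p)
        + s.2.2.2.1 * (BP p y).eval (s.2.1 : ZMod p)))

theorem PP_eval {p : ℕ} (s : ℕ × ℕ × ℕ × ℕ × ℕ × ℕ) (y : List Bool) (a : ℕ) :
    (PP p s y).eval (a : ZMod p) = (((hv p s a y).1 : ℕ) : ZMod p) ∧
      (derivative (PP p s y)).eval (a : ZMod p) = (((hv p s a y).2 : ℕ) : ZMod p) := by
  have h := hv_cast p s a y
  rw [h.1, h.2]
  simp only [PP, eval_add, eval_mul, eval_pow, eval_X, eval_C, derivative_add, derivative_mul,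
    derivative_X_pow, derivative_C, derivative_X]
  constructor
  · ring
  · simp only [Nat.cast_ofNat, eval_zero, eval_one]
    ring

theorem PP_natDegree {p N : ℕ} (s : ℕ × ℕ × ℕ × ℕ × ℕ × ℕ) (y : List Bool)
    (hy : y.length = N) : (PP p s y).natDegree < N + 2 := by
  have h1 : ((BP p y) * X ^ 2).natDegree < N + 2 := by
    rcases Nat.eq_zero_or_pos N with h0 | h0
    · have : y = [] := List.length_eq_zero_iff.mp (hy.trans h0)
      subst this
      simp [BP]
    · have h2 := BP_natDegree p y (by omega)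
      have h3 : ((BP p y) * X ^ 2).natDegree ≤ (BP p y).natDegree + 2 := by
        refine le_trans natDegree_mul_le ?_
        exact Nat.add_le_add_left (natDegree_X_pow_le 2) _
      omega
  have h4 : ∀ u v : ZMod p, (C u * X + C v).natDegree < N + 2 := by
    intro u v
    have := natDegree_linear_le (a := u) (b := v)
    omega
  unfold PP
  have h5 := natDegree_add_le (BP p y * X ^ 2)
    (C (s.2.2.2.2.1 * (BP p y).eval (s.1 : ZMod p)
        + s.2.2.2.2.2 * (BP p y).eval (s.2.1 : ZMod p)) * X
      + C (s.2.2.1 * (BP p y).eval (s.1 : ZMod p)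
        + s.2.2.2.1 * (BP p y).eval (s.2.1 : ZMod p)))
  exact lt_of_le_of_lt h5 (max_lt h1 (h4 _ _))

theorem PP_coeff {p : ℕ} (s : ℕ × ℕ × ℕ × ℕ × ℕ × ℕ) (y : List Bool) (j : ℕ) :
    (PP p s y).coeff (j + 2) = (BP p y).coeff j := by
  have h : ∀ u v : ZMod p, (C u * X + C v).coeff (j + 2) = 0 := by
    intro u v
    rw [coeff_add, coeff_C_mul, coeff_X_of_ne_one (by omega), coeff_C_of_ne_zero (by omega)]
    simp
  unfold PP
  rw [coeff_add, coeff_mul_X_pow, h, add_zero]

theorem PP_injective {p : ℕ} (hp : 1 < p) (s : ℕ × ℕ × ℕ × ℕ × ℕ × ℕ) {y y' : List Bool}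
    (hl : y.length = y'.length) (h : PP p s y = PP p s y') : y = y' := by
  apply BP_injective hp hl
  ext j
  have := congrArg (fun P => coeff P (j + 2)) h
  simpa only [PP_coeff] using this

/-- (A2) from (A) -/
theorem density_of {p N : ℕ} [Fact p.Prime]
    (hexp : ∀ {d k : ℕ}, 1 ≤ d → 1 ≤ k → 4 * d * k ≤ p → ∀ F : Finset (ZMod p)[X],
      (∀ P ∈ F, P.natDegree < d) → k * (p ^ 3 + 1) < F.card →
      (p - 2 * d * k) * k ^ 2 ≤
        ∑ a : ZMod p, (F.image fun P => (P.eval a, (derivative P).eval a)).card)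
    (hN : 4 * (N + 2) ≤ p) (s : ℕ × ℕ × ℕ × ℕ × ℕ × ℕ)
    (W : Finset (List Bool)) (hW : ∀ y ∈ W, y.length = N) (hcard : p ^ 4 < W.card) :
    p ^ 3 ≤ 128 * (N + 2) ^ 2 * ((range p ×ˢ range p ×ˢ range p).filter
      fun q => ∃ y ∈ W, hv p s q.1 y = q.2).card := by
  classical
  have hp : p.Prime := Fact.out
  set d := N + 2 with hd
  set k := p / (4 * d) with hk
  have hk1 : 1 ≤ k := (Nat.one_le_div_iff (by omega)).mpr hN
  have hdk : 4 * d * k ≤ p := Nat.mul_div_le p (4 * d)
  have hlt : p < 4 * d * (k + 1) := by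
    rw [hk]
    exact Nat.lt_mul_div_succ p (by omega)
  set F : Finset (ZMod p)[X] := W.image (PP p s) with hF
  have hFc : F.card = W.card := by
    apply Finset.card_image_of_injOn
    intro y hy y' hy' h
    exact PP_injective hp.one_lt s ((hW y hy).trans (hW y' hy').symm) h
  have hFd : ∀ P ∈ F, P.natDegree < d := by
    intro P hP
    obtain ⟨y, hy, rfl⟩ := Finset.mem_image.mp hP
    exact PP_natDegree s y (hW y hy)
  have hkp : k * (p ^ 3 + 1) ≤ p ^ 4 := by
    have h1 : 2 * k ≤ p := by nlinarith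
    have h2 : 1 ≤ p ^ 3 := Nat.one_le_pow _ _ hp.pos
    calc k * (p ^ 3 + 1) ≤ k * (p ^ 3 + p ^ 3) := Nat.mul_le_mul_left _ (by omega)
      _ = (2 * k) * p ^ 3 := by ring
      _ ≤ p * p ^ 3 := Nat.mul_le_mul_right _ h1
      _ = p ^ 4 := by ring
  have hE := hexp (d := d) (k := k) (by omega) hk1 hdk F hFd (by omega)
  set T := (range p ×ˢ range p ×ˢ range p).filter fun q => ∃ y ∈ W, hv p s q.1 y = q.2 with hT
  have hsum : ∑ a : ZMod p, (F.image fun P => (P.eval a, (derivative P).eval a)).card ≤
      T.card := by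
    rw [← Finset.card_sigma]
    apply Finset.card_le_card_of_injOn
      (fun x : (_ : ZMod p) × (ZMod p × ZMod p) => (x.1.val, x.2.1.val, x.2.2.val))
    · intro x hx
      obtain ⟨a, b, c⟩ := x
      have hx' := Finset.mem_sigma.mp (Finset.mem_coe.mp hx)
      obtain ⟨P, hP, hPx⟩ := Finset.mem_image.mp hx'.2
      obtain ⟨y, hy, rfl⟩ := Finset.mem_image.mp hP
      simp only [Prod.mk.injEq] at hPx
      have hca : ((a.val : ℕ) : ZMod p) = a := ZMod.natCast_zmod_val a
      have h1 := PP_eval (p := p) s y a.val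
      rw [hca] at h1
      rw [Finset.mem_coe, hT, Finset.mem_filter]
      refine ⟨?_, y, hy, ?_⟩
      · simp only [Finset.mem_product, Finset.mem_range]
        exact ⟨ZMod.val_lt _, ZMod.val_lt _, ZMod.val_lt _⟩
      · have e1 : (hv p s a.val y).1 = b.val := by
          rw [← hPx.1, h1.1, ZMod.val_natCast, Nat.mod_eq_of_lt]
          simp only [hv]
          exact Nat.mod_lt _ hp.pos
        have e2 : (hv p s a.val y).2 = c.val := by
          rw [← hPx.2, h1.2, ZMod.val_natCast, Nat.mod_eq_of_lt]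
          simp only [hv]
          exact Nat.mod_lt _ hp.pos
        exact Prod.ext e1 e2
    · intro x hx x' hx' h
      obtain ⟨a, b, c⟩ := x
      obtain ⟨a', b', c'⟩ := x'
      simp only [Prod.mk.injEq] at h
      have h1 := ZMod.val_injective p h.1
      have h2 := ZMod.val_injective p h.2.1
      have h3 := ZMod.val_injective p h.2.2
      subst h1 h2 h3
      rfl
  have hM : (p - 2 * d * k) * k ^ 2 ≤ T.card := le_trans hE hsum
  have h8 : p ≤ 8 * d * k := by nlinarith
  have h2 : p ≤ 2 * (p - 2 * d * k) := by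
    have : 4 * d * k = 2 * (2 * d * k) := by ring
    omega
  calc p ^ 3 = p * p ^ 2 := by ring
    _ ≤ (2 * (p - 2 * d * k)) * (8 * d * k) ^ 2 :=
        Nat.mul_le_mul h2 (Nat.pow_le_pow_left h8 2)
    _ = 128 * d ^ 2 * ((p - 2 * d * k) * k ^ 2) := by ring
    _ ≤ 128 * d ^ 2 * T.card := Nat.mul_le_mul_left _ hM

end Pool.Agent.TT
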