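import Pool.Agent.Lib_helper78.TT.Num

/-!
# The greedy cover (MP_5d94c0_lc)

Few places hit all vectors of length `K` with at least `K / D` ones.
-/

set_option autoImplicit false

namespace Pool.Agent.TT

theorem cover_length {K h : ℕ} (V : List (List Bool)) : (cover K h V).length = h := by
  induction h generalizing V with
  | zero => rfl
  | succ h ih => simp [cover, ih]

/-- the fold in `best` returns an element with the largest count -/
theorem fold_spec (V : List (List Bool)) (l : List ℕ) (b : ℕ) :
    (l.foldl (fun b j => if cnt V b < cnt V j then j else b) b ∈ b :: l) ∧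
      ∀ x ∈ b :: l,
        cnt V x ≤ cnt V (l.foldl (fun b j => if cnt V b < cnt V j then j else b) b) := by
  induction l generalizing b with
  | nil => simp
  | cons j l ih =>
    rw [List.foldl_cons]
    by_cases h : cnt V b < cnt V j
    · rw [if_pos h]
      obtain ⟨h1, h2⟩ := ih j
      refine ⟨List.mem_cons_of_mem _ h1, fun x hx => ?_⟩
      rcases List.mem_cons.1 hx with rfl | hx
      · exact h.le.trans (h2 j (List.mem_cons_self ..))
      · exact h2 x hx
    · rw [if_neg h]
      obtain ⟨h1, h2⟩ := ih b
      refine ⟨?_, fun x hx => ?_⟩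
      · rcases List.mem_cons.1 h1 with h1 | h1
        · rw [h1]; exact List.mem_cons_self ..
        · exact List.mem_cons_of_mem _ (List.mem_cons_of_mem _ h1)
      · rcases List.mem_cons.1 hx with rfl | hx
        · exact h2 x (List.mem_cons_self ..)
        · rcases List.mem_cons.1 hx with rfl | hx
          · exact (not_lt.1 h).trans (h2 b (List.mem_cons_self ..))
          · exact h2 x (List.mem_cons_of_mem _ hx)

theorem best_lt {K : ℕ} (hK : 0 < K) (V : List (List Bool)) : best K V < K := by
  rcases List.mem_cons.1 (fold_spec V (List.range K) 0).1 with h | h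
  · have h' : best K V = 0 := h
    rw [h']; exact hK
  · exact List.mem_range.1 h

theorem cnt_le_best {K : ℕ} (V : List (List Bool)) {j : ℕ} (hj : j < K) :
    cnt V j ≤ cnt V (best K V) :=
  (fold_spec V (List.range K) 0).2 j (List.mem_cons_of_mem _ (List.mem_range.2 hj))

theorem cover_lt {K h : ℕ} (hK : 0 < K) (V : List (List Bool)) : ∀ j ∈ cover K h V, j < K := by
  induction h generalizing V with
  | zero => simp [cover]
  | succ h ih =>
    intro j hj
    rcases List.mem_cons.1 hj with rfl | hj
    · exact best_lt hK V
    · exact ih _ j hj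

/-- the number of ones of a vector, place by place -/
theorem count_eq_sum (v : List Bool) :
    v.count true = ∑ j ∈ Finset.range v.length, if v.getD j false = true then 1 else 0 := by
  induction v with
  | nil => simp
  | cons b v ih =>
    rw [List.length_cons, Finset.sum_range_succ', List.count_cons, ih]
    simp

/-- the number of ones of all vectors, place by place -/
theorem sum_count {K : ℕ} (V : List (List Bool)) (hlen : ∀ v ∈ V, v.length = K) :
    (V.map fun v => v.count true).sum = ∑ j ∈ Finset.range K, cnt V j := by
  induction V with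
  | nil => simp [cnt]
  | cons v V ih =>
    rw [List.map_cons, List.sum_cons, ih fun w hw => hlen w (List.mem_cons_of_mem _ hw),
      count_eq_sum, hlen v (List.mem_cons_self ..), ← Finset.sum_add_distrib]
    refine Finset.sum_congr rfl fun j _ => ?_
    unfold cnt
    rw [List.filter_cons]
    split_ifs with h <;> simp [add_comm]

/-- the best place has many ones -/
theorem best_many {K D : ℕ} (V : List (List Bool)) (hK : 0 < K)
    (hlen : ∀ v ∈ V, v.length = K) (hV : ∀ v ∈ V, K ≤ D * v.count true) :
    V.length ≤ D * cnt V (best K V) := by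
  have h1 : K * V.length ≤ D * (V.map fun v => v.count true).sum := by
    clear hlen
    induction V with
    | nil => simp
    | cons v V ih =>
      rw [List.length_cons, List.map_cons, List.sum_cons, mul_add, mul_add, mul_one]
      have := ih fun w hw => hV w (List.mem_cons_of_mem _ hw)
      have := hV v (List.mem_cons_self ..)
      omega
  have h2 : ∑ j ∈ Finset.range K, cnt V j ≤ K * cnt V (best K V) := by
    calc ∑ j ∈ Finset.range K, cnt V j ≤ ∑ _j ∈ Finset.range K, cnt V (best K V) :=
          Finset.sum_le_sum fun j hj => cnt_le_best V (Finset.mem_range.1 hj)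
      _ = K * cnt V (best K V) := by simp
  rw [sum_count V hlen] at h1
  refine Nat.le_of_mul_le_mul_left ?_ hK
  calc K * V.length ≤ D * ∑ j ∈ Finset.range K, cnt V j := h1
    _ ≤ D * (K * cnt V (best K V)) := Nat.mul_le_mul_left _ h2
    _ = K * (D * cnt V (best K V)) := by ring

/-- the vectors that are not hit by the first `h` places -/
def rest (K : ℕ) : ℕ → List (List Bool) → List (List Bool)
  | 0, V => V
  | h + 1, V => rest K h (V.filter fun v => !v.getD (best K V) false)

theorem mem_rest {K : ℕ} (h : ℕ) (V : List (List Bool)) {v : List Bool} (hv : v ∈ V)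
    (hn : ∀ j ∈ cover K h V, v.getD j false = false) : v ∈ rest K h V := by
  induction h generalizing V with
  | zero => exact hv
  | succ h ih =>
    refine ih _ ?_ fun j hj => hn j (List.mem_cons_of_mem _ hj)
    refine List.mem_filter.2 ⟨hv, ?_⟩
    rw [hn _ (List.mem_cons_self ..)]
    rfl

theorem length_filter_add (V : List (List Bool)) (j : ℕ) :
    (V.filter fun v => !v.getD j false).length + cnt V j = V.length := by
  induction V with
  | nil => rfl
  | cons v V ih =>
    unfold cnt at ih ⊢
    rw [List.filter_cons, List.filter_cons]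
    cases hb : v.getD j false with
    | true => rw [if_neg (by simp), if_pos rfl, List.length_cons, List.length_cons]; omega
    | false => rw [if_pos (by simp), if_neg (by simp), List.length_cons, List.length_cons]; omega

theorem rest_length {K D : ℕ} (hK : 0 < K) (h : ℕ) (V : List (List Bool))
    (hlen : ∀ v ∈ V, v.length = K) (hV : ∀ v ∈ V, K ≤ D * v.count true) :
    D ^ h * (rest K h V).length ≤ (D - 1) ^ h * V.length := by
  induction h generalizing V with
  | zero => simp [rest]
  | succ h ih =>
    have h1 := ih (V.filter fun v => !v.getD (best K V) false)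
      (fun v hv => hlen v (List.mem_of_mem_filter hv)) fun v hv => hV v (List.mem_of_mem_filter hv)
    have h2 := best_many V hK hlen hV
    have h3 := length_filter_add V (best K V)
    have h4 : D * (V.filter fun v => !v.getD (best K V) false).length ≤ (D - 1) * V.length := by
      rcases D with _ | D
      · simp
      · rw [Nat.add_sub_cancel]
        rw [← h3] at h2 ⊢
        nlinarith
    calc D ^ (h + 1) * (rest K (h + 1) V).length
        = D * (D ^ h * (rest K h (V.filter fun v => !v.getD (best K V) false)).length) := by
          rw [pow_succ]; simp only [rest]; ring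
      _ ≤ D * ((D - 1) ^ h * (V.filter fun v => !v.getD (best K V) false).length) :=
          Nat.mul_le_mul_left _ h1
      _ = (D - 1) ^ h * (D * (V.filter fun v => !v.getD (best K V) false).length) := by ring
      _ ≤ (D - 1) ^ h * ((D - 1) * V.length) := Nat.mul_le_mul_left _ h4
      _ = (D - 1) ^ (h + 1) * V.length := by rw [pow_succ]; ring

theorem two_mul_pred_pow_le {D : ℕ} (hD : 0 < D) : 2 * (D - 1) ^ D ≤ D ^ D := by
  obtain ⟨d, rfl⟩ : ∃ d, D = d + 1 := ⟨D - 1, by omega⟩
  rw [Nat.add_sub_cancel]
  have key : ∀ n : ℕ, d ^ n * (d + n) ≤ d * (d + 1) ^ n := by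
    intro n
    induction n with
    | zero => simp [mul_comm]
    | succ n ih =>
      calc d ^ (n + 1) * (d + (n + 1)) = d ^ n * (d * (d + n) + d) := by ring
        _ ≤ d ^ n * ((d + n) * (d + 1)) := Nat.mul_le_mul_left _ (by nlinarith)
        _ = (d ^ n * (d + n)) * (d + 1) := by ring
        _ ≤ (d * (d + 1) ^ n) * (d + 1) := Nat.mul_le_mul_right _ ih
        _ = d * (d + 1) ^ (n + 1) := by ring
  rcases Nat.eq_zero_or_pos d with rfl | hd
  · simp
  · have := key (d + 1)
    have h2 : d * (2 * d ^ (d + 1)) ≤ d * (d + 1) ^ (d + 1) := by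
      calc d * (2 * d ^ (d + 1)) = d ^ (d + 1) * (2 * d) := by ring
        _ ≤ d ^ (d + 1) * (d + (d + 1)) := Nat.mul_le_mul_left _ (by omega)
        _ ≤ _ := this
    exact Nat.le_of_mul_le_mul_left h2 hd

/-- (C) -/
theorem cover_hits {K D l : ℕ} (V : List (List Bool)) (hK : 0 < K) (hD : 0 < D)
    (hlen : ∀ v ∈ V, v.length = K) (hV : ∀ v ∈ V, K ≤ D * v.count true)
    (hl : V.length < 2 ^ l) :
    ∀ v ∈ V, ∃ j ∈ cover K (D * l) V, v.getD j false = true := by
  intro v hv
  by_contra hno
  have hno := not_exists.1 hno
  have hmem := mem_rest (K := K) (D * l) V hv fun j hj => by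
    simpa using fun h => hno j ⟨hj, h⟩
  have h1 := rest_length hK (D * l) V hlen hV
  have hpos : 0 < (rest K (D * l) V).length := List.length_pos_of_mem hmem
  rcases Nat.eq_zero_or_pos (D - 1) with h0 | h0
  · have hD1 : D = 1 := by omega
    subst hD1
    rcases Nat.eq_zero_or_pos l with rfl | hl'
    · simp at hl
      subst hl
      simp at hv
    · rw [show (1 : ℕ) - 1 = 0 from rfl, zero_pow (by omega), one_pow, zero_mul, one_mul] at h1
      omega
  · have h2 : (D - 1) ^ (D * l) * V.length < (D - 1) ^ (D * l) * 2 ^ l :=
      Nat.mul_lt_mul_of_pos_left hl (pow_pos h0 _)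
    have h3 : (D - 1) ^ (D * l) * 2 ^ l ≤ D ^ (D * l) := by
      rw [pow_mul, pow_mul, ← mul_pow, mul_comm]
      exact Nat.pow_le_pow_left (two_mul_pred_pow_le hD) l
    have h4 : D ^ (D * l) ≤ D ^ (D * l) * (rest K (D * l) V).length :=
      Nat.le_mul_of_pos_right _ hpos
    omega

end Pool.Agent.TT
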