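import Pool.Agent.Lib_helper78.TT.Num

/-!
# The polynomial of a string (MP_5d94c0_lc)
-/

set_option autoImplicit false

namespace Pool.Agent.TT.Iso

open Polynomial Finset

/-- the polynomial `B_y` modulo `p` -/
noncomputable def bp (p : ℕ) : List Bool → (ZMod p)[X]
  | [] => 0
  | b :: y => C (if b = true then 1 else 0) + X * bp p y

theorem bb_eval (p t : ℕ) (y : List Bool) :
    (((bb p t y).1 : ℕ) : ZMod p) = (bp p y).eval (t : ZMod p) ∧
      (((bb p t y).2 : ℕ) : ZMod p) = (derivative (bp p y)).eval (t : ZMod p) := by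
  induction y with
  | nil => simp [bb, bp]
  | cons b y ih =>
    obtain ⟨h1, h2⟩ := ih
    constructor
    · cases b <;> simp [bb, bp, h1]
    · cases b <;> simp [bb, bp, h1, h2]

theorem bb_lt {p : ℕ} (hp : 0 < p) (t : ℕ) (y : List Bool) : (bb p t y).1 < p ∧ (bb p t y).2 < p := by
  cases y with
  | nil => exact ⟨hp, hp⟩
  | cons b y => exact ⟨Nat.mod_lt _ hp, Nat.mod_lt _ hp⟩

theorem bp_degree_lt (p : ℕ) (y : List Bool) : (bp p y).degree < y.length := by
  induction y with
  | nil => simp [bp]
  | cons b y ih =>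
    rw [List.length_cons]
    refine (degree_add_le _ _).trans_lt (max_lt ?_ ?_)
    · refine degree_C_le.trans_lt ?_
      exact_mod_cast Nat.succ_pos _
    · by_cases h : bp p y = 0
      · rw [h, mul_zero, degree_zero]
        exact WithBot.bot_lt_coe _
      · refine (degree_mul_le _ _).trans_lt ?_
        rw [degree_eq_natDegree h] at ih ⊢
        refine (add_le_add_left degree_X_le _).trans_lt ?_
        norm_cast at ih ⊢
        omega

/-- strings of the same length have different polynomials -/
theorem bp_inj {p : ℕ} [Fact p.Prime] {y y' : List Bool} (hl : y.length = y'.length)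
    (h : bp p y = bp p y') : y = y' := by
  induction y generalizing y' with
  | nil => exact (List.length_eq_zero_iff.1 hl.symm).symm
  | cons b y ih =>
    rcases y' with _ | ⟨b', y'⟩
    · simp at hl
    have h0 := congrArg (fun P => P.coeff 0) h
    simp only [bp, coeff_add, coeff_C_zero, mul_coeff_zero, coeff_X_zero, zero_mul, add_zero] at h0
    have hb : b = b' := by
      cases b <;> cases b' <;> simp at h0 ⊢
    subst hb
    have h1 : bp p y = bp p y' := by
      have h2 : X * bp p y = X * bp p y' := add_left_cancel h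
      exact mul_left_cancel₀ X_ne_zero h2
    rw [ih (by simpa using hl) h1]

/-- few points do not separate two strings of length `N` -/
theorem card_roots_bp_sub {p N : ℕ} [Fact p.Prime] {y y' : List Bool} (hy : y.length = N)
    (hy' : y'.length = N) (hne : y ≠ y') :
    bp p y - bp p y' ≠ 0 ∧ (bp p y - bp p y').roots.toFinset.card ≤ N - 1 := by
  have h0 : bp p y - bp p y' ≠ 0 := fun h => hne (bp_inj (hy.trans hy'.symm) (sub_eq_zero.1 h))
  refine ⟨h0, ?_⟩
  have hd : (bp p y - bp p y').degree < N := by
    refine (degree_sub_le _ _).trans_lt (max_lt ?_ ?_)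
    · exact hy ▸ bp_degree_lt p y
    · exact hy' ▸ bp_degree_lt p y'
  have h1 : (bp p y - bp p y').roots.card ≤ (bp p y - bp p y').natDegree := card_roots' _
  have h2 : (bp p y - bp p y').natDegree < N := (natDegree_lt_iff_degree_lt h0).2 hd
  have h3 := Multiset.toFinset_card_le (bp p y - bp p y').roots
  omega

/-- (E) -/
theorem isolate {q N T : ℕ} (hq : q.Prime) (W : Finset (List Bool))
    (hW : ∀ y ∈ W, y.length = N) (hT : W.card ≤ T) (hqT : T * N < q) {y : List Bool}
    (hy : y ∈ W) : ∃ a < q, ∀ y' ∈ W, (bb q a y').1 = (bb q a y).1 → y' = y := by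
  have : Fact q.Prime := ⟨hq⟩
  have hcard : ((W.erase y).biUnion fun y' => (bp q y' - bp q y).roots.toFinset).card < q := by
    calc ((W.erase y).biUnion fun y' => (bp q y' - bp q y).roots.toFinset).card
        ≤ ∑ y' ∈ W.erase y, (bp q y' - bp q y).roots.toFinset.card := card_biUnion_le
      _ ≤ ∑ _y' ∈ W.erase y, N := by
          refine sum_le_sum fun y' hy' => ?_
          obtain ⟨hne, hy'W⟩ := mem_erase.1 hy'
          exact (card_roots_bp_sub (hW _ hy'W) (hW _ hy) hne).2.trans (Nat.sub_le _ _)
      _ = (W.erase y).card * N := by rw [sum_const, smul_eq_mul]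
      _ ≤ T * N := Nat.mul_le_mul_right _ ((card_erase_le).trans hT)
      _ < q := hqT
  have hex : ∃ a : ZMod q, a ∉ (W.erase y).biUnion fun y' => (bp q y' - bp q y).roots.toFinset := by
    by_contra hno
    have hno' := not_exists.1 hno
    have : (univ : Finset (ZMod q)) ⊆
        (W.erase y).biUnion fun y' => (bp q y' - bp q y).roots.toFinset :=
      fun a _ => not_not.1 (hno' a)
    have h2 := card_le_card this
    rw [card_univ, ZMod.card] at h2
    omega
  obtain ⟨a, ha⟩ := hex
  refine ⟨a.val, ZMod.val_lt a, fun y' hy' he => ?_⟩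
  by_contra hne
  apply ha
  refine mem_biUnion.2 ⟨y', mem_erase.2 ⟨hne, hy'⟩, ?_⟩
  rw [Multiset.mem_toFinset, mem_roots (card_roots_bp_sub (hW _ hy') (hW _ hy) hne).1, IsRoot,
    eval_sub, sub_eq_zero]
  have h1 := (bb_eval q a.val y').1
  have h2 := (bb_eval q a.val y).1
  rw [he] at h1
  rw [ZMod.natCast_zmod_val] at h1 h2
  rw [← h1, ← h2]

end Pool.Agent.TT.Iso
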