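import Mathlib

/-!
# Few strings survive all levels (MP_5d94c0_lc)
-/

set_option autoImplicit false

namespace Pool.Agent.TT

open Finset

/-- Cauchy-Schwarz for the pairs with the same value -/
theorem sq_card_le_pairs {Y Q : Type} [DecidableEq Y] [DecidableEq Q] (U : Finset Y) (g : Y → Q)
    (J : Finset Q) (hg : ∀ y ∈ U, g y ∈ J) :
    U.card ^ 2 ≤ J.card * ((U ×ˢ U).filter fun z => g z.1 = g z.2).card := by
  have h1 : U.card = ∑ q ∈ J, (U.filter fun y => g y = q).card :=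
    card_eq_sum_card_fiberwise fun y hy => hg y hy
  have h2 : ((U ×ˢ U).filter fun z => g z.1 = g z.2).card =
      ∑ q ∈ J, (U.filter fun y => g y = q).card ^ 2 := by
    rw [card_eq_sum_card_fiberwise (f := fun z : Y × Y => g z.1) (t := J)
      fun z hz => hg _ (mem_product.1 (mem_filter.1 hz).1).1]
    refine sum_congr rfl fun q _ => ?_
    rw [sq, ← card_product]
    congr 1
    ext ⟨y, y'⟩
    simp only [mem_filter, mem_product]
    constructor
    · rintro ⟨⟨⟨hy, hy'⟩, h⟩, hq⟩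
      exact ⟨⟨hy, hq⟩, hy', h ▸ hq⟩
    · rintro ⟨⟨hy, hq⟩, hy', hq'⟩
      exact ⟨⟨⟨hy, hy'⟩, hq.trans hq'.symm⟩, hq⟩
  rw [h1, h2]
  exact sq_sum_le_card_mul_sum_sq

/-- (B2) -/
theorem few_survivors {Y I A R : Type} [DecidableEq Y] [DecidableEq I] [DecidableEq A]
    [DecidableEq R] (U : Finset Y) (L : Finset I) (As : Finset A) (f : I → A → Y → R)
    (J : I → Finset (A × R)) (h C0 : ℕ) (hJ : ∀ i ∈ L, (J i).card ≤ h)
    (hJA : ∀ i ∈ L, ∀ q ∈ J i, q.1 ∈ As)
    (hcol : ∀ y ∈ U, ∀ y' ∈ U, y ≠ y' → ∀ a ∈ As,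
      (L.filter fun i => f i a y = f i a y').card ≤ C0)
    (hit : ∀ i ∈ L, ∀ y ∈ U, ∃ q ∈ J i, f i q.1 y = q.2)
    (hL : 2 * h * (As.card * C0) ≤ L.card) (hL0 : 0 < L.card) : U.card ≤ 2 * h ^ 2 := by
  rcases U.eq_empty_or_nonempty with rfl | ⟨y0, hy0⟩
  · simp
  have hh : 0 < h := by
    obtain ⟨i, hi⟩ := card_pos.1 hL0
    obtain ⟨q, hq, -⟩ := hit i hi y0 hy0
    exact lt_of_lt_of_le (card_pos.2 ⟨q, hq⟩) (hJ i hi)
  obtain ⟨q0⟩ : Nonempty (A × R) := by
    obtain ⟨i, hi⟩ := card_pos.1 hL0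
    obtain ⟨q, -, -⟩ := hit i hi y0 hy0
    exact ⟨q⟩
  have hex : ∀ i : I, ∀ y : Y, ∃ q : A × R, i ∈ L → y ∈ U → q ∈ J i ∧ f i q.1 y = q.2 := by
    intro i y
    by_cases hi : i ∈ L
    · by_cases hy : y ∈ U
      · obtain ⟨q, hq, hf⟩ := hit i hi y hy
        exact ⟨q, fun _ _ => ⟨hq, hf⟩⟩
      · exact ⟨q0, fun _ h => absurd h hy⟩
    · exact ⟨q0, fun h => absurd h hi⟩
  choose g hg using hex
  -- one level
  have h1 : ∀ i ∈ L, U.card ^ 2 ≤ h * ((U ×ˢ U).filter fun z => g i z.1 = g i z.2).card := by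
    intro i hi
    exact (sq_card_le_pairs U (g i) (J i) fun y hy => (hg i y hi hy).1).trans
      (Nat.mul_le_mul_right _ (hJ i hi))
  -- all levels
  have h2 : L.card * U.card ^ 2 ≤
      h * ∑ i ∈ L, ((U ×ˢ U).filter fun z => g i z.1 = g i z.2).card := by
    rw [mul_sum, ← smul_eq_mul, ← sum_const]
    exact sum_le_sum h1
  have h3 : ∑ i ∈ L, ((U ×ˢ U).filter fun z => g i z.1 = g i z.2).card =
      ∑ z ∈ U ×ˢ U, (L.filter fun i => g i z.1 = g i z.2).card := by
    simp only [card_filter]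
    exact sum_comm
  have h4 : ∀ z ∈ U ×ˢ U, (L.filter fun i => g i z.1 = g i z.2).card ≤
      (if z.1 = z.2 then L.card else 0) + As.card * C0 := by
    rintro ⟨y, y'⟩ hz
    obtain ⟨hy, hy'⟩ := mem_product.1 hz
    by_cases hyy : y = y'
    · subst hyy
      simp
    · rw [if_neg hyy, zero_add]
      have hsub : (L.filter fun i => g i y = g i y') ⊆
          As.biUnion fun a => L.filter fun i => f i a y = f i a y' := by
        intro i hi
        obtain ⟨hiL, hgi⟩ := mem_filter.1 hi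
        obtain ⟨hq, hf⟩ := hg i y hiL hy
        obtain ⟨-, hf'⟩ := hg i y' hiL hy'
        refine mem_biUnion.2 ⟨(g i y).1, hJA i hiL _ hq, mem_filter.2 ⟨hiL, ?_⟩⟩
        have hgi' : g i y = g i y' := hgi
        rw [← hgi'] at hf'
        rw [hf, hf']
      calc (L.filter fun i => g i y = g i y').card
          ≤ (As.biUnion fun a => L.filter fun i => f i a y = f i a y').card := card_le_card hsub
        _ ≤ ∑ a ∈ As, (L.filter fun i => f i a y = f i a y').card := card_biUnion_le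
        _ ≤ ∑ _a ∈ As, C0 := sum_le_sum fun a ha => hcol y hy y' hy' hyy a ha
        _ = As.card * C0 := by rw [sum_const, smul_eq_mul]
  have h5 : ∑ z ∈ U ×ˢ U, (L.filter fun i => g i z.1 = g i z.2).card ≤
      U.card * L.card + U.card ^ 2 * (As.card * C0) := by
    refine (sum_le_sum h4).trans ?_
    rw [sum_add_distrib, sum_const, smul_eq_mul, card_product, ← sq]
    refine Nat.add_le_add_right ?_ _
    rw [sum_product]
    calc ∑ x ∈ U, ∑ y ∈ U, (if x = y then L.card else 0) ≤ ∑ _x ∈ U, L.card := by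
          refine sum_le_sum fun x hx => ?_
          rw [sum_ite_eq U x]
          split_ifs <;> simp
      _ = U.card * L.card := by rw [sum_const, smul_eq_mul]
  rw [h3] at h2
  have h6 : L.card * U.card ^ 2 ≤ h * (U.card * L.card + U.card ^ 2 * (As.card * C0)) :=
    h2.trans (Nat.mul_le_mul_left _ h5)
  have h7 : U.card ^ 2 * (2 * h * (As.card * C0)) ≤ U.card ^ 2 * L.card :=
    Nat.mul_le_mul_left _ hL
  have h8 : U.card ^ 2 * L.card ≤ 2 * h * U.card * L.card := by nlinarith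
  have h9 : U.card ^ 2 ≤ 2 * h * U.card := Nat.le_of_mul_le_mul_right h8 hL0
  have hU : 0 < U.card := card_pos.2 ⟨y0, hy0⟩
  have h10 : U.card ≤ 2 * h := by
    rw [sq] at h9
    exact Nat.le_of_mul_le_mul_right h9 hU
  nlinarith

end Pool.Agent.TT
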