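import Pool.Agent.Lib_helper78.TT.A76
import Pool.Agent.Lib_helper78.TT.B29
import Pool.Agent.Lib_helper78.TT.Cover
import Pool.Agent.Lib_helper78.TT.Surv
import Pool.Agent.Lib_helper78.TT.Poly

/-!
# Hash functions: density and isolation (MP_5d94c0_lc)
-/

set_option autoImplicit false

namespace Pool.Agent.TT

open Finset

/-- At every level, a large set of strings has many values. -/
theorem density {p N : ℕ} (hp : p.Prime) (hN : 4 * (N + 2) ≤ p) (s : ℕ × ℕ × ℕ × ℕ × ℕ × ℕ)
    (W : Finset (List Bool)) (hW : ∀ y ∈ W, y.length = N) (hcard : p ^ 4 < W.card) :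
    p ^ 3 ≤ 128 * (N + 2) ^ 2 * ((range p ×ˢ range p ×ˢ range p).filter
      fun q => ∃ y ∈ W, hv p s q.1 y = q.2).card := by
  have : Fact p.Prime := ⟨hp⟩
  exact density_of (fun hd hk hdk F hF hc => expansion hd hk hdk F hF hc) hN s W hW hcard

/-- Few strings are isolated by the value of the polynomial at some place. -/
theorem isolate {q N T : ℕ} (hq : q.Prime) (W : Finset (List Bool))
    (hW : ∀ y ∈ W, y.length = N) (hT : W.card ≤ T) (hqT : T * N < q) {y : List Bool}
    (hy : y ∈ W) : ∃ a < q, ∀ y' ∈ W, (bb q a y').1 = (bb q a y).1 → y' = y :=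
  Iso.isolate hq W hW hT hqT hy

end Pool.Agent.TT
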