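import Pool.Agent.Lib_helper78.TT.Lists
import Pool.Agent.Lib_helper78.TT.Math

/-!
# The size of the questions (MP_5d94c0_lc)
-/

set_option autoImplicit false
set_option linter.unusedSectionVars false

namespace Pool.Agent.TT

open Pool.Agent.CK Pool.Agent.CKP Pool.Agent.PSL Pool.Agent.PCL

/-- polynomially bounded -/
def PB (f : ℕ → ℕ) : Prop := ∃ e, ∀ n, f n ≤ (n + 2) ^ e

theorem PB.of_upoly {f : ℕ → ℕ} (h : UPoly (fun _ => false) f) : PB f := by
  obtain ⟨Q, hQ⟩ := h.bound
  obtain ⟨e, he⟩ := exists_pow Q
  exact ⟨e, fun n => (hQ n).trans (he n)⟩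

theorem PB.mono {f f' : ℕ → ℕ} (h : PB f) (hf : ∀ n, f' n ≤ f n) : PB f' := by
  obtain ⟨e, he⟩ := h
  exact ⟨e, fun n => (hf n).trans (he n)⟩

theorem sz_tm {t : Tm} {B : ℕ} (h1 : t.1.length ≤ B) (h2 : t.2.1.1.length ≤ B)
    (h3 : t.2.1.2.1.length ≤ B) (h4 : t.2.1.2.2.1.length ≤ B)
    (h5 : t.2.1.2.2.2.1.length ≤ B) (h6 : t.2.1.2.2.2.2.1.length ≤ B)
    (h7 : t.2.1.2.2.2.2.2.length ≤ B) (h8 : t.2.2.1.length ≤ B)
    (h9 : t.2.2.2.1.length ≤ B) (h10 : t.2.2.2.2.length ≤ B) : sz t ≤ 20 * B + 19 := by
  obtain ⟨m, ⟨a1, a2, a3, a4, a5, a6⟩, b, c, c'⟩ := t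
  simp only at h1 h2 h3 h4 h5 h6 h7 h8 h9 h10
  simp only [sz_pair, sz_unary]
  omega

theorem sz_str (y : List Bool) : sz y ≤ 4 * y.length + 1 := size_bits y

theorem sz_qcode (q : Qu) : sz (qcode q) ≤ 4 * sz q + 1 := by
  have h := sz_str (qcode q)
  have h2 : (qcode q).length = sz q := by
    unfold qcode
    rw [D.enc_length]
    rfl
  rw [h2] at h
  exact h

/-- bound for terms -/
def tmB (n : ℕ) : ℕ := 20 * (YY n + XX n) + 19

/-- bound for clauses -/
def clB (n : ℕ) : ℕ := DD n * n * (tmB n + 1) + (tmB n + 3)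

/-- bound for states -/
def stB (n : ℕ) : ℕ := (XX n ^ 6 + 1) * (clB n + 1) + 1

/-- bound for questions -/
def quB (n : ℕ) : ℕ := 8 * n + stB n + 10

/-- bound for lists of questions -/
def lqB (n : ℕ) : ℕ := (XX n ^ 3 + n) * (4 * quB n + 2) + 1

theorem pb_lqB : PB lqB := by
  apply PB.of_upoly
  have hX : UPoly (fun _ => false) XX := (UPoly.const 512).mul ((UPoly.id.add (UPoly.const 2)).pow 5)
  have hY : UPoly (fun _ => false) YY :=
    (UPoly.const 2).mul (((hX.pow 4).mul (UPoly.id.add (UPoly.const 1))).add (UPoly.const 1))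
  have hD : UPoly (fun _ => false) DD := (UPoly.const 128).mul ((UPoly.id.add (UPoly.const 2)).pow 2)
  have ht : UPoly (fun _ => false) tmB := ((UPoly.const 20).mul (hY.add hX)).add (UPoly.const 19)
  have hc : UPoly (fun _ => false) clB :=
    ((hD.mul UPoly.id).mul (ht.add (UPoly.const 1))).add (ht.add (UPoly.const 3))
  have hs : UPoly (fun _ => false) stB :=
    (((hX.pow 6).add (UPoly.const 1)).mul (hc.add (UPoly.const 1))).add (UPoly.const 1)
  have hq : UPoly (fun _ => false) quB :=
    (((UPoly.const 8).mul UPoly.id).add hs).add (UPoly.const 10)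
  exact (((hX.pow 3).add UPoly.id).mul (((UPoly.const 4).mul hq).add (UPoly.const 2))).add
    (UPoly.const 1)

variable {g : List (List Bool) → List (List Bool)} {x : List Bool} {N m : List Unit}

theorem sz_term_le (hm : m.length < XX N.length) {s : Sd} (hs : s ∈ seeds (() :: m)) {t : Tm}
    (ht : t ∈ terms m s) : sz t ≤ tmB N.length := by
  obtain ⟨h1, h2, h3, h4, h5⟩ := mem_terms.1 ht
  have h6 := mem_seeds.1 hs
  rw [List.length_cons] at h6
  obtain ⟨g1, g2, g3, g4, g5, g6⟩ := h6
  rw [← h2] at g1 g2 g3 g4 g5 g6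
  have h7 : t.1.length = m.length := by rw [h1]
  refine (sz_tm (B := XX N.length) ?_ ?_ ?_ ?_ ?_ ?_ ?_ ?_ ?_ ?_).trans ?_
  all_goals first
    | omega
    | (unfold tmB; omega)

theorem sz_fterm_le {t : Tm} (ht : t ∈ fterms (List.replicate (YY N.length) ())) :
    sz t ≤ tmB N.length := by
  unfold fterms at ht
  rw [List.mem_map] at ht
  obtain ⟨q, hq, rfl⟩ := ht
  rw [mem_triples, List.length_replicate] at hq
  have h0 : 1 ≤ YY N.length := by unfold YY; omega
  refine (sz_tm (B := YY N.length) ?_ ?_ ?_ ?_ ?_ ?_ ?_ ?_ ?_ ?_).trans ?_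
  all_goals first
    | (simp only [fterm, List.length_nil, List.length_singleton]; omega)
    | (unfold tmB; omega)

theorem sz_append_le (l r : List Cl) : sz (l ++ r) ≤ sz l + sz r := by
  induction l with
  | nil => simp
  | cons a t ih => rw [List.cons_append, sz_cons, sz_cons]; omega

/-- all clauses are small -/
theorem sz_state (hm : m.length < XX N.length) (i : ℕ) :
    sz ((full g x N m).take i) ≤ (XX N.length ^ 6) * (clB N.length + 1) + 1 := by
  have hlcl : ∀ c ∈ full g x N m, sz c ≤ clB N.length := by
    intro c hc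
    have h1 : ∃ st, ∃ s ∈ seeds (() :: m), c = lcl g x N m st s := by
      have : ∀ (l : List Sd), (∀ s ∈ l, s ∈ seeds (() :: m)) →
          ∀ c ∈ steps (lcl g x N m) l, ∃ st, ∃ s ∈ seeds (() :: m), c = lcl g x N m st s := by
        intro l
        induction l using List.reverseRecOn with
        | nil => intro _ c hc; simp [steps] at hc
        | append_singleton l s ih =>
          intro hl c hc
          rw [steps_snoc, List.mem_append, List.mem_singleton] at hc
          rcases hc with hc | hc
          · exact ih (fun s hs => hl s (List.mem_append_left _ hs)) c hc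
          · exact ⟨_, s, hl s (by simp), hc⟩
      exact this _ (fun s hs => hs) c hc
    obtain ⟨st, s, hs, rfl⟩ := h1
    have h2 : ∀ t ∈ lcl g x N m st s, sz t ≤ tmB N.length := by
      intro t ht
      unfold lcl at ht
      rw [List.mem_map] at ht
      obtain ⟨j, hj, rfl⟩ := ht
      have hjlt : j < (terms m s).length := by
        rw [length_terms]
        exact cover_lt (by positivity) _ j hj
      rw [List.getD_eq_getElem _ _ hjlt]
      exact sz_term_le hm hs (List.getElem_mem hjlt)
    refine (num_list_bound _ _ h2).trans ?_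
    have h3 : (lcl g x N m st s).length = DD N.length * N.length := by
      unfold lcl
      rw [List.length_map, cover_length]
    rw [h3]
    unfold clB
    omega
  refine (num_list_bound _ (clB N.length) fun c hc => hlcl c (List.mem_of_mem_take hc)).trans ?_
  have h4 : ((full g x N m).take i).length ≤ XX N.length ^ 6 := by
    refine (List.length_take_le' _ _).trans ?_
    show (steps (lcl g x N m) (seeds (() :: m))).length ≤ _
    rw [length_steps, length_seeds, List.length_cons]
    exact Nat.pow_le_pow_left (by omega) 6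
  have := Nat.mul_le_mul_right (clB N.length + 1) h4
  omega

theorem sz_question (hx : x.length ≤ N.length) {st : List Cl}
    (hst : sz st ≤ (XX N.length ^ 6) * (clB N.length + 1) + 1) {t : Tm}
    (ht : sz t ≤ tmB N.length) {js : List (List Unit)} (hjs : sz js ≤ 2 * N.length + 3) :
    sz (qcode (x, N, st ++ [[t]], js)) ≤ 4 * quB N.length + 1 := by
  refine (sz_qcode _).trans ?_
  have h1 := sz_str x
  have h2 := sz_append_le st [[t]]
  have h3 : sz [[t]] = sz t + 4 := by
    rw [sz_cons, sz_cons, sz_nil, sz_nil]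
  have h4 : tmB N.length + 3 ≤ clB N.length := by unfold clB; omega
  have h5 : stB N.length = (XX N.length ^ 6) * (clB N.length + 1) + clB N.length + 2 := by
    unfold stB
    ring
  have h6 : sz (x, N, st ++ [[t]], js) ≤ quB N.length := by
    simp only [sz_pair, sz_unary]
    unfold quB
    rw [h5]
    omega
  omega

/-- the size of the lists of questions -/
theorem exists_size : ∃ e : ℕ, ∀ (x : List Bool) (N m : List Unit) (g : List (List Bool) →
    List (List Bool)), x.length ≤ N.length → m.length < XX N.length →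
    (∀ i, ∀ s ∈ seeds (() :: m),
      sz (lquest x N m ((full g x N m).take i) s) ≤ (N.length + 2) ^ e) ∧
    ∀ i, ∀ t ∈ fterms (List.replicate (YY N.length) ()),
      sz (fquest x N ((full g x N m).take i) t) ≤ (N.length + 2) ^ e := by
  obtain ⟨e, he⟩ := pb_lqB
  refine ⟨e, fun x N m g hx hm => ⟨fun i s hs => ?_, fun i t ht => ?_⟩⟩
  · refine le_trans ?_ (he N.length)
    refine (num_list_bound (lquest x N m ((full g x N m).take i) s) (4 * quB N.length + 1)
      ?_).trans ?_
    · intro q hq
      unfold lquest at hq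
      rw [List.mem_map] at hq
      obtain ⟨t, ht, rfl⟩ := hq
      exact sz_question hx (sz_state hm i) (sz_term_le hm hs ht) (by rw [sz_nil]; omega)
    · have h1 : (lquest x N m ((full g x N m).take i) s).length ≤ XX N.length ^ 3 := by
        unfold lquest
        rw [List.length_map, length_terms]
        exact Nat.pow_le_pow_left (by omega) 3
      have h2 := Nat.mul_le_mul_right (4 * quB N.length + 1 + 1)
        (h1.trans (Nat.le_add_right _ N.length))
      unfold lqB
      have h3 : 4 * quB N.length + 1 + 1 = 4 * quB N.length + 2 := rfl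
      rw [h3] at h2
      rw [h3]
      omega
  · refine le_trans ?_ (he N.length)
    refine (num_list_bound (fquest x N ((full g x N m).take i) t) (4 * quB N.length + 1)
      ?_).trans ?_
    · intro q hq
      unfold fquest at hq
      rw [List.mem_map] at hq
      obtain ⟨j, hj, rfl⟩ := hq
      refine sz_question hx (sz_state hm i) (sz_fterm_le ht) ?_
      rw [rangeU_eq, List.mem_map] at hj
      obtain ⟨i, hi, rfl⟩ := hj
      rw [List.mem_range] at hi
      rw [sz_cons, sz_unary, sz_nil, un_length]
      omega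
    · have h1 : (fquest x N ((full g x N m).take i) t).length ≤ N.length := by
        unfold fquest
        rw [List.length_map, rangeU_eq, List.length_map, List.length_range]
      have h2 := Nat.mul_le_mul_right (4 * quB N.length + 1 + 1)
        (h1.trans (Nat.le_add_left _ (XX N.length ^ 3)))
      unfold lqB
      have h3 : 4 * quB N.length + 1 + 1 = 4 * quB N.length + 2 := rfl
      rw [h3] at h2
      rw [h3]
      omega

end Pool.Agent.TT
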