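import Pool.Agent.Lib_helper78.TT.Levels
import Pool.Agent.Lib_helper78.TT.Sizes

/-!
# The search is complete (MP_5d94c0_lc)
-/

set_option autoImplicit false
set_option linter.unusedSectionVars false

namespace Pool.Agent.TT

open Pool.Agent.CK Pool.Agent.CKP Pool.Agent.PSL Pool.Agent.PCL

variable {O : Lang} {d : Cmd} {k : ℕ}

theorem dropWhile_rep (j : ℕ) (l : List Bool) :
    (List.replicate j false ++ true :: l).dropWhile (fun b => !b) = true :: l := by
  induction j with
  | zero => rfl
  | succ j ih => rw [List.replicate_succ, List.cons_append, List.dropWhile_cons]; exact ih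

theorem strip_pad (n : ℕ) (y : List Bool) : strip (pad n y) = y := by
  unfold strip pad
  rw [List.reverse_append, List.reverse_cons, List.reverse_replicate, List.append_assoc,
    List.singleton_append, dropWhile_rep, List.tail_cons, List.reverse_reverse]

theorem length_pad {n : ℕ} {y : List Bool} (h : y.length < n) : (pad n y).length = n := by
  unfold pad
  rw [List.length_append, List.length_cons, List.length_replicate]
  omega

theorem exists_R {x : List Bool} {n : ℕ} (hn : (x.length + 2) ^ k < n)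
    (h : ∃ y, wit O d k x y = true) : ∃ y : List Bool, y.length = n ∧ R O d k x y = true := by
  obtain ⟨y, hy⟩ := h
  have h1 := (wit_iff.1 hy).1
  refine ⟨pad n y, length_pad (by omega), ?_⟩
  unfold R
  rw [strip_pad]
  exact hy

theorem num_bound (N : ℕ) : 2 * (DD N * N) * (N ^ 2 + 1) ≤ 256 * (N + 2) ^ 5 := by
  unfold DD
  have h1 : N * (N ^ 2 + 1) ≤ (N + 2) ^ 3 := by
    have : (N + 2) ^ 3 = N * (N ^ 2 + 1) + (6 * N ^ 2 + 11 * N + 8) := by ring
    omega
  calc 2 * (128 * (N + 2) ^ 2 * N) * (N ^ 2 + 1)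
      = 256 * (N + 2) ^ 2 * (N * (N ^ 2 + 1)) := by ring
    _ ≤ 256 * (N + 2) ^ 2 * (N + 2) ^ 3 := Nat.mul_le_mul_left _ h1
    _ = 256 * (N + 2) ^ 5 := by ring

theorem num_bound2 (N : ℕ) : 4 * (N + 2) ≤ 256 * (N + 2) ^ 5 := by
  calc 4 * (N + 2) = 4 * (N + 2) ^ 1 := by ring
    _ ≤ 256 * (N + 2) ^ 5 := Nat.mul_le_mul (by norm_num)
        (Nat.pow_le_pow_right (by omega) (by norm_num))

/-- the search finds a witness, if there is one -/
theorem search_complete_of [OfD Qu] (hQ : ∀ q : Qu, QL O d k (qcode q) = Qs O d k q) :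
    ∃ e : ℕ, ∀ (g : List (List Bool) → List (List Bool))
    (x : List Bool) (N : List Unit), x.length ≤ N.length → (x.length + 2) ^ k < N.length →
    (∀ qs : List (List Bool), sz qs ≤ (N.length + 2) ^ e →
      qs.map (QL O d k) ∈ g qs ∧ (g qs).length < 2 ^ N.length) →
    (∃ y, wit O d k x y = true) → search g O d k x N ≠ [] := by
  obtain ⟨e, he⟩ := exists_size
  refine ⟨e, fun g x N hx hN hg hw => ?_⟩
  obtain ⟨y, hy1, hy2⟩ := exists_R hN hw
  have hW : (Wst O d k x N []).Nonempty := ⟨y, mem_Wst.2 ⟨hy1, hy2, by simp⟩⟩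
  obtain ⟨p, hp, hp1, hp2⟩ := Nat.exists_prime_lt_and_le_two_mul (256 * (N.length + 2) ^ 5)
    (by positivity)
  have hp0 : p - 1 + 1 = p := Nat.sub_add_cancel hp.one_le
  have hXX : p ≤ XX N.length := by unfold XX; omega
  set m : List Unit := un (p - 1) with hm
  have hmlen : m.length + 1 = p := by rw [hm, un_length, hp0]
  have hmX : m.length < XX N.length := by omega
  obtain ⟨he1, he2⟩ := he x N m g hx hmX
  have hp' : (m.length + 1).Prime := by rw [hmlen]; exact hp
  have hn1 := num_bound2 N.length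
  have hn2 := num_bound N.length
  obtain ⟨i, hi, hne, hcard⟩ := exists_level hQ (g := g) hp' (by omega) (by omega)
    (fun i s hs => hg _ (he1 i s hs)) hW
  rw [hmlen] at hi hcard
  obtain ⟨q, hq, hq1, hq2⟩ := Nat.exists_prime_lt_and_le_two_mul (p ^ 4 * N.length + 1)
    (by positivity)
  have hY : q ≤ YY N.length := by
    refine hq2.trans ?_
    unfold YY
    have h1 : p ^ 4 * N.length ≤ XX N.length ^ 4 * (N.length + 1) :=
      Nat.mul_le_mul (Nat.pow_le_pow_left hXX 4) (Nat.le_succ _)
    omega
  obtain ⟨t, ht, hfind⟩ := few_find hQ (g := g) hq hne hcard (by omega) hY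
    (fun t ht => (hg _ (he2 i t ht)).1)
  obtain ⟨z, hz⟩ := List.exists_mem_of_ne_nil _ hfind
  have hmem : z ∈ search g O d k x N := by
    unfold search
    rw [List.mem_flatMap]
    refine ⟨m, ?_, ?_⟩
    · rw [rangeU_eq, List.mem_map, List.length_replicate]
      exact ⟨p - 1, List.mem_range.2 (by omega), rfl⟩
    · rw [List.mem_flatMap]
      refine ⟨un i, ?_, ?_⟩
      · rw [rangeU_eq, List.mem_map, List.length_cons, List.length_replicate, hmlen]
        exact ⟨i, List.mem_range.2 (by omega), rfl⟩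
      · rw [List.mem_flatMap]
        refine ⟨t, ht, ?_⟩
        rw [un_length]
        exact hz
  exact List.ne_nil_of_mem hmem

end Pool.Agent.TT
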