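import Pool.Agent.Lib_helper78.PCL.Defs

/-!
# Definitions for MP_5d94c0_lc: reductions with few rounds of parallel queries
-/

set_option autoImplicit false

namespace Pool.Agent.TT

open Pool.Agent.CK

/-- A string read as a list of strings: a bit `b` is written `1b`, and `0` ends a string. -/
def split : List Bool → List (List Bool)
  | [] => []
  | false :: w => [] :: split w
  | [true] => []
  | true :: b :: w =>
    match split w with
    | [] => [[b]]
    | y :: L => (b :: y) :: L

/-- the output of the program `c` for the inputs `x`, `a`, in time `(|x| + |a| + 2)^k` -/
def outp (O : Lang) (c : Cmd) (k : ℕ) (x a : List Bool) : List Bool :=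
  (run O c x a ((x.length + a.length + 2) ^ k)).2 0

/-- The answers of `S` in the first rounds: in each round the program `c` is given the input `x`
and the answers so far, and its output is a list of queries, which are answered in parallel. -/
def answers (O S : Lang) (c : Cmd) (k : ℕ) (x : List Bool) : ℕ → List Bool
  | 0 => []
  | r + 1 => answers O S c k x r ++ (split (outp O c k x (answers O S c k x r))).map S

/-- `A` is reducible in polynomial time to `S`, relative to `O`, with `r |x|` rounds of parallel
queries: the program `c` generates the queries, the program `e` decides with the answers. -/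
def RoundReducible (O : Lang) (r : ℕ → ℕ) (A S : Lang) : Prop :=
  ∃ (c e : Cmd) (k : ℕ),
    (∀ x a : List Bool, Halts O c x a ((x.length + a.length + 2) ^ k)) ∧
    ∀ x : List Bool, (answers O S c k x (r x.length)).length ≤ (x.length + 2) ^ k ∧
      answers O S c k x (r x.length + 1) = answers O S c k x (r x.length) ∧
      Halts O e x (answers O S c k x (r x.length)) ((x.length + 2) ^ k) ∧
      (Accepts O e x (answers O S c k x (r x.length)) ((x.length + 2) ^ k) ↔ A x = true)

end Pool.Agent.TT
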