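import Pool.Agent.Lib_helper78.TT.Search
import Pool.Agent.Lib_helper78.TT.Defs

/-!
# Candidates from reductions with few rounds to a p-selective set (MP_5d94c0_lc)
-/

set_option autoImplicit false
set_option linter.unusedSectionVars false

namespace Pool.Agent.TT

open Pool.Agent.CK Pool.Agent.CKP Pool.Agent.PSL Pool.Agent.PCL

variable {O P : Lang} {γ α β : Type} [ToD γ] [ToD α] [ToD β]

/-! ### `split` in polynomial time -/

/-- the part of `split` for the first bit `a` of a string with the rest `t`; `s` is the value at
`t`, and `s'` the value at the tail of `t` -/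
def spF (a : Bool) (t : List Bool) (s s' : List (List Bool)) : List (List Bool) :=
  if a = true then lcase t [] (fun b _ => lcase s' [[b]] fun y L => (b :: y) :: L) else [] :: s

theorem split_cons (a : Bool) (t : List Bool) :
    split (a :: t) = spF a t (split t) (split t.tail) := by
  cases a with
  | false => rw [split]; rfl
  | true =>
    cases t with
    | nil => rw [split]; rfl
    | cons b w =>
      rw [split]
      show _ = lcase (split w) [[b]] fun y L => (b :: y) :: L
      cases split w <;> rfl

theorem split_fold (l : List Bool) :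
    l.foldr (fun a (q : List Bool × List (List Bool) × List (List Bool)) =>
      (a :: q.1, spF a q.1 q.2.1 q.2.2, q.2.1)) ([], [], []) = (l, split l, split l.tail) := by
  induction l with
  | nil => rfl
  | cons a t ih => rw [List.foldr_cons, ih, split_cons]; rfl

theorem sz_spF (a : Bool) (t : List Bool) (s s' : List (List Bool)) :
    sz (spF a t s s') ≤ max (sz s) (sz s') + 10 := by
  have hb : ∀ b : Bool, sz b ≤ 3 := by
    intro b
    cases b
    · rw [sz_false]; omega
    · rw [sz_true]
  unfold spF
  split_ifs
  · cases t with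
    | nil => rw [lcase_nil, sz_nil]; omega
    | cons b w =>
      rw [lcase_cons]
      cases s' with
      | nil =>
        rw [lcase_nil, sz_cons, sz_cons, sz_nil, sz_nil]
        have := hb b
        omega
      | cons y L =>
        rw [lcase_cons, sz_cons, sz_cons, sz_cons]
        have := hb b
        omega
  · rw [sz_cons, sz_nil]
    omega

theorem sz_split (l : List Bool) :
    sz (split l) ≤ 10 * l.length + 1 ∧ sz (split l.tail) ≤ 10 * l.length + 1 := by
  induction l with
  | nil => exact ⟨by simp [split], by simp [split]⟩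
  | cons a t ih =>
    rw [split_cons, List.tail_cons, List.length_cons]
    have := sz_spF a t (split t) (split t.tail)
    omega

theorem ptime_split {w : γ → List Bool} (hw : PTime P w) : PTime P (fun g => split (w g)) := by
  have h1 : PTime P (fun p : γ × (List Bool × List (List Bool) × List (List Bool)) × Bool =>
      p.2.2) := PTime.id.snd.snd
  have h2 : PTime P (fun p : γ × (List Bool × List (List Bool) × List (List Bool)) × Bool =>
      p.2.1.1) := PTime.id.snd.fst.fst
  have h3 : PTime P (fun p : γ × (List Bool × List (List Bool) × List (List Bool)) × Bool =>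
      p.2.1.2.1) := PTime.id.snd.fst.snd.fst
  have h4 : PTime P (fun p : γ × (List Bool × List (List Bool) × List (List Bool)) × Bool =>
      p.2.1.2.2) := PTime.id.snd.fst.snd.snd
  have hF : PTime P (fun p : γ × (List Bool × List (List Bool) × List (List Bool)) × Bool =>
      spF p.2.2 p.2.1.1 p.2.1.2.1 p.2.1.2.2) := by
    unfold spF
    refine PTime.ite h1 ?_ (PTime.cons (PTime.const []) h3)
    refine PTime.lcase (l := fun p : γ × (List Bool × List (List Bool) × List (List Bool)) × Bool
      => p.2.1.1) (n := fun _ => ([] : List (List Bool)))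
      (c := fun p b _ => lcase p.2.1.2.2 [[b]] fun y L => (b :: y) :: L) h2 (PTime.const _) ?_
    have g1 : PTime P (fun p : (γ × (List Bool × List (List Bool) × List (List Bool)) × Bool) ×
      Bool × List Bool => p.2.1) := PTime.id.snd.fst
    refine PTime.lcase (l := fun p : (γ × (List Bool × List (List Bool) × List (List Bool)) ×
      Bool) × Bool × List Bool => p.1.2.1.2.2) (n := fun p => [[p.2.1]])
      (c := fun p y L => (p.2.1 :: y) :: L) (h4.comp PTime.id.fst)
      (PTime.cons (PTime.cons g1 (PTime.const _)) (PTime.const _)) ?_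
    exact PTime.cons (PTime.cons (g1.comp PTime.id.fst) PTime.id.snd.fst) PTime.id.snd.snd
  obtain ⟨Q, hQ⟩ := hw.size_le
  have h := PTime.foldl (l := fun g => (w g).reverse)
    (i := fun _ => (([] : List Bool), ([] : List (List Bool)), ([] : List (List Bool))))
    (s := fun _ (q : List Bool × List (List Bool) × List (List Bool)) a =>
      (a :: q.1, spF a q.1 q.2.1 q.2.2, q.2.1)) hw.reverse (PTime.const _)
    (PTime.pair (PTime.cons h1 h2) (PTime.pair hF h3)) (24 * Q + 5) (by
      intro g l' hl'
      have hl1 : l'.reverse <:+ w g := by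
        rw [← List.reverse_prefix, List.reverse_reverse]
        exact hl'
      have hl2 := split_fold l'.reverse
      rw [List.foldr_reverse] at hl2
      rw [hl2, sz_pair, sz_pair]
      have hl3 := sz_split l'.reverse
      have hl4 := sz_le_of_suffix hl1
      have hl5 := hQ g
      have hl6 : l'.reverse.length ≤ Q.eval (sz g) :=
        (hl1.length_le.trans (length_le_sz _)).trans hl5
      simp only [Polynomial.eval_add, Polynomial.eval_mul, Polynomial.eval_ofNat]
      omega)
  refine h.snd.fst.of_eq fun g => ?_
  rw [List.foldl_reverse, split_fold]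

/-! ### outputs and decisions in polynomial time -/

theorem ptime_tb2 (k : ℕ) {x a : γ → List Bool} (hx : PTime P x) (ha : PTime P a) :
    PTime P (fun g => List.replicate (((x g).length + (a g).length + 2) ^ k) ()) :=
  ((UPoly.tb (O := P) k).comp (hx.append ha)).of_eq fun g => by rw [List.length_append]

theorem ptime_outp (hO : PTime P O) (c : Cmd) (k : ℕ) {x a : γ → List Bool} (hx : PTime P x)
    (ha : PTime P a) : PTime P (fun g => outp O c k (x g) (a g)) := by
  have hrun := ptime_runG (O := P) (γ := γ) (P := fun _ => O)
    (hO.comp PTime.id.snd) (PTime.const (cmdD c))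
    (PTime.cons hx (PTime.cons ha (PTime.const []))) (ptime_tb2 k hx ha)
  refine (PTime.headD hrun.snd (PTime.const [])).of_eq fun g => ?_
  have h1 := outU_eq (O := O) c (x g) (a g)
    (List.replicate (((x g).length + (a g).length + 2) ^ k) ())
  rw [List.length_replicate] at h1
  unfold outU at h1
  exact h1

/-- the questions of the next round -/
def qs (O : Lang) (c : Cmd) (k : ℕ) (p : List Bool × List Bool) : List (List Bool) :=
  split (outp O c k p.1 p.2)

theorem ptime_qs (hO : PTime P O) (c : Cmd) (k : ℕ) {p : γ → List Bool × List Bool}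
    (hp : PTime P p) : PTime P (fun g => qs O c k (p g)) :=
  ptime_split (ptime_outp hO c k hp.fst hp.snd)

/-- the decision with the answers -/
def acc (O : Lang) (e : Cmd) (k : ℕ) (p : List Bool × List Bool) : Bool :=
  accU O (cmdD e) p.1 p.2 (List.replicate ((p.1.length + 2) ^ k) ())

theorem ptime_acc (hO : PTime P O) (e : Cmd) (k : ℕ) {p : γ → List Bool × List Bool}
    (hp : PTime P p) : PTime P (fun g => acc O e k (p g)) :=
  ptime_accP hO e hp.fst hp.snd ((UPoly.tb (O := P) k).comp hp.fst)

/-! ### the candidates -/

/-- a candidate: inputs and the answers so far -/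
abbrev Cd : Type := List (List Bool × List Bool)

/-- all questions of the next round -/
def allq (O : Lang) (c : Cmd) (k : ℕ) (C : Cd) : List (List Bool) := C.flatMap (qs O c k)

/-- the candidate for the next round, if the answers are given by `L` -/
def nxt (O : Lang) (c : Cmd) (k : ℕ) (L : List (List Bool)) (C : Cd) : Cd :=
  C.map fun p => (p.1, p.2 ++ (qs O c k p).map (mem L))

/-- the answers are not too long -/
def okC (k : ℕ) (C : Cd) : Bool := C.all fun p => decide (p.2.length ≤ (p.1.length + 2) ^ k)

section

variable (O) (f : List Bool → List Bool → List Bool) (c e : Cmd) (k : ℕ)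

/-- all candidates for the next round that come from `C` -/
def kids (C : Cd) : List Cd :=
  ((cuts (srt f (allq O c k C))).map fun q => nxt O c k q.1 C).filter (okC k)

/-- one round -/
def stp (Z : List Unit) (st : List Cd) : List Cd := (st.flatMap (kids O f c k)).take Z.length

/-- the candidates after the rounds -/
def fin (Z T : List Unit) (xs : List (List Bool)) : List Cd :=
  T.foldl (fun st _ => stp O f c k Z st) [xs.map fun x => (x, [])]

/-- the candidates for the answers -/
def genG (p : (List Unit × List Unit) × List (List Bool)) : List (List Bool) :=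
  ((fin O f c k p.1.1 p.1.2 p.2).map fun C => C.map (acc O e k)).take p.1.1.length

end

variable {f : List Bool → List Bool → List Bool} {c e : Cmd} {k : ℕ}

theorem ptime_takeG {u : γ → List Unit} {L : γ → List α} (hu : PTime P u)
    (hL : PTime P L) : PTime P (fun a => (L a).take (u a).length) := by
  have h := ((hu.udrop hL).udrop hL.reverse).reverse
  refine h.of_eq fun a => ?_
  rw [udrop_eq, udrop_eq, List.length_drop]
  generalize L a = l
  generalize (u a).length = k
  by_cases hk : k ≤ l.length
  · rw [← List.reverse_take (i := k)]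
    simp
  · rw [show l.length - k = 0 by omega, List.drop_zero, List.reverse_reverse,
      List.take_of_length_le (by omega)]

theorem ptime_kids (hO : PTime P O)
    (hf : PTime P (fun p : List Bool × List Bool => f p.1 p.2)) (c : Cmd) (k : ℕ)
    {C : γ → Cd} (hC : PTime P C) : PTime P (fun g => kids O f c k (C g)) := by
  unfold kids
  refine PTime.filter (f := fun _ C => okC k C) ?_ ?_
  · refine PTime.map (f := fun g q => nxt O c k q.1 (C g)) (ptime_cuts (ptime_srt hf ?_)) ?_
    · unfold allq
      exact PTime.flatMap (f := fun _ p => qs O c k p) hC (ptime_qs hO c k PTime.id.snd)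
    · unfold nxt
      refine PTime.map (l := fun p : γ × (List (List Bool) × List (List Bool)) => C p.1)
        (f := fun p r => (r.1, r.2 ++ (qs O c k r).map (mem p.2.1))) (hC.comp PTime.id.fst) ?_
      refine PTime.pair PTime.id.snd.fst (PTime.append PTime.id.snd.snd ?_)
      refine PTime.map (l := fun p : (γ × (List (List Bool) × List (List Bool))) ×
        (List Bool × List Bool) => qs O c k p.2) (f := fun p y => mem p.1.2.1 y)
        (ptime_qs hO c k PTime.id.snd) ?_
      exact ptime_mem PTime.id.fst.fst.snd.fst PTime.id.snd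
  · unfold okC
    refine PTime.all (l := fun p : γ × Cd => p.2)
      (f := fun _ p => decide (p.2.length ≤ (p.1.length + 2) ^ k)) PTime.id.snd ?_
    exact PN.le (PN.len PTime.id.snd.snd)
      (((PN.len PTime.id.snd.fst).add (PN.const 2)).pow k)

/-! ### good states -/

/-- the inputs are `xs`, and the answers are not too long -/
def Gd (k : ℕ) (xs : List (List Bool)) (C : Cd) : Prop :=
  C.map (fun p => p.1) = xs ∧ ∀ p ∈ C, p.2.length ≤ (p.1.length + 2) ^ k

/-- the bound for the size of a good candidate -/
def bdC (k n : ℕ) : ℕ := n * (n + (4 * (n + 2) ^ k + 1) + 1 + 1) + 1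

theorem sz_Gd {xs : List (List Bool)} {C : Cd} (h : Gd k xs C) : sz C ≤ bdC k (sz xs) := by
  obtain ⟨h1, h2⟩ := h
  have hlen : C.length ≤ sz xs := by
    rw [← h1]
    refine le_trans ?_ (length_le_sz _)
    rw [List.length_map]
  have hb : ∀ p ∈ C, sz p ≤ sz xs + (4 * (sz xs + 2) ^ k + 1) + 1 := by
    rintro ⟨x, a⟩ hp
    have hx : x ∈ xs := by
      rw [← h1]
      exact List.mem_map.2 ⟨_, hp, rfl⟩
    have g1 := sz_le_of_mem hx
    have g2 := h2 _ hp
    have g3 : sz a ≤ 4 * a.length + 1 := size_bits a
    have g4 : (x.length + 2) ^ k ≤ (sz xs + 2) ^ k :=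
      Nat.pow_le_pow_left (by have := length_le_sz x; omega) k
    simp only at g2
    rw [sz_pair]
    omega
  refine (sz_list_le C hb).trans ?_
  unfold bdC
  have := Nat.mul_le_mul_right (sz xs + (4 * (sz xs + 2) ^ k + 1) + 1 + 1) hlen
  omega

theorem Gd_kids {xs : List (List Bool)} {C C' : Cd} (h : Gd k xs C)
    (h' : C' ∈ kids O f c k C) : Gd k xs C' := by
  unfold kids at h'
  rw [List.mem_filter, List.mem_map] at h'
  obtain ⟨⟨q, _, rfl⟩, h2⟩ := h'
  refine ⟨?_, ?_⟩
  · rw [← h.1]
    unfold nxt
    rw [List.map_map]
    rfl
  · unfold okC at h2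
    rw [List.all_eq_true] at h2
    intro p hp
    have := h2 p hp
    rwa [decide_eq_true_eq] at this

/-- good lists of candidates -/
def GdS (k : ℕ) (Z : List Unit) (xs : List (List Bool)) (st : List Cd) : Prop :=
  st.length ≤ Z.length + 1 ∧ ∀ C ∈ st, Gd k xs C

theorem GdS_fin (Z T : List Unit) (xs : List (List Bool)) :
    GdS k Z xs (fin O f c k Z T xs) := by
  have key : ∀ (T : List Unit) (st : List Cd), GdS k Z xs st →
      GdS k Z xs (T.foldl (fun st _ => stp O f c k Z st) st) := by
    intro T
    induction T with
    | nil => intro st h; exact h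
    | cons a T ih =>
      intro st h
      rw [List.foldl_cons]
      apply ih
      unfold stp
      refine ⟨?_, ?_⟩
      · rw [List.length_take]
        omega
      · intro C hC
        have hC := List.mem_of_mem_take hC
        rw [List.mem_flatMap] at hC
        obtain ⟨C', h1, h2⟩ := hC
        exact Gd_kids (h.2 C' h1) h2
  apply key
  refine ⟨by simp, ?_⟩
  intro C hC
  rw [List.mem_singleton] at hC
  subst hC
  refine ⟨?_, ?_⟩
  · rw [List.map_map]
    exact List.map_id _
  · intro p hp
    rw [List.mem_map] at hp
    obtain ⟨x, _, rfl⟩ := hp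
    simp

theorem ptime_fin (hO : PTime P O)
    (hf : PTime P (fun p : List Bool × List Bool => f p.1 p.2)) (c : Cmd) (k : ℕ) :
    PTime P (fun p : (List Unit × List Unit) × List (List Bool) =>
      fin O f c k p.1.1 p.1.2 p.2) := by
  unfold fin
  set X : Polynomial ℕ := Polynomial.X with hX
  refine PTime.foldl (l := fun p : (List Unit × List Unit) × List (List Bool) => p.1.2)
    (i := fun p => [p.2.map fun x => (x, ([] : List Bool))])
    (s := fun p st _ => stp O f c k p.1.1 st) PTime.id.fst.snd ?_ ?_
    ((X + 1) * ((X * (X + (Polynomial.C 4 * (X + Polynomial.C 2) ^ k + 1) + 1 + 1) + 1) + 1) + 1)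
    ?_
  · refine PTime.cons ?_ (PTime.const _)
    exact PTime.map (f := fun (_ : (List Unit × List Unit) × List (List Bool)) x =>
      (x, ([] : List Bool))) PTime.id.snd (PTime.pair PTime.id.snd (PTime.const _))
  · unfold stp
    refine ptime_takeG (PTime.id.fst.fst.fst) ?_
    exact PTime.flatMap (l := fun p : ((List Unit × List Unit) × List (List Bool)) × List Cd ×
      Unit => p.2.1) (f := fun _ C => kids O f c k C) PTime.id.snd.fst
      (ptime_kids hO hf c k PTime.id.snd)
  · rintro ⟨⟨Z, T⟩, xs⟩ l' _
    have h1 := GdS_fin (O := O) (f := f) (c := c) (k := k) Z l' xs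
    unfold fin at h1
    simp only
    generalize l'.foldl (fun st _ => stp O f c k Z st) [xs.map fun x => (x, [])] = st at h1
    have h2 : ∀ C ∈ st, sz C ≤ bdC k (sz xs) := fun C hC => sz_Gd (h1.2 C hC)
    refine (sz_list_le st h2).trans ?_
    have h3 : Z.length ≤ sz ((Z, T), xs) := by
      have := length_le_sz Z
      rw [sz_pair, sz_pair]
      omega
    have h4 : sz xs ≤ sz ((Z, T), xs) := by
      rw [sz_pair]
      omega
    generalize sz ((Z, T), xs) = s at h3 h4
    have h5 : bdC k (sz xs) ≤ bdC k s := by
      unfold bdC
      gcongr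
    have h6 : st.length * (bdC k (sz xs) + 1) ≤ (s + 1) * (bdC k s + 1) :=
      Nat.mul_le_mul (h1.1.trans (by omega)) (by omega)
    simp only [hX, Polynomial.eval_add, Polynomial.eval_mul, Polynomial.eval_pow,
      Polynomial.eval_X, Polynomial.eval_C, Polynomial.eval_one]
    unfold bdC at h6
    exact Nat.add_le_add_right h6 1

theorem ptime_genG (hO : PTime P O)
    (hf : PTime P (fun p : List Bool × List Bool => f p.1 p.2)) (c e : Cmd) (k : ℕ) :
    PTime P (genG O f c e k) := by
  unfold genG
  refine ptime_takeG PTime.id.fst.fst ?_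
  refine PTime.map (f := fun _ C => C.map (acc O e k)) (ptime_fin hO hf c k) ?_
  exact PTime.map (l := fun p : ((List Unit × List Unit) × List (List Bool)) × Cd => p.2)
    (f := fun _ p => acc O e k p) PTime.id.snd (ptime_acc hO e k PTime.id.snd)

/-! ### the true candidate -/

/-- the number of candidates for the next round -/
theorem kids_length (hO : PTime P O)
    (hf : PTime P (fun p : List Bool × List Bool => f p.1 p.2)) (c : Cmd) (k : ℕ) :
    ∃ m : ℕ, ∀ (xs : List (List Bool)) (C : Cd), Gd k xs C →
      (kids O f c k C).length ≤ (sz xs + 2) ^ m := by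
  obtain ⟨Q, hQ⟩ := (ptime_kids hO hf c k (PTime.id (α := Cd))).size_le
  set X : Polynomial ℕ := Polynomial.X with hX
  obtain ⟨m, hm⟩ := exists_pow (Q.comp
    (X * (X + (Polynomial.C 4 * (X + Polynomial.C 2) ^ k + 1) + 1 + 1) + 1))
  refine ⟨m, fun xs C h => le_trans ?_ (hm (sz xs))⟩
  refine ((length_le_sz _).trans (hQ C)).trans ?_
  rw [Polynomial.eval_comp]
  apply poly_mono
  have h1 := sz_Gd h
  unfold bdC at h1
  simp only [hX, Polynomial.eval_add, Polynomial.eval_mul, Polynomial.eval_pow,
    Polynomial.eval_X, Polynomial.eval_C, Polynomial.eval_one]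
  exact h1

variable {S A : Lang} {r : ℕ → ℕ}

/-- the true candidate -/
def tru (O S : Lang) (c : Cmd) (k : ℕ) (xs : List (List Bool)) (t : ℕ) : Cd :=
  xs.map fun x => (x, answers O S c k x t)

theorem tru_mem_kids (hf : Sel f S) {xs : List (List Bool)} {t : ℕ}
    (h : ∀ x ∈ xs, (answers O S c k x (t + 1)).length ≤ (x.length + 2) ^ k) :
    tru O S c k xs (t + 1) ∈ kids O f c k (tru O S c k xs t) := by
  set L := srt f (allq O c k (tru O S c k xs t)) with hL
  obtain ⟨h1, _, h3⟩ := srt_spec hf (allq O c k (tru O S c k xs t))
  rw [← hL] at h1 h3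
  obtain ⟨s, hs, h4, h5⟩ := exists_cut h3
  have hmem : ∀ y ∈ allq O c k (tru O S c k xs t), mem (L.take s) y = S y := by
    intro y hy
    have hyL := (h1 y).2 hy
    rw [← List.take_append_drop s L, List.mem_append] at hyL
    by_cases g1 : y ∈ L.take s
    · rw [mem_iff.2 g1, h4 y g1]
    · rw [mem_false.2 g1, h5 y (hyL.resolve_left g1)]
  have hnxt : nxt O c k (L.take s) (tru O S c k xs t) = tru O S c k xs (t + 1) := by
    unfold nxt tru
    rw [List.map_map]
    apply List.map_congr_left
    intro x hx
    have hq : (qs O c k (x, answers O S c k x t)).map (mem (L.take s)) =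
        (qs O c k (x, answers O S c k x t)).map S := by
      apply List.map_congr_left
      intro y hy
      apply hmem
      unfold allq tru
      rw [List.mem_flatMap]
      exact ⟨(x, answers O S c k x t), List.mem_map.2 ⟨x, hx, rfl⟩, hy⟩
    show (x, answers O S c k x t ++ (qs O c k (x, answers O S c k x t)).map (mem (L.take s))) =
      (x, answers O S c k x (t + 1))
    rw [hq]
    rfl
  unfold kids
  rw [List.mem_filter, List.mem_map, ← hL]
  refine ⟨⟨(L.take s, L.drop s), ?_, hnxt⟩, ?_⟩
  · unfold cuts
    rw [List.mem_map]
    exact ⟨s, List.mem_range.2 (by omega), rfl⟩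
  · unfold okC tru
    rw [List.all_eq_true]
    intro p hp
    rw [List.mem_map] at hp
    obtain ⟨x, hx, rfl⟩ := hp
    rw [decide_eq_true_eq]
    exact h x hx

theorem tru_mem_fin (hf : Sel f S) {xs : List (List Bool)} {m : ℕ}
    (hm : ∀ C : Cd, Gd k xs C → (kids O f c k C).length ≤ (sz xs + 2) ^ m)
    (h : ∀ t, ∀ x ∈ xs, (answers O S c k x t).length ≤ (x.length + 2) ^ k) (Z : List Unit)
    (n : ℕ) (hZ : (sz xs + 2) ^ (m * n) ≤ Z.length) : ∀ t ≤ n,
    tru O S c k xs t ∈ fin O f c k Z (List.replicate t ()) xs ∧
      (fin O f c k Z (List.replicate t ()) xs).length ≤ (sz xs + 2) ^ (m * t) := by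
  intro t
  induction t with
  | zero =>
    intro _
    refine ⟨?_, ?_⟩
    · unfold fin tru
      simp [answers]
    · unfold fin
      simp
  | succ t ih =>
    intro ht
    obtain ⟨h1, h2⟩ := ih (by omega)
    have h3 : fin O f c k Z (List.replicate (t + 1) ()) xs =
        stp O f c k Z (fin O f c k Z (List.replicate t ()) xs) := by
      unfold fin
      rw [List.replicate_succ', List.foldl_append]
      rfl
    have h4 : ((fin O f c k Z (List.replicate t ()) xs).flatMap (kids O f c k)).length ≤
        (sz xs + 2) ^ (m * (t + 1)) := by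
      refine (length_flatMap_le (b := (sz xs + 2) ^ m) fun C hC =>
        hm C ((GdS_fin Z (List.replicate t ()) xs).2 C hC)).trans ?_
      rw [Nat.mul_succ, pow_add]
      exact Nat.mul_le_mul_right _ h2
    have h5 : (sz xs + 2) ^ (m * (t + 1)) ≤ Z.length :=
      (Nat.pow_le_pow_right (by omega) (Nat.mul_le_mul_left m ht)).trans hZ
    have h6 : fin O f c k Z (List.replicate (t + 1) ()) xs =
        (fin O f c k Z (List.replicate t ()) xs).flatMap (kids O f c k) := by
      rw [h3]
      unfold stp
      exact List.take_of_length_le (h4.trans h5)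
    rw [h6]
    exact ⟨List.mem_flatMap.2 ⟨_, h1, tru_mem_kids hf fun x hx => h (t + 1) x hx⟩, h4⟩

/-- the answers are stable after the last round -/
theorem answers_stable {x : List Bool} {s : ℕ}
    (h : answers O S c k x (s + 1) = answers O S c k x s) : ∀ t, s ≤ t →
      answers O S c k x t = answers O S c k x s := by
  intro t ht
  induction t, ht using Nat.le_induction with
  | base => rfl
  | succ t _ ih =>
    rw [answers, ih]
    rw [answers] at h
    exact h

theorem answers_length_mono {x : List Bool} {s t : ℕ} (h : s ≤ t) :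
    (answers O S c k x s).length ≤ (answers O S c k x t).length := by
  induction t, h using Nat.le_induction with
  | base => exact le_rfl
  | succ t _ ih =>
    rw [answers, List.length_append]
    omega

/-- (W4) candidates from reductions with few rounds to a p-selective set -/
theorem gen_rounds {S A : Lang} {r : ℕ → ℕ} (hS : PSelective O S)
    (h : RoundReducible O r A S) :
    ∃ (G : (List Unit × List Unit) × List (List Bool) → List (List Bool)) (c : ℕ),
      PTime O G ∧ (∀ Z T xs, (G ((Z, T), xs)).length ≤ Z.length) ∧
      ∀ Z T xs, (∀ x ∈ xs, r x.length ≤ T.length) → (sz xs + 2) ^ (c * T.length) ≤ Z.length →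
        xs.map A ∈ G ((Z, T), xs) := by
  obtain ⟨c, e, k, _, h⟩ := h
  have hO : PTime O O := PTime.ask (O := O) PTime.id
  obtain ⟨f, hf, hsel⟩ := selector hO hS
  obtain ⟨m, hm⟩ := kids_length hO hf c k
  refine ⟨genG O f c e k, m, ptime_genG hO hf c e k, fun Z T xs => ?_, fun Z T xs hT hZ => ?_⟩
  · unfold genG
    rw [List.length_take]
    exact min_le_left _ _
  · have hlen : ∀ t, ∀ x ∈ xs, (answers O S c k x t).length ≤ (x.length + 2) ^ k := by
      intro t x _
      obtain ⟨h1, h2, _⟩ := h x
      rcases le_total t (r x.length) with ht | ht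
      · exact (answers_length_mono ht).trans h1
      · rw [answers_stable h2 t ht]
        exact h1
    obtain ⟨g1, g2⟩ := tru_mem_fin hsel (hm xs) hlen Z T.length hZ T.length le_rfl
    have hT' : List.replicate T.length () = T := unary_eq T
    rw [hT'] at g1 g2
    unfold genG
    have g3 : ((fin O f c k Z T xs).map fun C => C.map (acc O e k)).length ≤ Z.length := by
      rw [List.length_map]
      exact g2.trans hZ
    show xs.map A ∈ ((fin O f c k Z T xs).map fun C => C.map (acc O e k)).take Z.length
    rw [List.take_of_length_le g3, List.mem_map]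
    refine ⟨_, g1, ?_⟩
    unfold tru
    rw [List.map_map]
    apply List.map_congr_left
    intro x hx
    obtain ⟨_, h2, _, h4⟩ := h x
    show acc O e k (x, answers O S c k x T.length) = A x
    rw [answers_stable h2 T.length (hT x hx)]
    unfold acc
    rw [Bool.eq_iff_iff, accU_iff, List.length_replicate]
    exact h4

end Pool.Agent.TT
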