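import Pool.Agent.Lib_helper78.TT.PN
import Pool.Agent.Lib_helper78.TT.Defs
import Pool.Agent.Lib_helper78.PCW.Defs

/-!
# Few adaptive queries are one round of parallel queries (MP_5d94c0_lc)

A reduction with `O(log n)` adaptive queries has a query tree of polynomial size; all its nodes are
asked in one round.
-/

set_option autoImplicit false
set_option linter.unusedSectionVars false

namespace Pool.Agent.TT

open Pool.Agent.CK Pool.Agent.CKP Pool.Agent.PSL Pool.Agent.PCL

variable {O P : Lang} {γ α β : Type} [ToD γ] [ToD α] [ToD β]

/-! ### lists of strings as strings -/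

/-- the code of a string -/
def enc1 (y : List Bool) : List Bool := (y.flatMap fun b => [true, b]) ++ [false]

/-- the code of a list of strings -/
def joinS (L : List (List Bool)) : List Bool := L.flatMap enc1

theorem split_enc1 (y w : List Bool) : split (enc1 y ++ w) = y :: split w := by
  induction y with
  | nil => rfl
  | cons b y ih =>
    have h : enc1 (b :: y) ++ w = true :: b :: (enc1 y ++ w) := by
      simp [enc1]
    rw [h, split, ih]

theorem split_joinS (L : List (List Bool)) : split (joinS L) = L := by
  induction L with
  | nil => rfl
  | cons y L ih =>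
    have h : joinS (y :: L) = enc1 y ++ joinS L := by simp [joinS]
    rw [h, split_enc1, ih]

theorem ptime_enc1 {y : γ → List Bool} (hy : PTime P y) : PTime P (fun x => enc1 (y x)) :=
  (PTime.flatMap (f := fun _ b => [true, b]) hy (PTime.cons (PTime.const true)
    (PTime.cons PTime.id.snd (PTime.const [])))).append (PTime.const _)

theorem ptime_joinS {L : γ → List (List Bool)} (hL : PTime P L) :
    PTime P (fun x => joinS (L x)) :=
  PTime.flatMap (f := fun _ y => enc1 y) hL (ptime_enc1 PTime.id.snd)

/-! ### numbering of strings -/

/-- the string number `j` -/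
def strJ (j : ℕ) : List Bool := (Nat.bits (j + 1)).dropLast

/-- the number of a string, plus one -/
def posS (u : List Bool) : ℕ := ofBits (u ++ [true])

theorem pow_le_posS (u : List Bool) : 2 ^ u.length ≤ posS u := by
  unfold posS
  induction u with
  | nil => simp [Nat.bit_val]
  | cons b u ih =>
    rw [List.cons_append, ofBits_cons, List.length_cons, pow_succ, Nat.bit_val]
    omega

theorem posS_lt (u : List Bool) : posS u < 2 ^ (u.length + 1) := by
  have := ofBits_lt (u ++ [true])
  rw [List.length_append, List.length_singleton] at this
  exact this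

theorem posS_pos (u : List Bool) : 0 < posS u :=
  lt_of_lt_of_le (Nat.two_pow_pos _) (pow_le_posS u)

theorem posS_lt_append (u : List Bool) (b : Bool) : posS u < posS (u ++ [b]) := by
  have h1 := posS_lt u
  have h2 := pow_le_posS (u ++ [b])
  rw [List.length_append, List.length_singleton] at h2
  exact lt_of_lt_of_le h1 h2

theorem strJ_pos {u : List Bool} {j : ℕ} (h : posS u = j + 1) : strJ j = u := by
  unfold strJ
  rw [← h]
  unfold posS
  rw [bits_ofBits_snoc]
  simp

/-! ### the output of a program in fixed time -/

/-- the output of the program `c` for `x`, `u` in time `(|x| + 2)^k` -/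
def outk (O : Lang) (c : Cmd) (k : ℕ) (x u : List Bool) : List Bool :=
  (run O c x u ((x.length + 2) ^ k)).2 0

theorem ptime_outk (hO : PTime P O) (c : Cmd) (k : ℕ) {x u : γ → List Bool} (hx : PTime P x)
    (hu : PTime P u) : PTime P (fun a => outk O c k (x a) (u a)) := by
  have hN := (UPoly.tb (O := P) k).comp hx
  have hrun := ptime_runG (O := P) (γ := γ) (P := fun _ => O)
    (hO.comp PTime.id.snd) (PTime.const (cmdD c))
    (PTime.cons hx (PTime.cons hu (PTime.const []))) hN
  refine (PTime.headD hrun.snd (PTime.const [])).of_eq fun p => ?_
  have h1 := outU_eq (O := O) c (x p) (u p) (List.replicate (((x p).length + 2) ^ k) ())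
  rw [List.length_replicate] at h1
  unfold outU at h1
  exact h1

/-! ### the query tree -/

/-- all queries of the tree -/
def treeQ (O : Lang) (c : Cmd) (k K : ℕ) (x : List Bool) : List (List Bool) :=
  (List.range ((x.length + 2) ^ K)).map fun j => (outk O c k x (strJ j)).tail

/-- one step of the evaluation -/
def estep (O : Lang) (c : Cmd) (k : ℕ) (x : List Bool) (q : List Bool × List Bool) (j : ℕ) :
    List Bool × List Bool :=
  if (decide (posS q.1 = j + 1) && (outk O c k x q.1).headD false) = true then
    (q.1 ++ [q.2.headD false], q.2.tail) else (q.1, q.2.tail)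

/-- the leaf of the tree -/
def leaf (O : Lang) (c : Cmd) (k K : ℕ) (x ans : List Bool) : List Bool :=
  ((List.range ((x.length + 2) ^ K)).foldl (estep O c k x) ([], ans)).1

theorem ptime_treeQ (hO : PTime P O) (c : Cmd) (k K : ℕ) :
    PTime P (fun x : List Bool => treeQ O c k K x) := by
  have hM : PTime P (fun x : List Bool => List.replicate ((x.length + 2) ^ K) ()) :=
    (UPoly.tb (O := P) K).comp PTime.id
  have h := PTime.map (l := fun x : List Bool => CKP.rangeU (List.replicate ((x.length + 2) ^ K) ()))
    (f := fun x j => (outk O c k x (strJ j.length)).tail) (PTime.rangeU hM)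
    (PTime.tail (ptime_outk hO c k PTime.id.fst (PTime.dropLast (PTime.bits
      (PTime.nat_add (PTime.length PTime.id.snd) (PTime.const 1))))))
  refine h.of_eq fun x => ?_
  rw [rangeU_replicate, List.map_map]
  unfold treeQ
  refine List.map_congr_left fun j _ => ?_
  simp

theorem ptime_leaf (hO : PTime P O) (c : Cmd) (k K : ℕ) :
    PTime P (fun p : List Bool × List Bool => leaf O c k K p.1 p.2) := by
  have hM : PTime P (fun p : List Bool × List Bool =>
      List.replicate ((p.1.length + 2) ^ K) ()) :=
    (UPoly.tb (O := P) K).comp PTime.id.fst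
  have hcur : PTime P (fun p : (List Bool × List Bool) × (List Bool × List Bool) × List Unit =>
      p.2.1.1) := PTime.id.snd.fst.fst
  have hrest : PTime P (fun p : (List Bool × List Bool) × (List Bool × List Bool) × List Unit =>
      p.2.1.2) := PTime.id.snd.fst.snd
  have hc : PTime P (fun p : (List Bool × List Bool) × (List Bool × List Bool) × List Unit =>
      decide (posS p.2.1.1 = p.2.2.length + 1) && (outk O c k p.1.1 p.2.1.1).headD false) :=
    (PTime.nat_eq (PTime.ofBits (hcur.append (PTime.const [true])))
      (PTime.nat_add (PTime.length PTime.id.snd.snd) (PTime.const 1))).and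
      (PTime.headD (ptime_outk hO c k PTime.id.fst.fst hcur) (PTime.const false))
  have hs : PTime P (fun p : (List Bool × List Bool) × (List Bool × List Bool) × List Unit =>
      estep O c k p.1.1 p.2.1 p.2.2.length) :=
    PTime.ite hc ((hcur.append (PTime.cons (PTime.headD hrest (PTime.const false))
      (PTime.const []))).pair (PTime.tail hrest)) (hcur.pair (PTime.tail hrest))
  have h := PTime.foldl_add
    (l := fun p : List Bool × List Bool => CKP.rangeU (List.replicate ((p.1.length + 2) ^ K) ()))
    (i := fun p => (([] : List Bool), p.2))
    (s := fun p q j => estep O c k p.1 q j.length) (PTime.rangeU hM)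
    ((PTime.const []).pair PTime.id.snd) hs (Polynomial.C 4) (by
      intro p q j _
      rw [Polynomial.eval_C]
      have h1 := sz_tail_le q.2
      have h2 : sz (q.1 ++ [q.2.headD false]) ≤ sz q.1 + 4 := by
        have h3 : ∀ (l : List Bool) (b : Bool), sz (l ++ [b]) ≤ sz l + 4 := by
          intro l b
          induction l with
          | nil =>
            rw [List.nil_append, sz_cons]
            have := num_bool_sz b
            omega
          | cons a l ih =>
            rw [List.cons_append, sz_cons, sz_cons]
            omega
        exact h3 _ _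
      unfold estep
      split_ifs
      · rw [sz_pair]
        have : sz q = sz q.1 + sz q.2 + 1 := rfl
        omega
      · rw [sz_pair]
        have : sz q = sz q.1 + sz q.2 + 1 := rfl
        omega)
  refine h.fst.of_eq fun p => ?_
  rw [rangeU_replicate, List.foldl_map]
  unfold leaf
  simp only [List.length_replicate]

/-! ### the evaluation finds the leaf -/

theorem leaf_spec {c : Cmd} {k K : ℕ} {x : List Bool} {S : Lang} {m : ℕ} {a : ℕ → List Bool}
    (ha0 : a 0 = []) (hstep : ∀ i < m, ∃ y, outk O c k x (a i) = true :: y ∧
      a (i + 1) = a i ++ [S y])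
    (hend : (outk O c k x (a m)).headD false = false)
    (hm : 2 ^ (m + 1) ≤ (x.length + 2) ^ K) :
    leaf O c k K x ((treeQ O c k K x).map S) = a m := by
  set M := (x.length + 2) ^ K with hM
  set ans := (treeQ O c k K x).map S with hans
  have hlen : ∀ i ≤ m, (a i).length = i := by
    intro i
    induction i with
    | zero => intro _; rw [ha0]; rfl
    | succ i ih =>
      intro hi
      obtain ⟨y, _, h2⟩ := hstep i (by omega)
      rw [h2, List.length_append, ih (by omega)]
      rfl
  have hanslen : ans.length = M := by
    rw [hans, List.length_map]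
    unfold treeQ
    rw [List.length_map, List.length_range]
  have key : ∀ t ≤ M, ∃ i ≤ m, (i = m ∨ t < posS (a i)) ∧
      (List.range t).foldl (estep O c k x) ([], ans) = (a i, ans.drop t) := by
    intro t
    induction t with
    | zero =>
      intro _
      refine ⟨0, Nat.zero_le _, Or.inr (posS_pos _), ?_⟩
      rw [List.range_zero, List.foldl_nil, List.drop_zero, ha0]
    | succ t ih =>
      intro ht
      obtain ⟨i, him, hi, hf⟩ := ih (by omega)
      rw [List.range_succ, List.foldl_append, hf, List.foldl_cons, List.foldl_nil]
      have htl : (ans.drop t).tail = ans.drop (t + 1) := by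
        rw [List.tail_drop]
      unfold estep
      simp only
      by_cases hc : (decide (posS (a i) = t + 1) && (outk O c k x (a i)).headD false) = true
      · rw [if_pos hc]
        rw [Bool.and_eq_true, decide_eq_true_eq] at hc
        have him' : i < m := by
          rcases Nat.lt_or_ge i m with h | h
          · exact h
          · exfalso
            have : i = m := le_antisymm him h
            rw [this, hend] at hc
            exact absurd hc.2 (by simp)
        obtain ⟨y, hy, hy2⟩ := hstep i him'
        refine ⟨i + 1, him', Or.inr ?_, ?_⟩
        · have h1 := posS_lt_append (a i) (S y)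
          rw [← hy2] at h1
          omega
        · rw [hy2, htl]
          congr 3
          have hj : (ans.drop t).headD false = S y := by
            have h1 : ans.drop t = ans[t]'(by omega) :: ans.drop (t + 1) :=
              List.drop_eq_getElem_cons (by omega)
            rw [h1, List.headD_cons]
            simp only [hans, treeQ, List.getElem_map, List.getElem_range]
            rw [strJ_pos hc.1, hy, List.tail_cons]
          exact hj
      · rw [if_neg hc]
        refine ⟨i, him, ?_, by rw [htl]⟩
        rcases Nat.lt_or_ge i m with h | h
        · right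
          rcases hi with h1 | h1
          · omega
          · obtain ⟨y, hy, _⟩ := hstep i h
            rw [hy] at hc
            rcases Nat.lt_or_ge (t + 1) (posS (a i)) with h2 | h2
            · exact h2
            · exfalso
              apply hc
              have h3 : posS (a i) = t + 1 := by omega
              simp [h3]
        · exact Or.inl (le_antisymm him h)
  obtain ⟨i, him, hi, hf⟩ := key M le_rfl
  unfold leaf
  rw [← hM, hf]
  rcases hi with h | h
  · rw [h]
  · exfalso
    have h1 := posS_lt (a i)
    rw [hlen i him] at h1
    have h2 : 2 ^ (i + 1) ≤ 2 ^ (m + 1) := Nat.pow_le_pow_right (by norm_num) (by omega)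
    omega

/-! ### the reduction -/

/-- **Logarithmically many adaptive queries are one round of parallel queries.** -/
theorem roundReducible_of_fewQueries {D S : Lang} {s : ℕ → ℕ} {c₀ : ℕ}
    (hs : ∀ n, s n ≤ c₀ * Nat.log 2 (n + 2) + c₀)
    (h : PCW.FewQueriesReducible O D S s) : RoundReducible O (fun _ => 1) D S := by
  obtain ⟨c, k, n0, h⟩ := h
  have hO : PTime O O := PTime.ask (O := O) PTime.id
  set M0 := (n0 + 2) ^ k with hM0
  set K := c₀ + c₀ + M0 + 1 with hK
  have hK1 : 1 ≤ K := by omega
  -- the two programs
  have hC : PTime O (fun p : List Bool × List Bool =>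
      if p.2.isEmpty = true then joinS (treeQ O c k K p.1) else []) :=
    PTime.ite (PTime.isNil PTime.id.snd) (ptime_joinS ((ptime_treeQ hO c k K).comp PTime.id.fst))
      (PTime.const [])
  have hE : PTime O (fun p : List Bool × List Bool =>
      (outk O c k p.1 (leaf O c k K p.1 p.2)).tail) :=
    PTime.tail (ptime_outk hO c k PTime.id.fst (ptime_leaf hO c k K))
  obtain ⟨cC, kC, hcC⟩ := two_inputs hC
  obtain ⟨cE, kE, hcE⟩ := two_inputs hE
  set k' := kC + K + (K + 1) * kE with hk'
  -- the number of queries
  have hbound : ∀ (x : List Bool) (m : ℕ), m ≤ (x.length + 2) ^ k →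
      (n0 ≤ x.length → m ≤ s x.length) → 2 ^ (m + 1) ≤ (x.length + 2) ^ K := by
    intro x m h1 h2
    have hm : m ≤ c₀ * Nat.log 2 (x.length + 2) + c₀ + M0 := by
      rcases Nat.lt_or_ge x.length n0 with hx | hx
      · have : (x.length + 2) ^ k ≤ M0 := Nat.pow_le_pow_left (by omega) k
        omega
      · have := h2 hx
        have := hs x.length
        omega
    calc 2 ^ (m + 1) ≤ 2 ^ (c₀ * Nat.log 2 (x.length + 2) + (c₀ + M0 + 1)) :=
          Nat.pow_le_pow_right (by norm_num) (by omega)
      _ = (2 ^ Nat.log 2 (x.length + 2)) ^ c₀ * 2 ^ (c₀ + M0 + 1) := by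
          rw [pow_add, ← pow_mul, Nat.mul_comm (Nat.log 2 (x.length + 2)) c₀]
      _ ≤ (x.length + 2) ^ c₀ * (x.length + 2) ^ (c₀ + M0 + 1) := by
          apply Nat.mul_le_mul
          · exact Nat.pow_le_pow_left (Nat.pow_log_le_self 2 (by omega)) c₀
          · exact Nat.pow_le_pow_left (by omega) _
      _ = (x.length + 2) ^ K := by
          rw [← pow_add]
          congr 1
          omega
  have hout : ∀ x a : List Bool, outp O cC k' x a =
      if a.isEmpty = true then joinS (treeQ O c k K x) else [] := by
    intro x a
    unfold outp
    rw [NE_run_stable (hcC x a).1 (Nat.pow_le_pow_right (by omega) (by omega))]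
    exact (hcC x a).2
  have hans1 : ∀ x : List Bool, answers O S cC k' x 1 = (treeQ O c k K x).map S := by
    intro x
    rw [answers, answers, hout, List.nil_append]
    rw [if_pos (by rfl), split_joinS]
  have hlenQ : ∀ x : List Bool, ((treeQ O c k K x).map S).length = (x.length + 2) ^ K := by
    intro x
    rw [List.length_map]
    unfold treeQ
    rw [List.length_map, List.length_range]
  have hpos : ∀ x : List Bool, 0 < (x.length + 2) ^ K := fun x => Nat.pow_pos (by omega)
  refine ⟨cC, cE, k', ?_, ?_⟩
  · intro x a
    have h1 := (hcC x a).1
    unfold Halts at h1 ⊢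
    rw [NE_run_stable (hcC x a).1 (Nat.pow_le_pow_right (by omega) (by omega))]
    exact h1
  · intro x
    have e1 := hans1 x
    have htime : (x.length + ((treeQ O c k K x).map S).length + 2) ^ kE ≤
        (x.length + 2) ^ k' := by
      rw [hlenQ]
      have h1 : x.length + (x.length + 2) ^ K + 2 ≤ (x.length + 2) ^ (K + 1) := by
        have h2 : x.length + 2 ≤ (x.length + 2) ^ K := by
          calc x.length + 2 = (x.length + 2) ^ 1 := (pow_one _).symm
            _ ≤ (x.length + 2) ^ K := Nat.pow_le_pow_right (by omega) hK1
        have h3 : (x.length + 2) ^ (K + 1) = (x.length + 2) ^ K * (x.length + 2) := pow_succ _ _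
        have h4 : (x.length + 2) ^ K * 2 ≤ (x.length + 2) ^ K * (x.length + 2) :=
          Nat.mul_le_mul_left _ (by omega)
        omega
      calc (x.length + (x.length + 2) ^ K + 2) ^ kE ≤ ((x.length + 2) ^ (K + 1)) ^ kE :=
            Nat.pow_le_pow_left h1 kE
        _ = (x.length + 2) ^ ((K + 1) * kE) := by rw [← pow_mul]
        _ ≤ (x.length + 2) ^ k' := Nat.pow_le_pow_right (by omega) (by omega)
    have hh := hcE x ((treeQ O c k K x).map S)
    have hstab := NE_run_stable hh.1 htime
    obtain ⟨m, a, hm1, hm2, ha0, _, hq, hend⟩ := h x
    have hleaf : leaf O c k K x ((treeQ O c k K x).map S) = a m := by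
      refine leaf_spec ha0 (fun i hi => ?_) ?_ (hbound x m hm1 hm2)
      · obtain ⟨y, hy1, hy2⟩ := hq i hi
        exact ⟨y, hy1, hy2⟩
      · show ((run O c x (a m) ((x.length + 2) ^ k)).2 0).headD false = false
        rw [hend]
        rfl
    refine ⟨?_, ?_, ?_, ?_⟩
    · show (answers O S cC k' x 1).length ≤ _
      rw [e1, hlenQ]
      exact Nat.pow_le_pow_right (by omega) (by omega)
    · show answers O S cC k' x (1 + 1) = answers O S cC k' x 1
      rw [answers, e1, hout, if_neg]
      · simp [split]
      · rw [List.isEmpty_iff]
        intro h0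
        have := hlenQ x
        rw [h0] at this
        have := hpos x
        simp only [List.length_nil] at *
        omega
    · show Halts O cE x (answers O S cC k' x 1) _
      rw [e1]
      unfold Halts
      rw [hstab]
      exact hh.1
    · show Accepts O cE x (answers O S cC k' x 1) _ ↔ _
      rw [e1]
      unfold Accepts
      rw [hstab, hh.2]
      have h1 : (run O cE x ((treeQ O c k K x).map S)
          ((x.length + ((treeQ O c k K x).map S).length + 2) ^ kE)).1 = [] := hh.1
      rw [h1]
      simp only [hleaf]
      have h2 : outk O c k x (a m) = [false, D x] := hend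
      rw [h2]
      simp

end Pool.Agent.TT
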