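import Pool.Agent.Lib_helper78.TT.Time
import Pool.Agent.Lib_helper78.TT.W1
import Pool.Agent.Lib_helper78.TT.W4
import Pool.Agent.Lib_helper78.TT.W6

/-!
# Assembly (MP_5d94c0_lc)
-/

set_option autoImplicit false
set_option linter.unusedSectionVars false

namespace Pool.Agent.TT

open Pool.Agent.CK Pool.Agent.CKP Pool.Agent.PSL Pool.Agent.PCL

variable {O : Lang}

theorem search_complete (d : Cmd) (k : ℕ) : ∃ e : ℕ, ∀ (g : List (List Bool) → List (List Bool))
    (x : List Bool) (N : List Unit), x.length ≤ N.length → (x.length + 2) ^ k < N.length →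
    (∀ qs : List (List Bool), sz qs ≤ (N.length + 2) ^ e →
      qs.map (QL O d k) ∈ g qs ∧ (g qs).length < 2 ^ N.length) →
    (∃ y, wit O d k x y = true) → search g O d k x N ≠ [] :=
  search_complete_of (QL_qcode d k)

theorem exists_big (C : ℕ) : ∃ b, 2 ≤ b ∧ ∀ v, b ≤ v → v ^ C < 2 ^ v := by
  have h := tendsto_pow_const_div_const_pow_of_one_lt C (r := (2 : ℝ)) (by norm_num)
  have h1 := h.eventually (gt_mem_nhds (show (0 : ℝ) < 1 by norm_num))
  rw [Filter.eventually_atTop] at h1
  obtain ⟨b, hb⟩ := h1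
  refine ⟨max b 2, le_max_right _ _, fun v hv => ?_⟩
  have h2 := hb v ((le_max_left _ _).trans hv)
  rw [div_lt_one (by positivity)] at h2
  exact_mod_cast h2

theorem add_le_pow (n b : ℕ) (hb : 1 ≤ b) : n + b ≤ (n + 2) ^ b := by
  induction b, hb using Nat.le_induction with
  | base => rw [pow_one]; omega
  | succ b _ ih =>
    rw [pow_succ]
    have h1 : 1 ≤ (n + 2) ^ b := Nat.one_le_pow _ _ (by omega)
    nlinarith

/-- the unary number `N` -/
def NN (b k : ℕ) (x : List Bool) (R : List Unit) : List Unit :=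
  un ((x.length + R.length + b) ^ (k + 2))

/-- the algorithm: all numbers of rounds and all budgets up to `M` are tried -/
def alg (G : (List Unit × List Unit) × List (List Bool) → List (List Bool)) (O : Lang) (d : Cmd)
    (k b : ℕ) (p : List Bool × List Unit) : Bool :=
  (rangeU (() :: p.2)).any fun R => (rangeU (() :: p.2)).any fun Z =>
    !(search (fun qs => G ((Z, R), qs)) O d k p.1 (NN b k p.1 R)).isEmpty

theorem ptime_alg {G : (List Unit × List Unit) × List (List Bool) → List (List Bool)}
    (hG : PTime O G) (d : Cmd) (k b : ℕ) : PTime O (alg G O d k b) := by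
  unfold alg
  refine PTime.any (l := fun p : List Bool × List Unit => rangeU (() :: p.2))
    (f := fun p R => (rangeU (() :: p.2)).any fun Z =>
      !(search (fun qs => G ((Z, R), qs)) O d k p.1 (NN b k p.1 R)).isEmpty)
    (PTime.rangeU (PTime.cons (PTime.const ()) PTime.id.snd)) ?_
  refine PTime.any (l := fun p : (List Bool × List Unit) × List Unit => rangeU (() :: p.1.2))
    (f := fun p Z => !(search (fun qs => G ((Z, p.2), qs)) O d k p.1.1 (NN b k p.1.1 p.2)).isEmpty)
    (PTime.rangeU (PTime.cons (PTime.const ()) PTime.id.fst.snd)) ?_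
  refine (PTime.isNil ?_).not
  refine ptime_search (γ := ((List Bool × List Unit) × List Unit) × List Unit)
    (G := fun p qs => G ((p.2, p.1.2), qs)) (PTime.ask (O := O) PTime.id) d k ?_
    PTime.id.fst.fst.fst ?_
  · exact hG.comp ((PTime.id.fst.snd.pair PTime.id.fst.fst.snd).pair PTime.id.snd)
  · exact ((((PN.len PTime.id.fst.fst.fst).add (PN.len PTime.id.fst.snd)).add
      (PN.const b)).pow (k + 2))

theorem un_mem_range {n : ℕ} {M : List Unit} (h : n ≤ M.length) : un n ∈ rangeU (() :: M) := by
  rw [rangeU_eq, List.mem_map, List.length_cons]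
  exact ⟨n, List.mem_range.2 (by omega), rfl⟩

/-- The general theorem: for every language `D` in `NP` there is a language `B` in `NP`, such that
`D` can be decided quickly if `B` reduces with few rounds to a p-selective language. -/
theorem core {D : Lang} (hD : InNP O D) : ∃ B : Lang, InNP O B ∧ ∀ S : Lang, PSelective O S →
    ∀ r : ℕ → ℕ, RoundReducible O r B S →
    ∃ (F : List Bool × List Unit → Bool) (e : ℕ), PTime O F ∧ ∀ (x : List Bool) (M : List Unit),
      (F (x, M) = true → D x = true) ∧
      ∀ R : ℕ, (∀ n ≤ (x.length + R + 2) ^ e, r n ≤ R) →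
        (x.length + R + 2) ^ (e * (R + 1)) ≤ M.length → D x = true → F (x, M) = true := by
  obtain ⟨d, k, _, hd⟩ := hD
  refine ⟨QL O d k, QL_inNP d k, fun S hS r hr => ?_⟩
  obtain ⟨G, c, hG, hG1, hG2⟩ := gen_rounds hS hr
  obtain ⟨e0, he0⟩ := search_complete (O := O) d k
  obtain ⟨b, hb2, hb⟩ := exists_big ((k + 3) * ((e0 + 1) * c))
  set C := (k + 3) * ((e0 + 1) * c) with hC
  refine ⟨alg G O d k b, b * C + b * ((k + 3) * e0) + 1, ptime_alg hG d k b, fun x M => ⟨?_, ?_⟩⟩
  · intro h
    unfold alg at h
    rw [List.any_eq_true] at h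
    obtain ⟨R, _, h⟩ := h
    rw [List.any_eq_true] at h
    obtain ⟨Z, _, h⟩ := h
    rw [Bool.not_eq_true', List.isEmpty_eq_false_iff] at h
    obtain ⟨y, hy⟩ := List.exists_mem_of_ne_nil _ h
    rw [hd x]
    exact ⟨y, wit_iff.1 (search_sound y hy)⟩
  · intro R hR hM hx
    set e := b * C + b * ((k + 3) * e0) + 1 with he
    rw [hd x] at hx
    have hw : ∃ y, wit O d k x y = true := by
      obtain ⟨y, hy⟩ := hx
      exact ⟨y, wit_iff.2 hy⟩
    set v := x.length + R + b with hv
    have hvb : v ^ C < 2 ^ v := hb v (by omega)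
    have hN : (NN b k x (un R)).length = v ^ (k + 2) := by
      unfold NN
      rw [un_length, un_length]
    have hv2 : 2 ≤ v := by omega
    have hNk : v ^ (k + 2) + 2 ≤ v ^ (k + 3) := by
      have h1 : v ^ (k + 3) = v * v ^ (k + 2) := by ring
      have h2 : 2 ≤ v ^ (k + 2) := by
        calc 2 ≤ v := hv2
          _ = v ^ 1 := (pow_one v).symm
          _ ≤ v ^ (k + 2) := Nat.pow_le_pow_right (by omega) (by omega)
      rw [h1]
      nlinarith
    have hvw : v ≤ (x.length + R + 2) ^ b := add_le_pow _ _ (by omega)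
    -- the budget
    set z := (v ^ (k + 2) + 2) ^ ((e0 + 1) * c * R) with hz
    have hz1 : z ≤ v ^ (C * R) := by
      calc z ≤ (v ^ (k + 3)) ^ ((e0 + 1) * c * R) := Nat.pow_le_pow_left hNk _
        _ = v ^ (C * R) := by rw [← pow_mul, hC]; congr 1; ring
    have hzM : z ≤ M.length := by
      refine (hz1.trans ?_).trans hM
      calc v ^ (C * R) ≤ ((x.length + R + 2) ^ b) ^ (C * R) := Nat.pow_le_pow_left hvw _
        _ = (x.length + R + 2) ^ (b * (C * R)) := by rw [← pow_mul]
        _ ≤ (x.length + R + 2) ^ (e * (R + 1)) := by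
          apply Nat.pow_le_pow_right (by omega)
          rw [he]
          nlinarith [Nat.zero_le (b * ((k + 3) * e0) * (R + 1)), Nat.zero_le (b * C)]
    have hz2 : z < 2 ^ v ^ (k + 2) := by
      calc z ≤ v ^ (C * R) := hz1
        _ ≤ v ^ (C * v) := Nat.pow_le_pow_right (by omega) (Nat.mul_le_mul_left _ (by omega))
        _ = (v ^ C) ^ v := by rw [pow_mul]
        _ < (2 ^ v) ^ v := Nat.pow_lt_pow_left hvb (by omega)
        _ = 2 ^ v ^ 2 := by rw [← pow_mul]; congr 1; ring
        _ ≤ 2 ^ v ^ (k + 2) := Nat.pow_le_pow_right (by norm_num)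
            (Nat.pow_le_pow_right (by omega) (by omega))
    have hRM : R ≤ M.length := by
      refine le_trans ?_ hM
      calc R ≤ (x.length + R + 2) ^ 1 := by rw [pow_one]; omega
        _ ≤ (x.length + R + 2) ^ (e * (R + 1)) := by
          apply Nat.pow_le_pow_right (by omega)
          rw [he]
          nlinarith [Nat.zero_le (b * C * (R + 1)), Nat.zero_le (b * ((k + 3) * e0) * (R + 1))]
    have hfin := he0 (fun qs => G ((un z, un R), qs)) x (NN b k x (un R)) (by
        rw [hN]
        calc x.length ≤ v ^ 1 := by rw [pow_one]; omega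
          _ ≤ v ^ (k + 2) := Nat.pow_le_pow_right (by omega) (by omega)) (by
        rw [hN]
        calc (x.length + 2) ^ k ≤ v ^ k := Nat.pow_le_pow_left (by omega) k
          _ < v ^ (k + 2) := Nat.pow_lt_pow_right (by omega) (by omega)) (by
        intro qs hqs
        rw [hN] at hqs ⊢
        refine ⟨hG2 _ _ _ ?_ ?_, ?_⟩
        · intro q hq
          rw [un_length]
          apply hR
          calc q.length ≤ sz q := length_le_sz q
            _ ≤ sz qs := sz_le_of_mem hq
            _ ≤ (v ^ (k + 2) + 2) ^ e0 := hqs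
            _ ≤ (v ^ (k + 3)) ^ e0 := Nat.pow_le_pow_left hNk _
            _ = v ^ ((k + 3) * e0) := by rw [← pow_mul]
            _ ≤ ((x.length + R + 2) ^ b) ^ ((k + 3) * e0) := Nat.pow_le_pow_left hvw _
            _ = (x.length + R + 2) ^ (b * ((k + 3) * e0)) := by rw [← pow_mul]
            _ ≤ (x.length + R + 2) ^ e := by
              apply Nat.pow_le_pow_right (by omega)
              rw [he]
              omega
        · rw [un_length, un_length, hz]
          have h1 : sz qs + 2 ≤ (v ^ (k + 2) + 2) ^ (e0 + 1) := by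
            have h2 : 1 ≤ (v ^ (k + 2) + 2) ^ e0 := Nat.one_le_pow _ _ (by omega)
            have h3 : 2 ≤ v ^ (k + 2) := by
              calc 2 ≤ v := hv2
                _ = v ^ 1 := (pow_one v).symm
                _ ≤ v ^ (k + 2) := Nat.pow_le_pow_right (by omega) (by omega)
            rw [pow_succ]
            nlinarith
          calc (sz qs + 2) ^ (c * R) ≤ ((v ^ (k + 2) + 2) ^ (e0 + 1)) ^ (c * R) :=
                Nat.pow_le_pow_left h1 _
            _ = (v ^ (k + 2) + 2) ^ ((e0 + 1) * c * R) := by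
              rw [← pow_mul]
              congr 1
              ring
        · refine lt_of_le_of_lt (hG1 _ _ _) ?_
          rw [un_length]
          exact hz2) hw
    unfold alg
    rw [List.any_eq_true]
    refine ⟨un R, un_mem_range hRM, ?_⟩
    rw [List.any_eq_true]
    refine ⟨un z, un_mem_range hzM, ?_⟩
    rw [Bool.not_eq_true', List.isEmpty_eq_false_iff]
    exact hfin

/-- a constant number of rounds -/
theorem const_case {D : Lang} (hD : InNP O D) : ∃ B : Lang, InNP O B ∧ ∀ S : Lang,
    PSelective O S → ∀ r : ℕ, RoundReducible O (fun _ => r) B S → InP O D := by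
  obtain ⟨B, hB, h⟩ := core hD
  refine ⟨B, hB, fun S hS r hr => ?_⟩
  obtain ⟨F, e, hF, hF2⟩ := h S hS _ hr
  have hN : PTime O (fun x : List Bool =>
      (x, List.replicate ((x.length + r + 2) ^ (e * (r + 1))) ())) :=
    PTime.id.pair ((((PN.len PTime.id).add (PN.const r)).add (PN.const 2)).pow _)
  refine inP_of ((hF.comp hN).of_eq fun x => ?_)
  obtain ⟨h1, h2⟩ := hF2 x (List.replicate ((x.length + r + 2) ^ (e * (r + 1))) ())
  rw [Bool.eq_iff_iff]
  refine ⟨h1, h2 r (fun _ _ => le_rfl) ?_⟩
  rw [List.length_replicate]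

/-- the general case, on the machine -/
theorem machine_rounds {D : Lang} (hD : InNP O D) : ∃ B : Lang, InNP O B ∧ ∀ S : Lang,
    PSelective O S → ∀ r : ℕ → ℕ, RoundReducible O r B S →
    ∃ (c : Cmd) (e : ℕ), ∀ (x : List Bool) (m : ℕ),
      Halts O c x (List.replicate m true) ((x.length + m + 2) ^ e) ∧
      (Accepts O c x (List.replicate m true) ((x.length + m + 2) ^ e) → D x = true) ∧
      ∀ R : ℕ, (∀ n ≤ (x.length + R + 2) ^ e, r n ≤ R) →
        (x.length + R + 2) ^ (e * (R + 1)) ≤ m → D x = true →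
        Accepts O c x (List.replicate m true) ((x.length + m + 2) ^ e) := by
  obtain ⟨B, hB, h⟩ := core hD
  refine ⟨B, hB, fun S hS r hr => ?_⟩
  obtain ⟨F, e, hF, hF2⟩ := h S hS _ hr
  have hF' : PTime O (fun p : List Bool × List Bool => [F (p.1, ulen p.2)]) :=
    PTime.cons (hF.comp (PTime.id.fst.pair (PTime.ulen PTime.id.snd))) (PTime.const _)
  obtain ⟨c, k, hc⟩ := two_inputs hF'
  refine ⟨c, max k e, fun x m => ?_⟩
  obtain ⟨h1, h2⟩ := hc x (List.replicate m true)
  rw [List.length_replicate] at h1 h2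
  have hle : (x.length + m + 2) ^ k ≤ (x.length + m + 2) ^ max k e :=
    Nat.pow_le_pow_right (by omega) (le_max_left _ _)
  have hst := NE_run_stable h1 hle
  have h3 : Halts O c x (List.replicate m true) ((x.length + m + 2) ^ max k e) := by
    unfold Halts at h1 ⊢
    rw [hst]
    exact h1
  have h4 : ulen (List.replicate m true) = List.replicate m () := by
    rw [ulen_eq, List.length_replicate]
  have h5 : Accepts O c x (List.replicate m true) ((x.length + m + 2) ^ max k e) ↔
      F (x, List.replicate m ()) = true := by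
    unfold Accepts
    rw [hst, h2, h4]
    unfold Halts at h1
    simp [h1]
  obtain ⟨g1, g2⟩ := hF2 x (List.replicate m ())
  refine ⟨h3, fun h => g1 (h5.1 h), fun R hR hm hx => h5.2 (g2 R ?_ ?_ hx)⟩
  · intro n hn
    exact hR n (hn.trans (Nat.pow_le_pow_right (by omega) (le_max_right _ _)))
  · rw [List.length_replicate]
    refine le_trans (Nat.pow_le_pow_right (by omega) ?_) hm
    exact Nat.mul_le_mul_right _ (le_max_right _ _)

end Pool.Agent.TT
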