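import Pool.Agent.Lib_helper78.TT.Lists
import Pool.Agent.Lib_helper78.TT.Math

/-!
# Correctness of the search (MP_5d94c0_lc)
-/

set_option autoImplicit false
set_option linter.unusedSectionVars false

namespace Pool.Agent.TT

open Pool.Agent.CK Pool.Agent.CKP Pool.Agent.PSL Pool.Agent.PCL Finset

variable {O : Lang} {d : Cmd} {k : ℕ}

/-- the witnesses that satisfy all clauses -/
def Wst (O : Lang) (d : Cmd) (k : ℕ) (x : List Bool) (N : List Unit) (st : List Cl) :
    Finset (List Bool) :=
  (strs N.length).filter fun y => R O d k x y = true ∧ ∀ c ∈ st, hits c y = true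

theorem mem_Wst {x : List Bool} {N : List Unit} {st : List Cl} {y : List Bool} :
    y ∈ Wst O d k x N st ↔ y.length = N.length ∧ R O d k x y = true ∧
      ∀ c ∈ st, hits c y = true := by
  unfold Wst
  rw [mem_filter, mem_strs]

theorem Qs_iff {x : List Bool} {N : List Unit} {st : List Cl} {t : Tm}
    {js : List (List Unit)} : Qs O d k (x, N, st ++ [[t]], js) = true ↔
      ∃ y ∈ Wst O d k x N st, holds t y = true ∧ ∀ j ∈ js, y.getD j.length false = true := by
  unfold Qs good
  simp only [decide_eq_true_eq, Bool.and_eq_true, List.all_eq_true]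
  constructor
  · rintro ⟨y, h1, h2, h3, h4⟩
    refine ⟨y, mem_Wst.2 ⟨h1, h2, fun c hc => h3 c (List.mem_append_left _ hc)⟩, ?_, h4⟩
    have := h3 [t] (by simp)
    simpa [hits] using this
  · rintro ⟨y, hy, h1, h2⟩
    rw [mem_Wst] at hy
    refine ⟨y, hy.1, hy.2.1, ?_, h2⟩
    intro c hc
    rw [List.mem_append, List.mem_singleton] at hc
    rcases hc with hc | rfl
    · exact hy.2.2 c hc
    · simpa [hits] using h1

theorem Wst_snoc {x : List Bool} {N : List Unit} {st : List Cl} {c : Cl} {y : List Bool} :
    y ∈ Wst O d k x N (st ++ [c]) ↔ y ∈ Wst O d k x N st ∧ hits c y = true := by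
  rw [mem_Wst, mem_Wst]
  simp only [List.mem_append, List.mem_singleton]
  constructor
  · rintro ⟨h1, h2, h3⟩
    exact ⟨⟨h1, h2, fun c hc => h3 c (Or.inl hc)⟩, h3 c (Or.inr rfl)⟩
  · rintro ⟨⟨h1, h2, h3⟩, h4⟩
    refine ⟨h1, h2, ?_⟩
    rintro c' (hc | rfl)
    · exact h3 c' hc
    · exact h4

/-- the true answers of a level -/
noncomputable def tv (O : Lang) (d : Cmd) (k : ℕ) (x : List Bool) (N m : List Unit) (st : List Cl)
    (s : Sd) : List Bool := (terms m s).map fun t => Qs O d k (x, N, st ++ [[t]], [])

theorem length_tv {x : List Bool} {N m : List Unit} {st : List Cl} {s : Sd} :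
    (tv O d k x N m st s).length = (m.length + 1) ^ 3 := by
  unfold tv
  rw [List.length_map, length_terms]

theorem holds_iff {t : Tm} {y : List Bool} : holds t y = true ↔
    hv (t.1.length + 1) (sdn t.2.1) t.2.2.1.length y =
      (t.2.2.2.1.length, t.2.2.2.2.length) := by
  unfold holds
  rw [Bool.and_eq_true, decide_eq_true_eq, decide_eq_true_eq, Prod.ext_iff]

/-- the number of positive answers of a level -/
theorem count_tv {x : List Bool} {N m : List Unit} {st : List Cl} {s : Sd} :
    (tv O d k x N m st s).count true =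
      ((range (m.length + 1) ×ˢ range (m.length + 1) ×ˢ range (m.length + 1)).filter
        fun q => ∃ y ∈ Wst O d k x N st, hv (m.length + 1) (sdn s) q.1 y = q.2).card := by
  classical
  have h1 : tv O d k x N m st s = (tri (m.length + 1)).map fun q =>
      decide (∃ y ∈ Wst O d k x N st, hv (m.length + 1) (sdn s) q.1 y = q.2) := by
    unfold tv terms
    rw [triples_eq, List.map_map, List.map_map]
    apply List.map_congr_left
    intro q _
    rw [Bool.eq_iff_iff, decide_eq_true_eq]
    show Qs O d k (x, N, st ++ [[(m, s, un3 q)]], []) = true ↔ _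
    rw [Qs_iff]
    refine exists_congr fun y => and_congr_right fun _ => ?_
    rw [holds_iff]
    simp [un3]
  rw [h1, List.count_eq_countP, List.countP_map]
  have h2 : ((fun x => x == true) ∘ fun q : ℕ × ℕ × ℕ =>
      decide (∃ y ∈ Wst O d k x N st, hv (m.length + 1) (sdn s) q.1 y = q.2)) =
      fun q => decide (∃ y ∈ Wst O d k x N st, hv (m.length + 1) (sdn s) q.1 y = q.2) := by
    funext q
    simp
  rw [h2, List.countP_eq_length_filter, ← List.toFinset_card_of_nodup
    (List.Nodup.filter _ (tri_nodup _))]
  congr 1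
  ext q
  rw [List.mem_toFinset, List.mem_filter, mem_filter, decide_eq_true_eq, mem_tri,
    mem_product, mem_product, mem_range, mem_range, mem_range]

section

variable {g : List (List Bool) → List (List Bool)} {x : List Bool} {N m : List Unit}

theorem full_eq : full g x N m = steps (lcl g x N m) (seeds (() :: m)) := rfl

theorem mem_lcl {st : List Cl} {s : Sd} {t : Tm} (ht : t ∈ lcl g x N m st s) :
    t ∈ terms m s := by
  unfold lcl at ht
  rw [List.mem_map] at ht
  obtain ⟨j, hj, rfl⟩ := ht
  have hjlt : j < (terms m s).length := by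
    rw [length_terms]
    exact cover_lt (by positivity) _ j hj
  rw [List.getD_eq_getElem _ _ hjlt]
  exact List.getElem_mem hjlt

theorem length_lcl {st : List Cl} {s : Sd} :
    (lcl g x N m st s).length = DD N.length * N.length := by
  unfold lcl
  rw [List.length_map, cover_length]

/-- Few witnesses survive all levels. -/
theorem full_few (hp : (m.length + 1).Prime)
    (hN2 : 2 * (DD N.length * N.length) * (N.length ^ 2 + 1) ≤ m.length + 1) :
    (Wst O d k x N (full g x N m)).card ≤ 2 * (DD N.length * N.length) ^ 2 := by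
  classical
  set p := m.length + 1 with hpdef
  set h := DD N.length * N.length with hh
  have hmem : ∀ i ∈ range p ×ˢ range p ×ˢ range p ×ˢ range p ×ˢ range p ×ˢ range p,
      ∃ st, lcl g x N m st (un6 i) ∈ full g x N m := by
    intro i hi
    rw [full_eq]
    apply mem_steps
    apply un6_mem_seeds
    rw [List.length_cons, ← hpdef]
    exact hi
  choose! st hst using hmem
  refine few_survivors (Wst O d k x N (full g x N m))
    (range p ×ˢ range p ×ˢ range p ×ˢ range p ×ˢ range p ×ˢ range p) (range p)
    (fun i a y => hv p i a y)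
    (fun i => ((lcl g x N m (st i) (un6 i)).map fun t =>
      (t.2.2.1.length, (t.2.2.2.1.length, t.2.2.2.2.length))).toFinset) h
    (p ^ 4 * (N.length ^ 2 + 1)) ?_ ?_ ?_ ?_ ?_ ?_
  · intro i _
    refine (List.toFinset_card_le _).trans ?_
    rw [List.length_map, length_lcl]
  · intro i _ q hq
    rw [List.mem_toFinset, List.mem_map] at hq
    obtain ⟨t, ht, rfl⟩ := hq
    have := mem_terms.1 (mem_lcl ht)
    exact mem_range.2 this.2.2.1
  · intro y hy y' hy' hne a _
    exact collisions hp (mem_Wst.1 hy).1 (mem_Wst.1 hy').1 hne a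
  · intro i hi y hy
    have h1 := (mem_Wst.1 hy).2.2 _ (hst i hi)
    unfold hits at h1
    rw [List.any_eq_true] at h1
    obtain ⟨t, ht, hty⟩ := h1
    have h2 := mem_terms.1 (mem_lcl ht)
    rw [holds_iff, h2.1, h2.2.1, sdn_un6, ← hpdef] at hty
    exact ⟨_, by rw [List.mem_toFinset, List.mem_map]; exact ⟨t, ht, rfl⟩, hty⟩
  · rw [card_range]
    simp only [card_product, card_range]
    calc 2 * h * (p * (p ^ 4 * (N.length ^ 2 + 1)))
        = (2 * h * (N.length ^ 2 + 1)) * p ^ 5 := by ring
      _ ≤ p * p ^ 5 := Nat.mul_le_mul_right _ hN2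
      _ = p * (p * (p * (p * (p * p)))) := by ring
  · simp only [card_product, card_range]
    positivity

end

section

variable [OfD Qu] (hQ : ∀ q : Qu, QL O d k (qcode q) = Qs O d k q)
  {g : List (List Bool) → List (List Bool)} {x : List Bool} {N m : List Unit}

include hQ

theorem map_lquest {st : List Cl} {s : Sd} :
    (lquest x N m st s).map (QL O d k) = tv O d k x N m st s := by
  unfold lquest tv
  rw [List.map_map]
  apply List.map_congr_left
  intro t _
  exact hQ _

/-- The clause of a level is satisfied by some witness. -/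
theorem level_ne (hp : (m.length + 1).Prime) (hN : 4 * (N.length + 2) ≤ m.length + 1)
    {st : List Cl} {s : Sd}
    (hg : (lquest x N m st s).map (QL O d k) ∈ g (lquest x N m st s))
    (hg2 : (g (lquest x N m st s)).length < 2 ^ N.length)
    (hW : (m.length + 1) ^ 4 < (Wst O d k x N st).card) :
    (Wst O d k x N (st ++ [lcl g x N m st s])).Nonempty := by
  rw [map_lquest hQ] at hg
  have hd := density hp hN (sdn s) (Wst O d k x N st) (fun y hy => (mem_Wst.1 hy).1) hW
  rw [← count_tv (m := m)] at hd
  have hmem : tv O d k x N m st s ∈ lcand g x N m st s := by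
    unfold lcand
    rw [List.mem_filter, Bool.and_eq_true, decide_eq_true_eq, decide_eq_true_eq]
    exact ⟨hg, length_tv, hd⟩
  obtain ⟨j, hj, hj2⟩ := cover_hits (K := (m.length + 1) ^ 3) (D := DD N.length)
    (l := N.length) (lcand g x N m st s) (by positivity) (by unfold DD; positivity)
    (by
      intro v hv
      unfold lcand at hv
      rw [List.mem_filter, Bool.and_eq_true, decide_eq_true_eq, decide_eq_true_eq] at hv
      exact hv.2.1)
    (by
      intro v hv
      unfold lcand at hv
      rw [List.mem_filter, Bool.and_eq_true, decide_eq_true_eq, decide_eq_true_eq] at hv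
      exact hv.2.2)
    (lt_of_le_of_lt (List.length_filter_le _ _) hg2) _ hmem
  have hjlt : j < (terms m s).length := by
    rw [length_terms]
    exact cover_lt (by positivity) _ j hj
  have hj3 : Qs O d k (x, N, st ++ [[(terms m s)[j]]], []) = true := by
    unfold tv at hj2
    rw [List.getD_eq_getElem _ _ (by rw [List.length_map]; exact hjlt), List.getElem_map] at hj2
    exact hj2
  rw [Qs_iff] at hj3
  obtain ⟨y, hy, hyt, _⟩ := hj3
  refine ⟨y, Wst_snoc.2 ⟨hy, ?_⟩⟩
  unfold hits lcl
  rw [List.any_eq_true]
  refine ⟨(terms m s)[j], ?_, hyt⟩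
  rw [List.mem_map]
  exact ⟨j, hj, List.getD_eq_getElem _ _ hjlt⟩

/-- At some level there are few witnesses. -/
theorem exists_level (hp : (m.length + 1).Prime) (hN : 4 * (N.length + 2) ≤ m.length + 1)
    (hN2 : 2 * (DD N.length * N.length) * (N.length ^ 2 + 1) ≤ m.length + 1)
    (hg : ∀ i, ∀ s ∈ seeds (() :: m),
      (lquest x N m ((full g x N m).take i) s).map (QL O d k) ∈
        g (lquest x N m ((full g x N m).take i) s) ∧
      (g (lquest x N m ((full g x N m).take i) s)).length < 2 ^ N.length)
    (hW : (Wst O d k x N []).Nonempty) :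
    ∃ i ≤ (m.length + 1) ^ 6, (Wst O d k x N ((full g x N m).take i)).Nonempty ∧
      (Wst O d k x N ((full g x N m).take i)).card ≤ (m.length + 1) ^ 4 := by
  by_contra hcon
  push Not at hcon
  have hlen : (seeds (() :: m)).length = (m.length + 1) ^ 6 := by
    rw [length_seeds, List.length_cons]
  have key : ∀ i ≤ (m.length + 1) ^ 6,
      (Wst O d k x N ((full g x N m).take i)).Nonempty := by
    intro i
    induction i with
    | zero =>
      intro _
      rw [List.take_zero]
      exact hW
    | succ i ih =>
      intro hi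
      have h1 := ih (by omega)
      have h2 := hcon i (by omega) h1
      have h3 : i < (seeds (() :: m)).length := by omega
      rw [full_eq, take_steps_succ _ _ h3]
      have h4 := hg i _ (List.getElem_mem h3)
      exact level_ne hQ hp hN h4.1 h4.2 h2
  have h1 := key _ le_rfl
  have h2 := hcon _ le_rfl h1
  rw [List.take_of_length_le (by rw [full_eq, length_steps, hlen])] at h2
  have h3 := full_few (O := O) (d := d) (k := k) (g := g) (x := x) (N := N) hp hN2
  set h := DD N.length * N.length with hh
  have h4 : h ≤ m.length + 1 := by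
    refine le_trans ?_ hN2
    nlinarith [Nat.zero_le h, Nat.zero_le (N.length ^ 2)]
  have h5 : 2 ≤ m.length + 1 := hp.two_le
  have h6 : 2 * h ^ 2 ≤ (m.length + 1) ^ 4 := by
    calc 2 * h ^ 2 ≤ 2 * (m.length + 1) ^ 2 := by gcongr
      _ ≤ (m.length + 1) * (m.length + 1) ^ 2 := Nat.mul_le_mul_right _ h5
      _ ≤ (m.length + 1) * (m.length + 1) ^ 3 := by
        apply Nat.mul_le_mul_left
        apply Nat.pow_le_pow_right <;> omega
      _ = (m.length + 1) ^ 4 := by ring
  omega

/-- Few witnesses: one of them is found. -/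
theorem few_find {st : List Cl} {q : ℕ} (hq : q.Prime)
    (hW : (Wst O d k x N st).Nonempty) {T : ℕ} (hT : (Wst O d k x N st).card ≤ T)
    (hqT : T * N.length < q) {Y : ℕ} (hqY : q ≤ Y)
    (hg : ∀ t ∈ fterms (un Y), (fquest x N st t).map (QL O d k) ∈ g (fquest x N st t)) :
    ∃ t ∈ fterms (un Y), ffind g O d k x N st t ≠ [] := by
  obtain ⟨y, hy⟩ := hW
  obtain ⟨a, ha, hay⟩ := isolate hq (Wst O d k x N st) (fun y hy => (mem_Wst.1 hy).1) hT hqT hy
  have hq0 : q - 1 + 1 = q := Nat.sub_add_cancel hq.one_le
  set b := (bb q a y).1 with hb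
  have hblt : b < q := (bb_lt hq.pos a y).1
  set t : Tm := fterm (un (q - 1)) (un a) (un b) with ht
  have htm : t ∈ fterms (un Y) := by
    apply mem_fterms <;> simp only [un_length] <;> omega
  have hholds : ∀ y', holds t y' = true ↔ (bb q a y').1 = b := by
    intro y'
    rw [holds_iff, ht]
    simp only [fterm, un_length, hq0, sdn, List.length_nil, List.length_singleton, hv,
      Nat.zero_mul, Nat.mul_zero, Nat.zero_add, Nat.one_mul, Nat.add_zero, Prod.mk.injEq,
      Nat.zero_mod, and_true]
    rw [Nat.mod_eq_of_lt (bb_lt hq.pos a y').1]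
  refine ⟨t, htm, ?_⟩
  have htrue : (fquest x N st t).map (QL O d k) = y := by
    have hylen := (mem_Wst.1 hy).1
    unfold fquest
    rw [List.map_map, rangeU_eq, List.map_map]
    apply List.ext_getElem
    · rw [List.length_map, List.length_range, hylen]
    · intro i h1 h2
      rw [List.getElem_map, List.getElem_range]
      show QL O d k (qcode (x, N, st ++ [[t]], [un i])) = y[i]
      rw [hQ, Bool.eq_iff_iff, Qs_iff]
      constructor
      · rintro ⟨y', hy', h3, h4⟩
        rw [hholds] at h3
        have h5 : y' = y := hay y' hy' h3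
        subst h5
        have h6 := h4 (un i) (by simp)
        rw [un_length, List.getD_eq_getElem _ _ h2] at h6
        exact h6
      · intro h3
        refine ⟨y, hy, (hholds y).2 rfl, ?_⟩
        intro j hj
        rw [List.mem_singleton] at hj
        rw [hj, un_length, List.getD_eq_getElem _ _ h2]
        exact h3
  have h1 := hg t htm
  rw [htrue] at h1
  have h2 : strip y ∈ ffind g O d k x N st t := by
    unfold ffind
    rw [List.mem_map]
    exact ⟨y, List.mem_filter.2 ⟨h1, (mem_Wst.1 hy).2.1⟩, rfl⟩
  exact List.ne_nil_of_mem h2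

end

/-- every string found is a witness -/
theorem search_sound {g : List (List Bool) → List (List Bool)} {x : List Bool}
    {N : List Unit} : ∀ y ∈ search g O d k x N, wit O d k x y = true := by
  intro y hy
  unfold search at hy
  rw [List.mem_flatMap] at hy
  obtain ⟨m, _, hy⟩ := hy
  rw [List.mem_flatMap] at hy
  obtain ⟨i, _, hy⟩ := hy
  rw [List.mem_flatMap] at hy
  obtain ⟨t, _, hy⟩ := hy
  unfold ffind at hy
  rw [List.mem_map] at hy
  obtain ⟨v, hv, rfl⟩ := hy
  exact (List.mem_filter.1 hv).2

end Pool.Agent.TT
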