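import Pool.Agent.Lib_helper78.TT.Search

/-!
# Lists of triples and seeds (MP_5d94c0_lc)
-/

set_option autoImplicit false
set_option linter.unusedSectionVars false

namespace Pool.Agent.TT

open Pool.Agent.CK Pool.Agent.CKP Pool.Agent.PSL Pool.Agent.PCL

/-- unary number -/
def un (n : ℕ) : List Unit := List.replicate n ()

@[simp] theorem un_length (n : ℕ) : (un n).length = n := List.length_replicate

theorem un_of (u : List Unit) : un u.length = u := unary_eq u

theorem rangeU_eq (u : List Unit) : rangeU u = (List.range u.length).map un := by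
  conv_lhs => rw [← unary_eq u]
  exact rangeU_replicate _

/-- three unary numbers -/
def un3 (q : ℕ × ℕ × ℕ) : List Unit × List Unit × List Unit := (un q.1, un q.2.1, un q.2.2)

/-- six unary numbers -/
def un6 (q : ℕ × ℕ × ℕ × ℕ × ℕ × ℕ) : Sd :=
  (un q.1, un q.2.1, un q.2.2.1, un q.2.2.2.1, un q.2.2.2.2.1, un q.2.2.2.2.2)

@[simp] theorem sdn_un6 (q : ℕ × ℕ × ℕ × ℕ × ℕ × ℕ) : sdn (un6 q) = q := by
  simp [sdn, un6]

theorem un6_sdn (s : Sd) : un6 (sdn s) = s := by
  simp [sdn, un6, un_of]

/-- all triples of numbers -/
def tri (p : ℕ) : List (ℕ × ℕ × ℕ) := List.range p ×ˢ (List.range p ×ˢ List.range p)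

theorem triples_eq (u : List Unit) : triples u = (tri u.length).map un3 := by
  unfold triples tri
  rw [rangeU_eq]
  simp only [SProd.sprod, List.product, List.flatMap_map, List.map_flatMap, List.map_map]
  rfl

theorem tri_nodup (p : ℕ) : (tri p).Nodup :=
  List.nodup_range.product (List.nodup_range.product List.nodup_range)

theorem mem_tri {p : ℕ} {q : ℕ × ℕ × ℕ} : q ∈ tri p ↔ q.1 < p ∧ q.2.1 < p ∧ q.2.2 < p := by
  obtain ⟨a, b, c⟩ := q
  unfold tri
  rw [List.mem_product, List.mem_product, List.mem_range, List.mem_range, List.mem_range]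

theorem length_tri (p : ℕ) : (tri p).length = p ^ 3 := by
  unfold tri
  rw [List.length_product, List.length_product, List.length_range]
  ring

theorem mem_triples {u : List Unit} {q : List Unit × List Unit × List Unit} :
    q ∈ triples u ↔ q.1.length < u.length ∧ q.2.1.length < u.length ∧
      q.2.2.length < u.length := by
  rw [triples_eq, List.mem_map]
  constructor
  · rintro ⟨t, ht, rfl⟩
    simpa [un3] using mem_tri.1 ht
  · rintro h
    refine ⟨(q.1.length, q.2.1.length, q.2.2.length), mem_tri.2 h, ?_⟩
    simp [un3, un_of]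

theorem length_triples (u : List Unit) : (triples u).length = u.length ^ 3 := by
  rw [triples_eq, List.length_map, length_tri]

theorem mem_seeds {u : List Unit} {s : Sd} : s ∈ seeds u ↔
    s.1.length < u.length ∧ s.2.1.length < u.length ∧ s.2.2.1.length < u.length ∧
    s.2.2.2.1.length < u.length ∧ s.2.2.2.2.1.length < u.length ∧
    s.2.2.2.2.2.length < u.length := by
  unfold seeds
  rw [List.mem_flatMap]
  constructor
  · rintro ⟨a, ha, h⟩
    rw [List.mem_map] at h
    obtain ⟨b, hb, rfl⟩ := h
    rw [mem_triples] at ha hb
    exact ⟨ha.1, ha.2.1, ha.2.2, hb⟩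
  · rintro ⟨h1, h2, h3, h4, h5, h6⟩
    refine ⟨(s.1, s.2.1, s.2.2.1), mem_triples.2 ⟨h1, h2, h3⟩, ?_⟩
    rw [List.mem_map]
    exact ⟨(s.2.2.2.1, s.2.2.2.2.1, s.2.2.2.2.2), mem_triples.2 ⟨h4, h5, h6⟩, rfl⟩

theorem length_seeds (u : List Unit) : (seeds u).length = u.length ^ 6 := by
  unfold seeds
  rw [List.length_flatMap]
  simp only [List.length_map]
  rw [List.map_const', List.sum_replicate, length_triples]
  simp only [smul_eq_mul]
  ring

theorem un6_mem_seeds {u : List Unit} {q : ℕ × ℕ × ℕ × ℕ × ℕ × ℕ}
    (h : q ∈ Finset.range u.length ×ˢ Finset.range u.length ×ˢ Finset.range u.length ×ˢ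
      Finset.range u.length ×ˢ Finset.range u.length ×ˢ Finset.range u.length) :
    un6 q ∈ seeds u := by
  simp only [Finset.mem_product, Finset.mem_range] at h
  rw [mem_seeds]
  simpa [un6] using h

theorem mem_terms {m : List Unit} {s : Sd} {t : Tm} : t ∈ terms m s ↔
    t.1 = m ∧ t.2.1 = s ∧ t.2.2.1.length < m.length + 1 ∧ t.2.2.2.1.length < m.length + 1 ∧
      t.2.2.2.2.length < m.length + 1 := by
  unfold terms
  rw [List.mem_map]
  constructor
  · rintro ⟨q, hq, rfl⟩
    rw [mem_triples] at hq
    exact ⟨rfl, rfl, hq⟩
  · rintro ⟨h1, h2, h3⟩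
    refine ⟨t.2.2, mem_triples.2 h3, ?_⟩
    rw [← h1, ← h2]

theorem length_terms (m : List Unit) (s : Sd) : (terms m s).length = (m.length + 1) ^ 3 := by
  unfold terms
  rw [List.length_map, length_triples, List.length_cons]

theorem mem_fterms {X : List Unit} {m a b : List Unit} (hm : m.length < X.length)
    (ha : a.length < X.length) (hb : b.length < X.length) : fterm m a b ∈ fterms X := by
  unfold fterms
  rw [List.mem_map]
  exact ⟨(m, a, b), mem_triples.2 ⟨hm, ha, hb⟩, rfl⟩

/-! ### iteration -/

section

variable {α β : Type} (J : List α → β → α)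

/-- the iteration -/
def steps (l : List β) : List α := l.foldl (fun st s => st ++ [J st s]) []

theorem steps_snoc (l : List β) (s : β) : steps J (l ++ [s]) = steps J l ++ [J (steps J l) s] := by
  unfold steps
  rw [List.foldl_append]
  rfl

theorem length_steps (l : List β) : (steps J l).length = l.length := by
  induction l using List.reverseRecOn with
  | nil => rfl
  | append_singleton l s ih => rw [steps_snoc, List.length_append, ih, List.length_append]; rfl

theorem take_steps (l : List β) (i : ℕ) : (steps J l).take i = steps J (l.take i) := by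
  induction l using List.reverseRecOn with
  | nil => simp [steps]
  | append_singleton l s ih =>
    rw [steps_snoc]
    by_cases h : i ≤ l.length
    · rw [List.take_append_of_le_length (by rw [length_steps]; exact h),
        List.take_append_of_le_length h, ih]
    · have h1 : (steps J l ++ [J (steps J l) s]).length ≤ i := by
        rw [List.length_append, length_steps]
        simp only [List.length_singleton]
        omega
      have h2 : (l ++ [s]).length ≤ i := by
        rw [List.length_append]
        simp only [List.length_singleton]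
        omega
      rw [List.take_of_length_le h1, List.take_of_length_le h2, steps_snoc]

theorem take_steps_succ (l : List β) {i : ℕ} (hi : i < l.length) :
    (steps J l).take (i + 1) = (steps J l).take i ++ [J ((steps J l).take i) l[i]] := by
  rw [take_steps, take_steps]
  rw [List.take_succ_eq_append_getElem hi, steps_snoc]

theorem mem_steps (l : List β) {s : β} (hs : s ∈ l) : ∃ st, J st s ∈ steps J l := by
  obtain ⟨i, hi, rfl⟩ := List.getElem_of_mem hs
  refine ⟨(steps J l).take i, ?_⟩
  have h := take_steps_succ J l hi
  have h1 : J ((steps J l).take i) l[i] ∈ (steps J l).take (i + 1) := by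
    rw [h]
    simp
  exact List.mem_of_mem_take h1

end

/-! ### strings of a fixed length -/

/-- the strings of length `n` -/
def strs (n : ℕ) : Finset (List Bool) := Finset.univ.image fun f : Fin n → Bool => List.ofFn f

theorem mem_strs {n : ℕ} {y : List Bool} : y ∈ strs n ↔ y.length = n := by
  unfold strs
  rw [Finset.mem_image]
  constructor
  · rintro ⟨f, _, rfl⟩
    exact List.length_ofFn
  · rintro rfl
    exact ⟨fun i => y[i], Finset.mem_univ _, List.ofFn_getElem⟩

end Pool.Agent.TT
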