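import Pool.Agent.Lib_helper78.TT.W6

/-!
# `r(n) log n` adaptive queries are `r(n) + 1` rounds of parallel queries (MP_5d94c0_lc)

In each round all nodes of the query tree of logarithmic depth below the node that has been reached
are asked.
-/

set_option autoImplicit false
set_option linter.unusedSectionVars false

namespace Pool.Agent.TT

open Pool.Agent.CK Pool.Agent.CKP Pool.Agent.PSL Pool.Agent.PCL

variable {O P : Lang} {γ α β : Type} [ToD γ] [ToD α] [ToD β]

theorem sz_append_eq (l l' : List Bool) : sz (l ++ l') + 1 = sz l + sz l' := by
  induction l with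
  | nil =>
    have : sz ([] : List Bool) = 1 := rfl
    rw [List.nil_append, this]
    omega
  | cons a l ih =>
    rw [List.cons_append, sz_cons, sz_cons]
    omega

/-! ### the evaluation of the rounds -/

/-- the states: the node at the beginning of the round, the path from there, the number of answers
of this round that have been read -/
abbrev St : Type := List Bool × List Bool × List Unit

/-- the new path -/
def pathS (O : Lang) (c : Cmd) (k : ℕ) (x : List Bool) (s : St) (b : Bool) : List Bool :=
  if (decide (posS s.2.1 = s.2.2.length + 1) &&
    (outk O c k x (s.1 ++ s.2.1)).headD false) = true then s.2.1 ++ [b] else s.2.1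

/-- reading one answer -/
def stepS (O : Lang) (c : Cmd) (k K : ℕ) (x : List Bool) (s : St) (b : Bool) : St :=
  if decide (s.2.2.length + 1 = (x.length + 2) ^ K) = true then
    (s.1 ++ pathS O c k x s b, [], []) else (s.1, pathS O c k x s b, () :: s.2.2)

/-- the node that has been reached -/
def nodeS (O : Lang) (c : Cmd) (k K : ℕ) (x a : List Bool) : List Bool :=
  (a.foldl (stepS O c k K x) ([], [], [])).1

/-- the queries below the node `v` -/
def belowQ (O : Lang) (c : Cmd) (k K : ℕ) (x v : List Bool) : List (List Bool) :=
  (List.range ((x.length + 2) ^ K)).map fun j => (outk O c k x (v ++ strJ j)).tail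

theorem ptime_belowQ (hO : PTime P O) (c : Cmd) (k K : ℕ) {x v : γ → List Bool}
    (hx : PTime P x) (hv : PTime P v) : PTime P (fun g => belowQ O c k K (x g) (v g)) := by
  have hM : PTime P (fun g => List.replicate (((x g).length + 2) ^ K) ()) :=
    (UPoly.tb (O := P) K).comp hx
  have h := PTime.map (l := fun g => CKP.rangeU (List.replicate (((x g).length + 2) ^ K) ()))
    (f := fun g j => (outk O c k (x g) (v g ++ strJ j.length)).tail) (PTime.rangeU hM)
    (PTime.tail (ptime_outk hO c k (hx.comp PTime.id.fst)
      ((hv.comp PTime.id.fst).append (PTime.dropLast (PTime.bits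
        (PTime.nat_add (PTime.length PTime.id.snd) (PTime.const 1)))))))
  refine h.of_eq fun g => ?_
  rw [rangeU_replicate, List.map_map]
  unfold belowQ
  refine List.map_congr_left fun j _ => ?_
  simp

theorem ptime_nodeS (hO : PTime P O) (c : Cmd) (k K : ℕ) {x a : γ → List Bool}
    (hx : PTime P x) (ha : PTime P a) : PTime P (fun g => nodeS O c k K (x g) (a g)) := by
  have hx' : PTime P (fun p : γ × St × Bool => x p.1) := hx.comp PTime.id.fst
  have hM : PTime P (fun p : γ × St × Bool => (List.replicate (((x p.1).length + 2) ^ K) ()).length) :=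
    PTime.length ((UPoly.tb (O := P) K).comp hx')
  have h1 : PTime P (fun p : γ × St × Bool => p.2.1.1) := PTime.id.snd.fst.fst
  have h2 : PTime P (fun p : γ × St × Bool => p.2.1.2.1) := PTime.id.snd.fst.snd.fst
  have h3 : PTime P (fun p : γ × St × Bool => p.2.1.2.2) := PTime.id.snd.fst.snd.snd
  have h3' : PTime P (fun p : γ × St × Bool => p.2.1.2.2.length + 1) :=
    PTime.nat_add (PTime.length h3) (PTime.const 1)
  have hb : PTime P (fun p : γ × St × Bool => p.2.2) := PTime.id.snd.snd
  have hp : PTime P (fun p : γ × St × Bool => pathS O c k (x p.1) p.2.1 p.2.2) :=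
    PTime.ite ((PTime.nat_eq (PTime.ofBits (h2.append (PTime.const [true]))) h3').and
      (PTime.headD (ptime_outk hO c k hx' (h1.append h2)) (PTime.const false)))
      (h2.append (PTime.cons hb (PTime.const []))) h2
  have hs : PTime P (fun p : γ × St × Bool => stepS O c k K (x p.1) p.2.1 p.2.2) := by
    have hc : PTime P (fun p : γ × St × Bool =>
        decide (p.2.1.2.2.length + 1 = ((x p.1).length + 2) ^ K)) :=
      (PTime.nat_eq h3' hM).of_eq fun p => by rw [List.length_replicate]
    exact PTime.ite hc ((h1.append hp).pair ((PTime.const []).pair (PTime.const [])))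
      (h1.pair (hp.pair (PTime.cons (PTime.const ()) h3)))
  have h := PTime.foldl_add (l := a) (i := fun _ => (([], [], []) : St))
    (s := fun g s b => stepS O c k K (x g) s b) ha (PTime.const _) hs (Polynomial.C 8) (by
      intro g s b _
      rw [Polynomial.eval_C]
      have g1 : sz s = sz s.1 + (sz s.2.1 + sz s.2.2 + 1) + 1 := rfl
      have g2 : sz (pathS O c k (x g) s b) ≤ sz s.2.1 + 4 := by
        unfold pathS
        split_ifs
        · have h5 := sz_append_eq s.2.1 [b]
          have h6 : sz [b] = sz b + sz ([] : List Bool) + 1 := rfl
          have h7 : sz ([] : List Bool) = 1 := rfl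
          have h8 := num_bool_sz b
          omega
        · omega
      unfold stepS
      split_ifs
      · have h5 := sz_append_eq s.1 (pathS O c k (x g) s b)
        have h6 : sz ((s.1 ++ pathS O c k (x g) s b, [], []) : St) =
          sz (s.1 ++ pathS O c k (x g) s b) + (sz ([] : List Bool) + sz ([] : List Unit) + 1) + 1 :=
          rfl
        have h7 : sz ([] : List Bool) = 1 := rfl
        have h8 : sz ([] : List Unit) = 1 := rfl
        have h9 := sz_pos s.2.2
        omega
      · have h6 : sz ((s.1, pathS O c k (x g) s b, () :: s.2.2) : St) =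
          sz s.1 + (sz (pathS O c k (x g) s b) + sz (() :: s.2.2) + 1) + 1 := rfl
        have h7 : sz (() :: s.2.2) = sz () + sz s.2.2 + 1 := rfl
        have h8 : sz () = 1 := rfl
        omega)
  exact h.fst

/-! ### one round -/

section Round

variable {c : Cmd} {k K : ℕ} {x : List Bool} {S : Lang} {m : ℕ} {a : ℕ → List Bool}

theorem length_of_path (ha0 : a 0 = []) (hstep : ∀ i < m, ∃ y,
    outk O c k x (a i) = true :: y ∧ a (i + 1) = a i ++ [S y]) : ∀ i ≤ m, (a i).length = i := by
  intro i
  induction i with
  | zero => intro _; rw [ha0]; rfl
  | succ i ih =>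
    intro hi
    obtain ⟨y, _, h2⟩ := hstep i (by omega)
    rw [h2, List.length_append, ih (by omega)]
    rfl

/-- The answers of one round lead from `a i` to `a i'`, the end or at least `L` steps further. -/
theorem round_spec (hstep : ∀ i < m, ∃ y,
    outk O c k x (a i) = true :: y ∧ a (i + 1) = a i ++ [S y])
    (hend : (outk O c k x (a m)).headD false = false) {L : ℕ} (hL : 2 ^ L ≤ (x.length + 2) ^ K)
    {i : ℕ} (hi : i ≤ m) : ∃ i', i ≤ i' ∧ i' ≤ m ∧ (i' = m ∨ i + L ≤ i') ∧
      ((belowQ O c k K x (a i)).map S).foldl (stepS O c k K x) (a i, [], []) =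
        (a i', [], []) := by
  set M := (x.length + 2) ^ K with hM
  have hMpos : 0 < M := Nat.pow_pos (by omega)
  have hfold : ((belowQ O c k K x (a i)).map S).foldl (stepS O c k K x) (a i, [], []) =
      (List.range M).foldl (fun s j => stepS O c k K x s
        (S (outk O c k x (a i ++ strJ j)).tail)) (a i, [], []) := by
    unfold belowQ
    rw [List.map_map, List.foldl_map]
    rfl
  rw [hfold]
  -- one step
  have one : ∀ t (u : List Bool) (i' : ℕ), a i ++ u = a i' → i + u.length = i' → i' ≤ m →
      (i' = m ∨ t < posS u) → ∃ u' i'', pathS O c k x (a i, u, List.replicate t ())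
        (S (outk O c k x (a i ++ strJ t)).tail) = u' ∧ a i ++ u' = a i'' ∧
        i + u'.length = i'' ∧ i'' ≤ m ∧ (i'' = m ∨ t + 1 < posS u') := by
    intro t u i' hu hlen him hpos
    unfold pathS
    simp only [List.length_replicate]
    by_cases hc : (decide (posS u = t + 1) && (outk O c k x (a i ++ u)).headD false) = true
    · rw [if_pos hc]
      rw [Bool.and_eq_true, decide_eq_true_eq] at hc
      have him' : i' < m := by
        rcases Nat.lt_or_ge i' m with h | h
        · exact h
        · exfalso
          have : i' = m := le_antisymm him h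
          rw [hu, this, hend] at hc
          exact absurd hc.2 (by simp)
      obtain ⟨y, hy, hy2⟩ := hstep i' him'
      have hq : (outk O c k x (a i ++ strJ t)).tail = y := by
        rw [strJ_pos hc.1, hu, hy, List.tail_cons]
      refine ⟨_, i' + 1, rfl, ?_, ?_, him', Or.inr ?_⟩
      · rw [hq, ← List.append_assoc, hu, hy2]
      · rw [List.length_append, List.length_singleton]
        omega
      · have h1 := posS_lt_append u (S (outk O c k x (a i ++ strJ t)).tail)
        omega
    · rw [if_neg hc]
      refine ⟨u, i', rfl, hu, hlen, him, ?_⟩
      rcases Nat.lt_or_ge i' m with h | h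
      · right
        rcases hpos with h1 | h1
        · omega
        · obtain ⟨y, hy, _⟩ := hstep i' h
          rw [hu, hy] at hc
          rcases Nat.lt_or_ge (t + 1) (posS u) with h2 | h2
          · exact h2
          · exfalso
            apply hc
            have h3 : posS u = t + 1 := by omega
            simp [h3]
      · exact Or.inl (le_antisymm him h)
  -- the first M - 1 answers
  have key : ∀ t, t < M → ∃ u i', a i ++ u = a i' ∧ i + u.length = i' ∧ i' ≤ m ∧
      (i' = m ∨ t < posS u) ∧
      (List.range t).foldl (fun s j => stepS O c k K x s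
        (S (outk O c k x (a i ++ strJ j)).tail)) (a i, [], []) =
        (a i, u, List.replicate t ()) := by
    intro t
    induction t with
    | zero =>
      intro _
      exact ⟨[], i, by simp, by simp, hi, Or.inr (posS_pos _), rfl⟩
    | succ t ih =>
      intro ht
      obtain ⟨u, i', hu, hlen, him, hpos, hf⟩ := ih (by omega)
      obtain ⟨u', i'', h1, h2, h3, h4, h5⟩ := one t u i' hu hlen him hpos
      refine ⟨u', i'', h2, h3, h4, h5, ?_⟩
      rw [List.range_succ, List.foldl_append, hf, List.foldl_cons, List.foldl_nil]
      unfold stepS
      rw [h1, if_neg (by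
        rw [decide_eq_true_eq, List.length_replicate, ← hM]
        omega)]
      rfl
  obtain ⟨u, i', hu, hlen, him, hpos, hf⟩ := key (M - 1) (by omega)
  obtain ⟨u', i'', h1, h2, h3, h4, h5⟩ := one (M - 1) u i' hu hlen him hpos
  refine ⟨i'', by omega, h4, ?_, ?_⟩
  · rcases h5 with h | h
    · exact Or.inl h
    · right
      have h6 := posS_lt u'
      have h7 : 2 ^ L < 2 ^ (u'.length + 1) := by omega
      have h8 := (Nat.pow_lt_pow_iff_right (by norm_num : 1 < 2)).1 h7
      omega
  · have hr : List.range M = List.range (M - 1) ++ [M - 1] := by
      have h6 : List.range (M - 1 + 1) = List.range (M - 1) ++ [M - 1] := List.range_succ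
      rw [show (M - 1) + 1 = M by omega] at h6
      exact h6
    rw [hr, List.foldl_append, hf, List.foldl_cons, List.foldl_nil]
    unfold stepS
    rw [h1, if_pos (by
      rw [decide_eq_true_eq, List.length_replicate, ← hM]
      omega), h2]

end Round

/-! ### the reduction -/

/-- **`r(n) log n` adaptive queries are `r(n) + 1` rounds of parallel queries.** -/
theorem rounds_of_fewQueries {D S : Lang} {r : ℕ → ℕ}
    (h : PCW.FewQueriesReducible O D S (fun n => r n * Nat.log 2 (n + 2))) :
    RoundReducible O (fun n => r n + 1) D S := by
  obtain ⟨c, k, n0, h⟩ := h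
  have hO : PTime O O := PTime.ask (O := O) PTime.id
  set M0 := (n0 + 2) ^ k with hM0
  set K := M0 + 1 with hK
  -- the two programs
  have hnode : PTime O (fun p : List Bool × List Bool => nodeS O c k K p.1 p.2) :=
    ptime_nodeS hO c k K PTime.id.fst PTime.id.snd
  have hC : PTime O (fun p : List Bool × List Bool =>
      if (outk O c k p.1 (nodeS O c k K p.1 p.2)).headD false = true then
        joinS (belowQ O c k K p.1 (nodeS O c k K p.1 p.2)) else []) :=
    PTime.ite (PTime.headD (ptime_outk hO c k PTime.id.fst hnode) (PTime.const false))
      (ptime_joinS (ptime_belowQ hO c k K PTime.id.fst hnode)) (PTime.const [])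
  have hE : PTime O (fun p : List Bool × List Bool =>
      (outk O c k p.1 (nodeS O c k K p.1 p.2)).tail) :=
    PTime.tail (ptime_outk hO c k PTime.id.fst hnode)
  obtain ⟨cC, kC, hcC⟩ := two_inputs hC
  obtain ⟨cE, kE, hcE⟩ := two_inputs hE
  set A := k + K + 1 with hA
  set k' := kC + A + (A + 1) * kE with hk'
  have hout : ∀ x a : List Bool, outp O cC k' x a =
      if (outk O c k x (nodeS O c k K x a)).headD false = true then
        joinS (belowQ O c k K x (nodeS O c k K x a)) else [] := by
    intro x a
    unfold outp
    rw [NE_run_stable (hcC x a).1 (Nat.pow_le_pow_right (by omega) (by omega))]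
    exact (hcC x a).2
  refine ⟨cC, cE, k', ?_, ?_⟩
  · intro x a
    have h1 := (hcC x a).1
    unfold Halts at h1 ⊢
    rw [NE_run_stable (hcC x a).1 (Nat.pow_le_pow_right (by omega) (by omega))]
    exact h1
  · intro x
    obtain ⟨m, a, hm1, hm2, ha0, _, hq, hend⟩ := h x
    have hstep : ∀ i < m, ∃ y, outk O c k x (a i) = true :: y ∧ a (i + 1) = a i ++ [S y] := by
      intro i hi
      obtain ⟨y, hy1, hy2⟩ := hq i hi
      exact ⟨y, hy1, hy2⟩
    have hendo : outk O c k x (a m) = [false, D x] := hend
    have hend' : (outk O c k x (a m)).headD false = false := by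
      rw [hendo]
      rfl
    set L := K * Nat.log 2 (x.length + 2) with hL
    have hlog : 1 ≤ Nat.log 2 (x.length + 2) :=
      Nat.log_pos (by norm_num) (by omega)
    have hKL : K ≤ L := by
      calc K = K * 1 := (Nat.mul_one _).symm
        _ ≤ L := Nat.mul_le_mul_left _ hlog
    have hL2 : 2 ^ L ≤ (x.length + 2) ^ K := by
      rw [hL, Nat.mul_comm, pow_mul]
      exact Nat.pow_le_pow_left (Nat.pow_log_le_self 2 (by omega)) K
    have hlenQ : ∀ v : List Bool,
        ((belowQ O c k K x v).map S).length = (x.length + 2) ^ K := by
      intro v
      rw [List.length_map]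
      unfold belowQ
      rw [List.length_map, List.length_range]
    have inv : ∀ t, ∃ i q, i ≤ m ∧ q ≤ i ∧
        (answers O S cC k' x t).length = q * (x.length + 2) ^ K ∧
        (answers O S cC k' x t).foldl (stepS O c k K x) ([], [], []) = (a i, [], []) ∧
        (i = m ∨ t * L ≤ i) := by
      intro t
      induction t with
      | zero =>
        refine ⟨0, 0, Nat.zero_le _, le_rfl, by simp [answers], ?_, Or.inr (by simp)⟩
        rw [ha0]
        rfl
      | succ t ih =>
        obtain ⟨i, q, him, hqi, hlen, hf, hi⟩ := ih
        have hnd : nodeS O c k K x (answers O S cC k' x t) = a i := by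
          unfold nodeS
          rw [hf]
        rcases Nat.lt_or_ge i m with hlt | hge
        · obtain ⟨y, hy, _⟩ := hstep i hlt
          have hans : answers O S cC k' x (t + 1) =
              answers O S cC k' x t ++ (belowQ O c k K x (a i)).map S := by
            rw [answers, hout, hnd, hy, if_pos (by rfl), split_joinS]
          obtain ⟨i', h1, h2, h3, h4⟩ := round_spec hstep hend' hL2 him
          have hii : i + 1 ≤ i' := by
            rcases h3 with h | h
            · omega
            · omega
          refine ⟨i', q + 1, h2, by omega, ?_, ?_, ?_⟩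
          · rw [hans, List.length_append, hlen, hlenQ]
            ring
          · rw [hans, List.foldl_append, hf, h4]
          · rcases h3 with h | h
            · exact Or.inl h
            · right
              rcases hi with h5 | h5
              · omega
              · calc (t + 1) * L = t * L + L := by ring
                  _ ≤ i' := by omega
        · have him' : i = m := le_antisymm him hge
          have hans : answers O S cC k' x (t + 1) = answers O S cC k' x t := by
            rw [answers, hout, hnd, him', hend', if_neg (by simp)]
            simp [split]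
          rw [hans]
          exact ⟨i, q, him, hqi, hlen, hf, Or.inl him'⟩
    -- after r(n) + 1 rounds the end is reached
    obtain ⟨i, q, him, hqi, hlen, hf, hi⟩ := inv (r x.length + 1)
    have him' : i = m := by
      rcases hi with h1 | h1
      · exact h1
      · exfalso
        have h2 : (r x.length + 1) * L = r x.length * L + L := by ring
        rcases Nat.lt_or_ge x.length n0 with hx | hx
        · have h3 : (x.length + 2) ^ k ≤ M0 := Nat.pow_le_pow_left (by omega) k
          omega
        · have h3 := hm2 hx
          have h4 : r x.length * Nat.log 2 (x.length + 2) ≤ r x.length * L := by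
            apply Nat.mul_le_mul_left
            calc Nat.log 2 (x.length + 2) = 1 * Nat.log 2 (x.length + 2) := (Nat.one_mul _).symm
              _ ≤ L := Nat.mul_le_mul_right _ (by omega)
          simp only at h3
          omega
    subst him'
    have hnd : nodeS O c k K x (answers O S cC k' x (r x.length + 1)) = a i := by
      unfold nodeS
      rw [hf]
    have hlenA : (answers O S cC k' x (r x.length + 1)).length ≤ (x.length + 2) ^ A := by
      rw [hlen]
      calc q * (x.length + 2) ^ K ≤ (x.length + 2) ^ k * (x.length + 2) ^ K :=
            Nat.mul_le_mul_right _ (by omega)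
        _ = (x.length + 2) ^ (k + K) := (pow_add _ _ _).symm
        _ ≤ (x.length + 2) ^ A := Nat.pow_le_pow_right (by omega) (by omega)
    have htime : (x.length + (answers O S cC k' x (r x.length + 1)).length + 2) ^ kE ≤
        (x.length + 2) ^ k' := by
      have h1 : x.length + (x.length + 2) ^ A + 2 ≤ (x.length + 2) ^ (A + 1) := by
        have h2 : x.length + 2 ≤ (x.length + 2) ^ A := by
          calc x.length + 2 = (x.length + 2) ^ 1 := (pow_one _).symm
            _ ≤ (x.length + 2) ^ A := Nat.pow_le_pow_right (by omega) (by omega)
        have h3 : (x.length + 2) ^ (A + 1) = (x.length + 2) ^ A * (x.length + 2) := pow_succ _ _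
        have h4 : (x.length + 2) ^ A * 2 ≤ (x.length + 2) ^ A * (x.length + 2) :=
          Nat.mul_le_mul_left _ (by omega)
        omega
      calc (x.length + (answers O S cC k' x (r x.length + 1)).length + 2) ^ kE
          ≤ ((x.length + 2) ^ (A + 1)) ^ kE := Nat.pow_le_pow_left (by omega) kE
        _ = (x.length + 2) ^ ((A + 1) * kE) := by rw [← pow_mul]
        _ ≤ (x.length + 2) ^ k' := Nat.pow_le_pow_right (by omega) (by omega)
    have hh := hcE x (answers O S cC k' x (r x.length + 1))
    have hstab := NE_run_stable hh.1 htime
    refine ⟨?_, ?_, ?_, ?_⟩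
    · show (answers O S cC k' x (r x.length + 1)).length ≤ _
      exact hlenA.trans (Nat.pow_le_pow_right (by omega) (by omega))
    · show answers O S cC k' x (r x.length + 1 + 1) = answers O S cC k' x (r x.length + 1)
      rw [answers, hout, hnd, hend', if_neg (by simp)]
      simp [split]
    · show Halts O cE x (answers O S cC k' x (r x.length + 1)) _
      unfold Halts
      rw [hstab]
      exact hh.1
    · show Accepts O cE x (answers O S cC k' x (r x.length + 1)) _ ↔ _
      unfold Accepts
      rw [hstab, hh.2]
      have h1 : (run O cE x (answers O S cC k' x (r x.length + 1))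
          ((x.length + (answers O S cC k' x (r x.length + 1)).length + 2) ^ kE)).1 = [] := hh.1
      rw [h1]
      simp only [hnd]
      rw [hendo]
      simp

end Pool.Agent.TT
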