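import Pool.Agent.Lib_helper78.TT.Final
import Pool.Agent.Lib_helper78.TT.W6b

/-!
# The two clauses of the result (MP_5d94c0_lc)
-/

set_option autoImplicit false

namespace Pool.Agent.TT

open Pool.Agent.CK Pool.Agent.PCL Pool.Agent.PCW

variable {O : Lang}

/-- `P = NP` from reductions with few rounds or few queries to a p-selective language -/
theorem clause_one {S : Lang} (hS : PSelective O S)
    (h : ∀ A, InNP O A → (∃ r : ℕ, RoundReducible O (fun _ => r) A S) ∨
      ∃ c : ℕ, FewQueriesReducible O A S (fun n => c * Nat.log 2 (n + 2) + c)) :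
    ∀ A, InNP O A → InP O A := by
  intro A hA
  obtain ⟨B, hB, hB2⟩ := const_case hA
  rcases h B hB with ⟨r, hr⟩ | ⟨c, hc⟩
  · exact hB2 S hS r hr
  · exact hB2 S hS 1 (roundReducible_of_fewQueries (fun n => le_rfl) hc)

/-- the quantitative version -/
theorem clause_two {D : Lang} (hD : InNP O D) : ∃ B : Lang, InNP O B ∧ ∀ S : Lang,
    PSelective O S → ∀ r : ℕ → ℕ, (RoundReducible O r B S ∨
      FewQueriesReducible O B S (fun n => r n * Nat.log 2 (n + 2))) →
    ∃ (c : Cmd) (e : ℕ), ∀ (x : List Bool) (m : ℕ),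
      Halts O c x (List.replicate m true) ((x.length + m + 2) ^ e) ∧
      ∀ R : ℕ, (∀ n ≤ (x.length + R + 2) ^ e, r n ≤ R) →
        (x.length + R + 2) ^ (e * (R + 1)) ≤ m →
        (Accepts O c x (List.replicate m true) ((x.length + m + 2) ^ e) ↔ D x = true) := by
  obtain ⟨B, hB, h⟩ := machine_rounds hD
  refine ⟨B, hB, fun S hS r hr => ?_⟩
  have hr' : RoundReducible O (fun n => r n + 1) B S := by
    rcases hr with hr | hr
    · obtain ⟨c, e, k, h1, h2⟩ := hr
      refine ⟨c, e, k, h1, fun x => ?_⟩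
      obtain ⟨g1, g2, g3⟩ := h2 x
      simp only
      rw [g2]
      refine ⟨g1, ?_, g3⟩
      show answers O S c k x (r x.length + 1) ++
        (split (outp O c k x (answers O S c k x (r x.length + 1)))).map S = _
      rw [g2]
      exact g2
    · exact rounds_of_fewQueries hr
  obtain ⟨c, e, hc⟩ := h S hS _ hr'
  refine ⟨c, 4 * e, fun x m => ?_⟩
  obtain ⟨h1, h2, h3⟩ := hc x m
  have hle : (x.length + m + 2) ^ e ≤ (x.length + m + 2) ^ (4 * e) :=
    Nat.pow_le_pow_right (by omega) (by omega)
  have hst := NE_run_stable h1 hle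
  have h4 : Halts O c x (List.replicate m true) ((x.length + m + 2) ^ (4 * e)) := by
    unfold Halts at h1 ⊢
    rw [hst]
    exact h1
  have h5 : Accepts O c x (List.replicate m true) ((x.length + m + 2) ^ (4 * e)) ↔
      Accepts O c x (List.replicate m true) ((x.length + m + 2) ^ e) := by
    unfold Accepts
    rw [hst]
  refine ⟨h4, fun R hR hm => ?_⟩
  rw [h5]
  refine ⟨h2, h3 (R + 1) ?_ ?_⟩
  · intro n hn
    have h6 : (x.length + (R + 1) + 2) ^ e ≤ (x.length + R + 2) ^ (4 * e) := by
      calc (x.length + (R + 1) + 2) ^ e ≤ ((x.length + R + 2) ^ 2) ^ e :=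
            Nat.pow_le_pow_left (by nlinarith) e
        _ = (x.length + R + 2) ^ (2 * e) := by rw [← pow_mul]
        _ ≤ (x.length + R + 2) ^ (4 * e) := Nat.pow_le_pow_right (by omega) (by omega)
    have := hR n (hn.trans h6)
    omega
  · refine le_trans ?_ hm
    calc (x.length + (R + 1) + 2) ^ (e * (R + 1 + 1))
        ≤ ((x.length + R + 2) ^ 2) ^ (e * (R + 1 + 1)) := Nat.pow_le_pow_left (by nlinarith) _
      _ = (x.length + R + 2) ^ (2 * (e * (R + 1 + 1))) := by rw [← pow_mul]
      _ ≤ (x.length + R + 2) ^ (4 * e * (R + 1)) := by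
        apply Nat.pow_le_pow_right (by omega)
        nlinarith [Nat.zero_le (e * R)]

end Pool.Agent.TT
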