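import Mathlib

/-!
# Numbers for the truth-table theorem (MP_5d94c0_lc)

A string `y` is read as the polynomial `B_y(X) = y_0 + y_1 X + y_2 X^2 + ...`.
-/

set_option autoImplicit false

namespace Pool.Agent.TT

/-- the values at `t` of the polynomial with coefficients `y` and of its derivative, modulo `p`
(Horner) -/
def bb (p t : ℕ) : List Bool → ℕ × ℕ
  | [] => (0, 0)
  | b :: y => (((if b = true then 1 else 0) + t * (bb p t y).1) % p,
      ((bb p t y).1 + t * (bb p t y).2) % p)

/-- the hash function of the level `s = (t1, t2, c1, c2, e1, e2)` at `a`: the values at `a`, modulo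
`p`, of `P = X^2 B_y + v X + u` and of `P'`, with `v = e1 B_y(t1) + e2 B_y(t2)` and
`u = c1 B_y(t1) + c2 B_y(t2)` -/
def hv (p : ℕ) (s : ℕ × ℕ × ℕ × ℕ × ℕ × ℕ) (a : ℕ) (y : List Bool) : ℕ × ℕ :=
  let r1 := (bb p s.1 y).1
  let r2 := (bb p s.2.1 y).1
  let r := bb p a y
  let v := s.2.2.2.2.1 * r1 + s.2.2.2.2.2 * r2
  let u := s.2.2.1 * r1 + s.2.2.2.1 * r2
  ((a * a * r.1 + v * a + u) % p, (2 * a * r.1 + a * a * r.2 + v) % p)

/-- the number of vectors in `V` with a one at the place `j` -/
def cnt (V : List (List Bool)) (j : ℕ) : ℕ := (V.filter fun v => v.getD j false).length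

/-- a place with many ones -/
def best (K : ℕ) (V : List (List Bool)) : ℕ :=
  (List.range K).foldl (fun b j => if cnt V b < cnt V j then j else b) 0

/-- the greedy cover with `h` places -/
def cover (K : ℕ) : ℕ → List (List Bool) → List ℕ
  | 0, _ => []
  | h + 1, V => best K V :: cover K h (V.filter fun v => !v.getD (best K V) false)

end Pool.Agent.TT
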