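import Pool.Agent.Lib_helper78.PCL.D
import Pool.Agent.Lib_helper78.TT.Num

/-!
# Unary arithmetic in polynomial time (MP_5d94c0_lc)
-/

set_option autoImplicit false
set_option linter.unusedSectionVars false

namespace Pool.Agent.TT

open Pool.Agent.CK Pool.Agent.CKP Pool.Agent.PSL Pool.Agent.PCL

variable {P : Lang} {γ α β : Type} [ToD γ] [ToD α] [ToD β]

/-- `f` is computable in unary in polynomial time. -/
def PN (P : Lang) {γ : Type} [ToD γ] (f : γ → ℕ) : Prop :=
  PTime P (fun x => List.replicate (f x) ())

theorem PN.of_eq {f g : γ → ℕ} (hf : PN P f) (h : ∀ x, f x = g x) : PN P g :=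
  PTime.of_eq hf fun x => by rw [h]

theorem PN.const (c : ℕ) : PN P (fun _ : γ => c) := PTime.const _

theorem PN.len {l : γ → List α} (hl : PTime P l) : PN P (fun x => (l x).length) :=
  (PTime.ulen hl).of_eq fun x => ulen_eq _

theorem PN.add {f g : γ → ℕ} (hf : PN P f) (hg : PN P g) : PN P (fun x => f x + g x) :=
  (PTime.append hf hg).of_eq fun x => by rw [List.replicate_append_replicate]

theorem PN.mul {f g : γ → ℕ} (hf : PN P f) (hg : PN P g) : PN P (fun x => f x * g x) :=
  (PTime.umul hf hg).of_eq fun x => by rw [umul_replicate]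

theorem PN.pow {f : γ → ℕ} (hf : PN P f) (k : ℕ) : PN P (fun x => f x ^ k) := by
  induction k with
  | zero => exact (PN.const 1).of_eq fun x => by simp
  | succ k ih => exact (ih.mul hf).of_eq fun x => (pow_succ _ _).symm

theorem PN.comp {f : α → ℕ} {g : γ → α} (hf : PN P f) (hg : PTime P g) :
    PN P (fun x => f (g x)) := PTime.comp hf hg

theorem PN.ite {c : γ → Bool} {f g : γ → ℕ} (hc : PTime P c) (hf : PN P f) (hg : PN P g) :
    PN P (fun x => if c x = true then f x else g x) :=
  (PTime.ite hc hf hg).of_eq fun x => by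
    show _ = List.replicate (if c x = true then f x else g x) ()
    split_ifs <;> rfl

theorem PN.nat {f : γ → ℕ} (hf : PN P f) : PTime P f :=
  (PTime.length hf).of_eq fun x => List.length_replicate

theorem PN.eq {f g : γ → ℕ} (hf : PN P f) (hg : PN P g) :
    PTime P (fun x => decide (f x = g x)) := hf.nat.nat_eq hg.nat

theorem PN.le {f g : γ → ℕ} (hf : PN P f) (hg : PN P g) :
    PTime P (fun x => decide (f x ≤ g x)) := hf.nat.nat_le hg.nat

theorem PN.lt {f g : γ → ℕ} (hf : PN P f) (hg : PN P g) :
    PTime P (fun x => decide (f x < g x)) := hf.nat.nat_lt hg.nat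

@[simp] theorem sz_unit (a : Unit) : sz a = 1 := rfl

@[simp] theorem sz_rep (n : ℕ) : sz (List.replicate n ()) = 2 * n + 1 := by
  induction n with
  | zero => rfl
  | succ n ih => rw [List.replicate_succ, sz_cons, ih, sz_unit]; ring

theorem sz_unary (l : List Unit) : sz l = 2 * l.length + 1 := by
  rw [← unary_eq l, sz_rep, List.length_replicate]

theorem PN.bound {f : γ → ℕ} (hf : PN P f) : ∃ Q : Polynomial ℕ, ∀ x, f x ≤ Q.eval (sz x) := by
  obtain ⟨Q, hQ⟩ := PTime.size_le hf
  refine ⟨Q, fun x => ?_⟩
  have := hQ x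
  rw [sz_rep] at this
  omega

/-! ### remainders -/

theorem mod_fold (p a : ℕ) :
    (List.replicate a ()).foldl (fun (r : List Unit) _ =>
      if decide (r.length + 1 = p) = true then [] else () :: r) [] =
      List.replicate (a % p) () := by
  induction a with
  | zero => simp
  | succ a ih =>
    rw [List.replicate_succ', List.foldl_append, ih, List.foldl_cons, List.foldl_nil,
      List.length_replicate]
    by_cases h : a % p + 1 = p
    · rw [if_pos (by rw [decide_eq_true_eq]; exact h)]
      have : (a + 1) % p = 0 := by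
        rw [Nat.add_mod]
        rcases Nat.lt_or_ge 1 p with h1 | h1
        · rw [Nat.mod_eq_of_lt h1, h, Nat.mod_self]
        · have hp : p = 1 := by omega
          subst hp
          rw [Nat.mod_one]
      rw [this, List.replicate_zero]
    · rw [if_neg (by rw [decide_eq_true_eq]; exact h), ← List.replicate_succ]
      congr 1
      rcases Nat.eq_zero_or_pos p with hp | hp
      · subst hp
        simp
      · have h1 := Nat.mod_lt a hp
        rcases Nat.lt_or_ge 1 p with h2 | h2
        · rw [Nat.add_mod, Nat.mod_eq_of_lt h2, Nat.mod_eq_of_lt (by omega : a % p + 1 < p)]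
        · exfalso
          have : p = 1 := by omega
          subst this
          rw [Nat.mod_one] at h
          omega

theorem PN.mod {f g : γ → ℕ} (hf : PN P f) (hg : PN P g) : PN P (fun x => f x % g x) := by
  have h := PTime.foldl_add (l := fun x => List.replicate (f x) ())
    (i := fun _ => ([] : List Unit))
    (s := fun x r _ => if decide (r.length + 1 = g x) = true then [] else () :: r) hf
    (PTime.const _) (PTime.ite
      (((PN.len (PTime.id (α := γ × List Unit × Unit)).snd.fst).add (PN.const 1)).eq
        (hg.comp PTime.id.fst)) (PTime.const _)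
      (PTime.cons (PTime.const ()) PTime.id.snd.fst)) 2 (by
      intro x b a _
      rw [Polynomial.eval_ofNat]
      split_ifs
      · have := sz_pos b
        rw [sz_nil]
        omega
      · rw [sz_cons, sz_unit]
        omega)
  exact h.of_eq fun x => mod_fold _ _

/-! ### the hash functions -/

theorem bb_lt {p : ℕ} (hp : 0 < p) (t : ℕ) (y : List Bool) :
    (bb p t y).1 < p ∧ (bb p t y).2 < p := by
  cases y with
  | nil => exact ⟨hp, hp⟩
  | cons b y => exact ⟨Nat.mod_lt _ hp, Nat.mod_lt _ hp⟩

theorem ptime_bb {m t : γ → ℕ} {y : γ → List Bool} (hm : PN P m) (ht : PN P t)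
    (hy : PTime P y) : PN P (fun x => (bb (m x + 1) (t x) (y x)).1) ∧
      PN P (fun x => (bb (m x + 1) (t x) (y x)).2) := by
  obtain ⟨Q, hQ⟩ := hm.bound
  have h1 : PN P (fun p : γ × Bool × List Unit × List Unit => p.2.2.1.length) :=
    PN.len PTime.id.snd.snd.fst
  have h2 : PN P (fun p : γ × Bool × List Unit × List Unit => p.2.2.2.length) :=
    PN.len PTime.id.snd.snd.snd
  have hb : PN P (fun p : γ × Bool × List Unit × List Unit => if p.2.1 = true then 1 else 0) :=
    PN.ite PTime.id.snd.fst (PN.const 1) (PN.const 0)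
  have hm' : PN P (fun p : γ × Bool × List Unit × List Unit => m p.1 + 1) :=
    (hm.comp PTime.id.fst).add (PN.const 1)
  have ht' : PN P (fun p : γ × Bool × List Unit × List Unit => t p.1) := ht.comp PTime.id.fst
  have h := PTime.foldr_add (l := y) (i := fun _ => (([] : List Unit), ([] : List Unit)))
    (s := fun x b r => (List.replicate (((if b = true then 1 else 0) + t x * r.1.length) %
      (m x + 1)) (), List.replicate ((r.1.length + t x * r.2.length) % (m x + 1)) ()))
    hy (PTime.const _) (PTime.pair ((hb.add (ht'.mul h1)).mod hm')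
      ((h1.add (ht'.mul h2)).mod hm')) (4 * Q + 4) (by
      intro x b a _
      rw [sz_pair, sz_rep, sz_rep, Polynomial.eval_add, Polynomial.eval_mul,
        Polynomial.eval_ofNat]
      have g1 := Nat.mod_lt ((if a = true then 1 else 0) + t x * b.1.length)
        (Nat.succ_pos (m x))
      have g2 := Nat.mod_lt (b.1.length + t x * b.2.length) (Nat.succ_pos (m x))
      have g3 := hQ x
      have g4 := sz_pos b
      simp only [Nat.succ_eq_add_one] at g1 g2
      omega)
  have h3 : ∀ x, (y x).foldr (fun b r => (List.replicate (((if b = true then 1 else 0) +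
      t x * r.1.length) % (m x + 1)) (), List.replicate ((r.1.length + t x * r.2.length) %
      (m x + 1)) ())) (([] : List Unit), ([] : List Unit)) =
      (List.replicate (bb (m x + 1) (t x) (y x)).1 (),
        List.replicate (bb (m x + 1) (t x) (y x)).2 ()) := by
    intro x
    induction y x with
    | nil => rfl
    | cons b y ih =>
      rw [List.foldr_cons, ih]
      simp only [List.length_replicate]
      rfl
  exact ⟨h.fst.of_eq fun x => by rw [h3], h.snd.of_eq fun x => by rw [h3]⟩

/-- seeds -/
abbrev Sd : Type :=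
  List Unit × List Unit × List Unit × List Unit × List Unit × List Unit

/-- the numbers of a seed -/
def sdn (s : Sd) : ℕ × ℕ × ℕ × ℕ × ℕ × ℕ :=
  (s.1.length, s.2.1.length, s.2.2.1.length, s.2.2.2.1.length, s.2.2.2.2.1.length,
    s.2.2.2.2.2.length)

theorem ptime_hv {m a : γ → ℕ} {s : γ → Sd} {y : γ → List Bool} (hm : PN P m) (hs : PTime P s)
    (ha : PN P a) (hy : PTime P y) : PN P (fun x => (hv (m x + 1) (sdn (s x)) (a x) (y x)).1) ∧
      PN P (fun x => (hv (m x + 1) (sdn (s x)) (a x) (y x)).2) := by
  have h1 := (ptime_bb hm (PN.len hs.fst) hy).1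
  have h2 := (ptime_bb hm (PN.len hs.snd.fst) hy).1
  have h3 := (ptime_bb hm ha hy).1
  have h4 := (ptime_bb hm ha hy).2
  have c1 := PN.len hs.snd.snd.fst
  have c2 := PN.len hs.snd.snd.snd.fst
  have e1 := PN.len hs.snd.snd.snd.snd.fst
  have e2 := PN.len hs.snd.snd.snd.snd.snd
  have hv' := (e1.mul h1).add (e2.mul h2)
  have hu' := (c1.mul h1).add (c2.mul h2)
  have hp := hm.add (PN.const 1)
  exact ⟨((((ha.mul ha).mul h3).add (hv'.mul ha)).add hu').mod hp,
    (((((PN.const 2).mul ha).mul h3).add ((ha.mul ha).mul h4)).add hv').mod hp⟩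

/-- terms: modulus minus one, seed, place, and the two values -/
abbrev Tm : Type := List Unit × Sd × List Unit × List Unit × List Unit

/-- `y` satisfies the term -/
def holds (t : Tm) (y : List Bool) : Bool :=
  decide ((hv (t.1.length + 1) (sdn t.2.1) t.2.2.1.length y).1 = t.2.2.2.1.length) &&
    decide ((hv (t.1.length + 1) (sdn t.2.1) t.2.2.1.length y).2 = t.2.2.2.2.length)

theorem ptime_holds {t : γ → Tm} {y : γ → List Bool} (ht : PTime P t) (hy : PTime P y) :
    PTime P (fun x => holds (t x) (y x)) := by
  have h := ptime_hv (PN.len ht.fst) ht.snd.fst (PN.len ht.snd.snd.fst) hy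
  exact (h.1.eq (PN.len ht.snd.snd.snd.fst)).and (h.2.eq (PN.len ht.snd.snd.snd.snd))

end Pool.Agent.TT
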