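import Pool.Agent.Lib_helper78.TT.PN

/-!
# The search (MP_5d94c0_lc): definitions

Deterministic search of a witness with the help of lists of candidate answer vectors for batches of
`NP` questions.
-/

set_option autoImplicit false
set_option linter.unusedSectionVars false

namespace Pool.Agent.TT

open Pool.Agent.CK Pool.Agent.CKP Pool.Agent.PSL Pool.Agent.PCL

/-! ### decoding typed data -/

/-- Types whose elements can be read off from their codes. -/
class OfD (α : Type) [ToD α] where
  ofD : D → α
  ofD_toD : ∀ a : α, ofD (toD a) = a
  pt : ∀ P : Lang, PTime P ofD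

export OfD (ofD)

/-! ### witnesses of fixed length -/

/-- `y ++ 1 ++ 0...0 ↦ y` -/
def strip (y : List Bool) : List Bool := ((y.reverse.dropWhile fun b => !b).tail).reverse

/-- `y ↦ y ++ 1 ++ 0...0` of length `n` -/
def pad (n : ℕ) (y : List Bool) : List Bool :=
  y ++ true :: List.replicate (n - y.length - 1) false

/-- `y` codes a witness for `x` -/
def R (O : Lang) (d : Cmd) (k : ℕ) (x y : List Bool) : Bool := wit O d k x (strip y)

/-! ### questions -/

/-- clauses: disjunctions of terms -/
abbrev Cl : Type := List Tm

/-- `y` satisfies the clause -/
def hits (c : Cl) (y : List Bool) : Bool := c.any fun t => holds t y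

/-- questions: the input `x`, the length of the witnesses, the clauses, the places where the
witness must be one -/
abbrev Qu : Type := List Bool × List Unit × List Cl × List (List Unit)

/-- `y` is a positive answer to the question `q` -/
def good (O : Lang) (d : Cmd) (k : ℕ) (q : Qu) (y : List Bool) : Bool :=
  decide (y.length = q.2.1.length) && (R O d k q.1 y && ((q.2.2.1.all fun c => hits c y) &&
    q.2.2.2.all fun j => y.getD j.length false))

/-- the questions -/
noncomputable def Qs (O : Lang) (d : Cmd) (k : ℕ) (q : Qu) : Bool :=
  open Classical in decide (∃ y, good O d k q y = true)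

/-- the `NP` language of the questions -/
noncomputable def QL [OfD Qu] (O : Lang) (d : Cmd) (k : ℕ) : Lang :=
  fun w => Qs O d k (ofD (dec w))

/-! ### levels -/

/-- all triples -/
def triples (p : List Unit) : List (List Unit × List Unit × List Unit) :=
  (rangeU p).flatMap fun a => (rangeU p).flatMap fun b => (rangeU p).map fun c => (a, b, c)

/-- all seeds -/
def seeds (p : List Unit) : List Sd :=
  (triples p).flatMap fun a => (triples p).map fun b => (a.1, a.2.1, a.2.2, b.1, b.2.1, b.2.2)

/-- all terms of a level; the modulus is `m + 1` -/
def terms (m : List Unit) (s : Sd) : List Tm := (triples (() :: m)).map fun q => (m, s, q)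

/-- the code of a question -/
def qcode (q : Qu) : List Bool := (toD q).enc

/-- the questions of a level -/
def lquest (x : List Bool) (N m : List Unit) (st : List Cl) (s : Sd) : List (List Bool) :=
  (terms m s).map fun t => qcode (x, N, st ++ [[t]], [])

/-- the number `128 (N + 2)^2` -/
def DD (N : ℕ) : ℕ := 128 * (N + 2) ^ 2

variable (g : List (List Bool) → List (List Bool))

/-- the candidates of a level with many ones -/
def lcand (x : List Bool) (N m : List Unit) (st : List Cl) (s : Sd) : List (List Bool) :=
  (g (lquest x N m st s)).filter fun v => decide (v.length = (m.length + 1) ^ 3) &&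
    decide ((m.length + 1) ^ 3 ≤ DD N.length * v.count true)

/-- the clause of a level -/
def lcl (x : List Bool) (N m : List Unit) (st : List Cl) (s : Sd) : Cl :=
  (cover ((m.length + 1) ^ 3) (DD N.length * N.length) (lcand g x N m st s)).map fun j =>
    (terms m s).getD j (m, s, [], [], [])

/-- all clauses -/
def full (x : List Bool) (N m : List Unit) : List Cl :=
  (seeds (() :: m)).foldl (fun st s => st ++ [lcl g x N m st s]) []

/-! ### few witnesses -/

/-- the term that says `B_y(a) = b` modulo `m + 1` -/
def fterm (m a b : List Unit) : Tm :=
  (m, (a, [], [()], [], [], []), [], b, [])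

/-- the bit questions -/
def fquest (x : List Bool) (N : List Unit) (st : List Cl) (t : Tm) : List (List Bool) :=
  (rangeU N).map fun j => qcode (x, N, st ++ [[t]], [j])

/-- the witnesses found -/
def ffind (O : Lang) (d : Cmd) (k : ℕ) (x : List Bool) (N : List Unit) (st : List Cl) (t : Tm) :
    List (List Bool) :=
  ((g (fquest x N st t)).filter fun v => R O d k x v).map strip

/-- all fingerprints with moduli up to `X` -/
def fterms (X : List Unit) : List Tm :=
  (triples X).map fun q => fterm q.1 q.2.1 q.2.2

/-- the bound for the moduli of the levels: `2 X` with `X = 256 (N + 2)^5` -/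
def XX (N : ℕ) : ℕ := 512 * (N + 2) ^ 5

/-- the bound for the moduli of the fingerprints -/
def YY (N : ℕ) : ℕ := 2 * (XX N ^ 4 * (N + 1) + 1)

/-- the search -/
def search (O : Lang) (d : Cmd) (k : ℕ) (x : List Bool) (N : List Unit) : List (List Bool) :=
  (rangeU (List.replicate (XX N.length) ())).flatMap fun m =>
    (rangeU (() :: (List.replicate ((m.length + 1) ^ 6) ()))).flatMap fun i =>
      (fterms (List.replicate (YY N.length) ())).flatMap fun t =>
        ffind g O d k x N ((full g x N m).take i.length) t

end Pool.Agent.TT
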